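import Mathlib

namespace Pool.Agent.MP_09de6b_co

/-- Points of the plane. -/
abbrev Pt : Type := ℝ × ℝ

/-- No three distinct points of `S` are collinear. -/
def GenPos (S : Finset Pt) : Prop :=
  ∀ a ∈ S, ∀ b ∈ S, ∀ c ∈ S, a ≠ b → a ≠ c → b ≠ c → ¬ Collinear ℝ ({a, b, c} : Set Pt)

/-- `H` is a `k`-hole of `S`: `k` points of `S` in convex position whose convex hull contains
no other point of `S`. -/
def IsHole (k : ℕ) (S H : Finset Pt) : Prop :=
  H ⊆ S ∧ H.card = k ∧ (∀ x ∈ H, x ∉ convexHull ℝ ((H : Set Pt) \ {x})) ∧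
    convexHull ℝ (H : Set Pt) ∩ (S : Set Pt) = (H : Set Pt)

/-- A strategy `σ` of Breaker maps the list of Maker's points so far (newest first) to the set of
points Breaker places in the current round; `bpts σ L` is the set of all her points so far. -/
noncomputable def bpts (σ : List Pt → Finset Pt) : List Pt → Finset Pt
  | [] => ∅
  | p :: L => bpts σ L ∪ σ (p :: L)

/-- `Legal σ L`: every move of Maker in `L` was a new point keeping general position. -/
def Legal (σ : List Pt → Finset Pt) : List Pt → Prop
  | [] => True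
  | p :: L => Legal σ L ∧ p ∉ L.toFinset ∪ bpts σ L ∧ GenPos (insert p (L.toFinset ∪ bpts σ L))

/-- Breaker wins the game with bias `1 : s` for `k`-holes: she has a strategy such that after every
legal move of Maker there is no `k`-hole of Maker's points, and her answer consists of the right
number of new points keeping general position. -/
def BreakerWins (s : ℝ) (k : ℕ) : Prop :=
  ∃ σ : List Pt → Finset Pt, ∀ (p : Pt) (L : List Pt), Legal σ (p :: L) →
    (¬ ∃ H, H ⊆ (p :: L).toFinset ∧ IsHole k ((p :: L).toFinset ∪ bpts σ L) H) ∧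
    (bpts σ (p :: L)).card = ⌊s * ((p :: L).length : ℝ)⌋₊ ∧
    Disjoint (σ (p :: L)) ((p :: L).toFinset ∪ bpts σ L) ∧
    GenPos ((p :: L).toFinset ∪ bpts σ (p :: L))

/-- The least speed `s(k)` with which Breaker wins. -/
noncomputable def speed (k : ℕ) : ℝ := sInf {s : ℝ | 0 < s ∧ BreakerWins s k}

end Pool.Agent.MP_09de6b_co
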