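import Pool.Agent.MP_09de6b_co.Defs

namespace Pool.Agent.MP_09de6b_co

open Set

/-- The determinant of two plane vectors. -/
def cross (u v : Pt) : ℝ := u.1 * v.2 - u.2 * v.1

theorem collinear_iff_cross (a b c : Pt) :
    Collinear ℝ ({a, b, c} : Set Pt) ↔ cross (b - a) (c - a) = 0 := by
  rw [collinear_iff_of_mem (p₀ := a) (by simp)]
  constructor
  · rintro ⟨v, hv⟩
    obtain ⟨r, hr⟩ := hv b (by simp)
    obtain ⟨t, ht⟩ := hv c (by simp)
    rw [hr, ht]
    simp [cross]
    ring
  · intro h
    by_cases hba : b = a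
    · refine ⟨c - a, ?_⟩
      intro p hp
      simp only [mem_insert_iff, mem_singleton_iff] at hp
      rcases hp with rfl | rfl | rfl
      · exact ⟨0, by simp⟩
      · exact ⟨0, by simp [hba]⟩
      · exact ⟨1, by simp⟩
    · refine ⟨b - a, ?_⟩
      intro p hp
      simp only [mem_insert_iff, mem_singleton_iff] at hp
      rcases hp with rfl | rfl | rfl
      · exact ⟨0, by simp⟩
      · exact ⟨1, by simp⟩
      · simp only [cross, Prod.fst_sub, Prod.snd_sub] at h
        by_cases h1 : b.1 - a.1 = 0
        · have h2 : b.2 - a.2 ≠ 0 := by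
            intro h2
            apply hba
            ext <;> linarith
          refine ⟨(p.2 - a.2) / (b.2 - a.2), ?_⟩
          ext
          · simp only [vadd_eq_add, Prod.fst_add, Prod.smul_fst, Prod.fst_sub, smul_eq_mul]
            rw [h1] at h ⊢
            have : p.1 - a.1 = 0 := by
              have : (b.2 - a.2) * (p.1 - a.1) = 0 := by linarith
              rcases mul_eq_zero.1 this with h3 | h3
              · exact absurd h3 h2
              · exact h3
            linarith
          · simp only [vadd_eq_add, Prod.snd_add, Prod.smul_snd, Prod.snd_sub, smul_eq_mul]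
            field_simp
            ring
        · refine ⟨(p.1 - a.1) / (b.1 - a.1), ?_⟩
          ext
          · simp only [vadd_eq_add, Prod.fst_add, Prod.smul_fst, Prod.fst_sub, smul_eq_mul]
            field_simp
            ring
          · simp only [vadd_eq_add, Prod.snd_add, Prod.smul_snd, Prod.snd_sub, smul_eq_mul]
            field_simp
            linarith

theorem GenPos.mono {S T : Finset Pt} (h : GenPos T) (hST : S ⊆ T) : GenPos S :=
  fun a ha b hb c hc => h a (hST ha) b (hST hb) c (hST hc)

theorem GenPos.cross_ne {S : Finset Pt} (h : GenPos S) {a b c : Pt} (ha : a ∈ S) (hb : b ∈ S)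
    (hc : c ∈ S) (hab : a ≠ b) (hac : a ≠ c) (hbc : b ≠ c) : cross (b - a) (c - a) ≠ 0 := by
  rw [Ne, ← collinear_iff_cross]
  exact h a ha b hb c hc hab hac hbc

theorem genPos_insert {S : Finset Pt} (h : GenPos S) {p : Pt}
    (hp : ∀ a ∈ S, ∀ b ∈ S, a ≠ b → cross (b - a) (p - a) ≠ 0) : GenPos (insert p S) := by
  intro a ha b hb c hc hab hac hbc
  rw [collinear_iff_cross]
  rw [Finset.mem_insert] at ha hb hc
  rcases ha with rfl | ha
  · rcases hb with rfl | hb
    · exact absurd rfl hab
    rcases hc with rfl | hc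
    · exact absurd rfl hac
    have := hp b hb c hc hbc
    intro h0
    apply this
    simp only [cross, Prod.fst_sub, Prod.snd_sub] at h0 ⊢
    linarith
  rcases hb with rfl | hb
  · rcases hc with rfl | hc
    · exact absurd rfl hbc
    have := hp a ha c hc hac
    intro h0
    apply this
    simp only [cross, Prod.fst_sub, Prod.snd_sub] at h0 ⊢
    linarith
  rcases hc with rfl | hc
  · exact hp a ha b hb hab
  · exact h.cross_ne ha hb hc hab hac hbc

/-- A parabola arc. -/
def par (z : Pt) (A B C : ℝ) (t : ℝ) : Pt := (z.1 + A * t + B * t ^ 2, z.2 + C * t)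

theorem finite_quad {a b c : ℝ} (h : a ≠ 0 ∨ b ≠ 0) :
    {t : ℝ | a * t ^ 2 + b * t + c = 0}.Finite := by
  have hne : (Polynomial.C a * Polynomial.X ^ 2 + Polynomial.C b * Polynomial.X
      + Polynomial.C c : Polynomial ℝ) ≠ 0 := by
    intro h0
    have h2 := congrArg (fun P => Polynomial.coeff P 2) h0
    have h1 := congrArg (fun P => Polynomial.coeff P 1) h0
    simp [Polynomial.coeff_C] at h1 h2
    rcases h with h | h
    · exact h h2
    · exact h h1
  refine (Polynomial.finite_setOfPred_isRoot hne).subset ?_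
  intro t ht
  simp only [mem_ofPred_eq, Polynomial.IsRoot.def] at ht ⊢
  simp [ht]

theorem finite_line_par (z : Pt) {A B C : ℝ} (hB : B ≠ 0) (hC : C ≠ 0) {a b : Pt} (hab : a ≠ b) :
    {t : ℝ | cross (b - a) (par z A B C t - a) = 0}.Finite := by
  have key : (-(b.2 - a.2) * B ≠ 0) ∨ ((b.1 - a.1) * C - (b.2 - a.2) * A ≠ 0) := by
    by_cases h2 : b.2 - a.2 = 0
    · right
      rw [h2]
      have h1 : b.1 - a.1 ≠ 0 := by
        intro h1
        apply hab
        ext <;> linarith
      simpa using ⟨h1, hC⟩
    · left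
      exact mul_ne_zero (neg_ne_zero.2 h2) hB
  refine (finite_quad (c := (b.1 - a.1) * (z.2 - a.2) - (b.2 - a.2) * (z.1 - a.1)) key).subset ?_
  intro t ht
  simp only [mem_ofPred_eq, cross, par, Prod.fst_sub, Prod.snd_sub] at ht ⊢
  linarith

theorem finite_mem_par (z : Pt) {A B C : ℝ} (hC : C ≠ 0) (S : Finset Pt) :
    {t : ℝ | par z A B C t ∈ S}.Finite := by
  have hinj : Function.Injective (par z A B C) := by
    intro s t hst
    have := congrArg Prod.snd hst
    simp only [par] at this
    have h2 : C * s = C * t := by linarith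
    exact mul_left_cancel₀ hC h2
  exact (S.finite_toSet.preimage hinj.injOn)

/-- Generic parameters: not a point of `S` and not on a line through two points of `S`. -/
def Generic (S : Finset Pt) (p : Pt) : Prop :=
  p ∉ S ∧ ∀ a ∈ S, ∀ b ∈ S, a ≠ b → cross (b - a) (p - a) ≠ 0

theorem finite_not_generic (z : Pt) {A B C : ℝ} (hB : B ≠ 0) (hC : C ≠ 0) (S : Finset Pt) :
    {t : ℝ | ¬ Generic S (par z A B C t)}.Finite := by
  have h1 := finite_mem_par z (A := A) (B := B) hC S
  have h2 : (⋃ a ∈ (S : Set Pt), ⋃ b ∈ (S : Set Pt),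
      {t : ℝ | a ≠ b ∧ cross (b - a) (par z A B C t - a) = 0}).Finite := by
    refine S.finite_toSet.biUnion fun a _ => S.finite_toSet.biUnion fun b _ => ?_
    by_cases hab : a = b
    · simp [hab]
    · exact (finite_line_par z hB hC hab).subset fun t ht => ht.2
  refine (h1.union h2).subset ?_
  intro t ht
  simp only [mem_ofPred_eq, Generic, not_and_or, not_not, not_forall] at ht
  rcases ht with ht | ⟨a, ha, b, hb, hab, ht⟩
  · exact Or.inl ht
  · right
    simp only [mem_iUnion, mem_ofPred_eq]
    exact ⟨a, ha, b, hb, hab, ht⟩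

theorem Generic.genPos {S : Finset Pt} {p : Pt} (h : GenPos S) (hp : Generic S p) :
    GenPos (insert p S) := genPos_insert h hp.2

theorem exists_generic {U : Set Pt} (hU : IsOpen U) (hne : U.Nonempty) (S : Finset Pt) :
    ∃ p ∈ U, Generic S p := by
  obtain ⟨z, hz⟩ := hne
  have hc : Continuous (par z 0 1 1) := by
    unfold par
    fun_prop
  have h0 : par z 0 1 1 0 = z := by simp [par]
  have hopen : IsOpen ((par z 0 1 1) ⁻¹' U) := hU.preimage hc
  have hinf : ((par z 0 1 1) ⁻¹' U).Infinite :=
    infinite_of_mem_nhds 0 (hopen.mem_nhds (by simpa [h0] using hz))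
  obtain ⟨t, ht, ht'⟩ :=
    (hinf.sdiff (finite_not_generic z (A := 0) (B := 1) (C := 1) one_ne_zero one_ne_zero S)).nonempty
  exact ⟨_, ht, not_not.1 ht'⟩

/-- Membership in a triangle from barycentric data. -/
theorem mem_hull_of_bary {K : Set Pt} (hK : Convex ℝ K) {u a q x : Pt} (hu : u ∈ K) (ha : a ∈ K)
    (hq : q ∈ K) {l m : ℝ} (hl : 0 ≤ l) (hm : 0 ≤ m) (hlm : l + m ≤ 1)
    (hx : x = u + l • (a - u) + m • (q - u)) : x ∈ K := by
  have h1 : x = (1 - l - m) • u + l • a + m • q := by
    rw [hx]
    ext <;> simp <;> ring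
  rw [h1]
  have := hK.sum_mem (t := Finset.univ) (w := ![1 - l - m, l, m]) (z := ![u, a, q])
    (by intro i _; fin_cases i <;> simp <;> linarith)
    (by simp [Fin.sum_univ_three]; ring)
    (by intro i _; fin_cases i <;> simp [hu, ha, hq])
  simpa [Fin.sum_univ_three] using this

end Pool.Agent.MP_09de6b_co
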