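import Pool.Agent.MP_09de6b_co.LoCycle

namespace Pool.Agent.MP_09de6b_co

open Set Filter Topology

/-- The point `p` is seen from `arc t` in one of the two windows of the arc point `arc v`. -/
def Hit (w : Pt) (A B ε : ℝ) (p : Pt) (t v : ℝ) : Prop :=
  0 < (hc w ε p - t) * (v - t) ∧ |hc w ε p + dc w A B ε p / (hc w ε p - t) - v| < 1 / 4 ∧
    hc w ε p + dc w A B ε p / (hc w ε p - t) ≠ v

theorem far_apart {x : ℕ → ℝ} {K : ℕ} (hx : ∀ i < K, (i : ℝ) < x i ∧ x i < i + 1 / 4) {i j : ℕ}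
    (hi : i < K) (hj : j < K) (hij : i ≠ j) : 3 / 4 < |x i - x j| := by
  obtain ⟨a1, a2⟩ := hx i hi
  obtain ⟨b1, b2⟩ := hx j hj
  rw [lt_abs]
  rcases lt_or_gt_of_ne hij with h | h
  · have : (i : ℝ) + 1 ≤ j := by exact_mod_cast h
    right; linarith
  · have : (j : ℝ) + 1 ≤ i := by exact_mod_cast h
    left; linarith

theorem hit_of_kill {w : Pt} {A B ε : ℝ} (hε : 0 < ε) (hB : 0 < B) {t v e : ℝ} {p : Pt}
    (he : 0 < e * (v - t)) (h1 : 0 < e * (p - arc w A B ε t).2)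
    (h2 : sl (p - arc w A B ε t) ≠ sl (arc w A B ε v - arc w A B ε t))
    (h3 : |sl (p - arc w A B ε t) - sl (arc w A B ε v - arc w A B ε t)| < B / 4) :
    Hit w A B ε p t v := by
  rw [arc_snd hε.ne'] at h1
  have a1 : 0 < e * (hc w ε p - t) := by
    by_contra hcon
    push Not at hcon
    nlinarith
  have a2 : t ≠ hc w ε p := by rintro rfl; simp at a1
  have a3 : t ≠ hc w ε (arc w A B ε v) := by rw [hc_arc hε.ne']; rintro rfl; simp at he
  rw [arc_sl hε.ne' hB.ne' _ a2, arc_sl hε.ne' hB.ne' _ a3, dc_arc hε.ne' hB.ne', hc_arc hε.ne',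
    zero_div, add_zero] at h2 h3
  refine ⟨?_, ?_, fun h => h2 (by rw [h])⟩
  · have h4 : 0 < e * e := by
      rcases eq_or_ne e 0 with rfl | h
      · simp at he
      · exact mul_self_pos.2 h
    have := mul_pos a1 he
    by_contra hcon
    push Not at hcon
    nlinarith
  · set φ := hc w ε p + dc w A B ε p / (hc w ε p - t)
    rw [show A + B * (t + φ) - (A + B * (t + v)) = B * (φ - v) by ring, abs_mul, abs_of_pos hB] at h3
    nlinarith

namespace Ctx

variable {c : Ctx}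

theorem cycle {n : ℕ} {M S : Finset Pt} (hMS : M ⊆ S) (hS : GenPos S) (h : c.Inv n M S) :
    Force c.D (fun M' S' => Lev c.D (c.l + 1) c.K M' S' ∨ c.Inv (n + 1) M' S') c.K M S := by
  classical
  obtain ⟨hM₀, w, X, Φ, e, C, hB, hwS, hX, hF, hn, hΦ, hO⟩ := h
  have hβ := c.β_pos
  have hΓ : 0 < c.Γ := by unfold Γ; positivity
  have hΓ' : c.Γ = (2 * c.K + 2) * c.β := rfl
  have hT : 3 * (c.K * (n + 1)) ≤ 3 * TT c.K := by
    have h1 := Finset.card_le_univ Φ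
    simp only [Fintype.card_prod, Fintype.card_fin, Fintype.card_bool] at h1
    unfold TT
    gcongr
    nlinarith
  have hT' : X.card ≤ 3 * TT c.K := by nlinarith
  by_cases hall : ∀ g : Fin c.K, ∃ i ∈ Φ, i.1 = g
  · refine Force.of (Or.inl (hB.finish hwS hF hT' hM₀ (s' := c.s) hΓ fun g hg => ?_))
    obtain ⟨i, hi, h1⟩ := hall ⟨g, hg⟩
    have := hΦ i hi
    rw [h1] at this
    exact ⟨e i, C i, this⟩
  push Not at hall
  obtain ⟨g, hg⟩ := hall
  choose J hJ1 hJ2 hJ3 using fun e => hB.alive hwS hF hM₀ e (Finset.range (NN c.K))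
    fun m hm => Finset.mem_range.1 hm
  have hQ : ∀ᶠ w' in 𝓝 w, c.Base w' ∧ (∀ e, ∀ m ∈ J e,
      Chip c.D (sg e) (c.s + m * c.lam) (c.s + (m + 1) * c.lam) M S w' (c.A e m)) ∧
      (∀ i ∈ Φ, Chip c.D (sg (e i)) (c.s + i.1 * c.Γ) (c.s + (i.1 + 1) * c.Γ) M S w' (C i)) ∧
      ∀ i ∈ Φ, ∀ j ∈ Φ, i ≠ j → Ord w' (C i) (C j) ∨ Ord w' (C j) (C i) := by
    refine hB.eventually.and (Eventually.and ?_ (Eventually.and ?_ ?_))
    · exact eventually_all.2 fun e => (eventually_all_finset _).2 fun m hm => (hJ3 e m hm).eventually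
    · exact (eventually_all_finset _).2 fun i hi => (hΦ i hi).1.eventually
    · refine (eventually_all_finset _).2 fun i hi => (eventually_all_finset _).2 fun j hj => ?_
      by_cases hij : i = j
      · exact Eventually.of_forall fun _ h => absurd hij h
      have a1 : ∀ x ∈ C i, 0 < sg (e i) * (x - w).2 := fun x hx => ((hΦ i hi).1.2.2.1 x hx).1
      have a2 : ∀ x ∈ C j, 0 < sg (e j) * (x - w).2 := fun x hx => ((hΦ j hj).1.2.2.1 x hx).1
      rcases hO i hi j hj hij with h | h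
      · exact (h.eventually a1 a2).mono fun w' h _ => Or.inl h
      · exact (h.eventually a2 a1).mono fun w' h _ => Or.inr h
  set A₀ := c.s + g * c.Γ + 2 * c.β with hA₀
  obtain ⟨U, ε, hU, hUQ, hε, hγ⟩ := exists_arc hQ A₀ c.β (c.K + 1) (by positivity)
  have hpl := force_placed hε.ne' hβ.ne' (fun x hx => (hUQ _ (hγ x hx)).1.1) hMS hS c.K le_rfl
  have := Force.bind (m := 0)
    (Q := fun M' S' => Lev c.D (c.l + 1) c.K M' S' ∨ c.Inv (n + 1) M' S') ?_ hMS hS hpl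
  · rwa [zero_add] at this
  rintro M' S' hMS' hS' ⟨hMM', x, X', hX', hx, hnew⟩
  change Lev c.D (c.l + 1) c.K M' S' ∨ c.Inv (n + 1) M' S'
  set γ := arc w A₀ c.β ε with hγdef
  have hx' : ∀ i < c.K, (i : ℝ) < x i ∧ x i < i + 1 / 4 := fun i hi => ⟨(hx i hi).1, (hx i hi).2.1⟩
  have hxr : ∀ i < c.K, 0 < x i ∧ x i < c.K - 3 / 4 := by
    intro i hi
    have a1 : (i : ℝ) + 1 ≤ c.K := by exact_mod_cast hi
    have a2 : (0 : ℝ) ≤ i := by positivity
    constructor <;> linarith [hx' i hi]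
  have hγU : ∀ t : ℝ, -1 < t → t < c.K → γ t ∈ U := fun t h1 h2 =>
    hγ t (by rw [abs_le]; constructor <;> linarith [show (0 : ℝ) ≤ c.K by positivity])
  have hgK : (g : ℝ) + 1 ≤ c.K := by exact_mod_cast g.2
  have hg0 : (0 : ℝ) ≤ g := by positivity
  have hfew : c.Few S' (X ∪ X' ∪ (Finset.range c.K).image fun i => γ (x i)) := by
    intro p hp hpD
    simp only [Finset.mem_union, Finset.mem_image, Finset.mem_range]
    rcases hnew p hp hpD with h | h | ⟨i, hi, h⟩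
    · exact (hF p h hpD).imp_right fun h => Or.inl (Or.inl h)
    · exact Or.inr (Or.inl (Or.inr h))
    · exact Or.inr (Or.inr ⟨i, hi, h.symm⟩)
  have hcard : (X ∪ X' ∪ (Finset.range c.K).image fun i => γ (x i)).card ≤ 3 * (c.K * (n + 1)) := by
    have a1 := Finset.card_union_le (X ∪ X') ((Finset.range c.K).image fun i => γ (x i))
    have a2 := Finset.card_union_le X X'
    have a3 := Finset.card_image_le (s := Finset.range c.K) (f := fun i => γ (x i))
    rw [Finset.card_range] at a3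
    rw [mul_add]
    omega
  have hyhit : ∀ i < c.K, ∀ j < c.K, ∀ t, ¬ Hit w A₀ c.β ε (γ (x i)) t (x j) := by
    rintro i hi j hj t ⟨-, a2, a3⟩
    rw [hγdef, dc_arc hε.ne' hβ.ne', hc_arc hε.ne', zero_div, add_zero] at a2 a3
    linarith [far_apart hx' hi hj fun h => a3 (by rw [h])]
  have hsl : ∀ t, Generic S' (γ t) → ∀ j < c.K, t ≠ x j ∧
      sl (γ (x j) - γ t) = A₀ + c.β * (t + x j) := by
    intro t ht j hj
    have a1 : t ≠ x j := fun h => ht.1 (h ▸ hMS' (hx j hj).2.2)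
    refine ⟨a1, ?_⟩
    rw [hγdef, arc_sl hε.ne' hβ.ne' _ (by rwa [hc_arc hε.ne']), dc_arc hε.ne' hβ.ne', hc_arc hε.ne',
      zero_div, add_zero]
  have hnewc : ∀ t : ℝ, -1 < t → t < c.K → Generic S' (γ t) →
      ∃ (e' : Fin c.K → Bool) (C' : Fin c.K → Bool → Finset Pt), ∀ j σ,
        Chip c.D (sg (e' j)) (A₀ + c.β * (t - 1 / 4) + j * c.β)
          (A₀ + c.β * (t - 1 / 4) + (j + 1) * c.β) M' S (γ t) (C' j σ) ∧
        c.Part (A₀ + c.β * (t - 1 / 4) + j * c.β) (A₀ + c.β * (t - 1 / 4) + (j + 1) * c.β) (e' j)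
          (C' j σ).card ∧
        (∀ z ∈ C' j σ, z = γ (x j) ∨ 0 < sg σ * (sl (z - γ t) - sl (γ (x j) - γ t))) ∧
        ∀ p ∈ S', Kill (γ t) (C' j σ) p → p ∈ X' ∧ Hit w A₀ c.β ε p t (x j) := by
    intro t ht1 ht2 ht
    have hs : ∀ j : Fin c.K, 0 < sg (decide (t < x j)) * (x j - t) := by
      intro j
      rcases lt_or_gt_of_ne (hsl t ht j j.2).1 with h | h
      · simp [sg, h]
      · simpa [sg, h.not_gt] using h
    have hpro := fun (j : Fin c.K) (σ : Bool) => promote hU (M' := M') (J (decide (t < x j)))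
      (decide (t < x j)) (hJ1 _) (by have := hJ2 (decide (t < x j)); rw [Finset.card_range] at this; omega)
      (fun w' hw' => (hUQ w' hw').2.1 _) (hγU t ht1 ht2)
      (hγU (x j) (by linarith [hxr j j.2]) (by linarith [hxr j j.2]))
      (hUQ _ (hγU (x j) (by linarith [hxr j j.2]) (by linarith [hxr j j.2]))).1.1 (hx j j.2).2.2 hMM'
      (by rw [hγdef, arc_snd hε.ne', hc_arc hε.ne']; nlinarith [hs j])
      (a := A₀ + c.β * (t - 1 / 4) + j * c.β) (b := A₀ + c.β * (t - 1 / 4) + (j + 1) * c.β)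
      (by rw [(hsl t ht j j.2).2]; nlinarith [hx' j j.2])
      (by rw [(hsl t ht j j.2).2]; nlinarith [hx' j j.2])
      (by have : (0 : ℝ) ≤ j := by positivity
          nlinarith)
      (by have : (j : ℝ) + 1 ≤ c.K := by exact_mod_cast j.2
          rw [NN_lam]; nlinarith) σ
    choose C' h1 h2 h3 using hpro
    refine ⟨fun j => decide (t < x j), C', fun j σ => ⟨h1 j σ, h2 j σ,
      fun z hz => (h3 j σ z hz).imp_right fun h => h.1, fun p hp hk => ?_⟩⟩
    obtain ⟨a1, a2, a3⟩ := kill_window ht ((h1 j σ).1.trans hMS') hp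
      (fun z hz => ((h1 j σ).2.2.1 z hz).1) (h3 j σ) hk
    have hit := hit_of_kill hε hβ (hs j) a1 a2 a3
    refine ⟨?_, hit⟩
    rcases hnew p hp (hk.mem c.hD (hUQ _ (hγU t ht1 ht2)).1.1 (h1 j σ).2.1) with h | h | ⟨i, hi, h⟩
    · exact absurd hk ((h1 j σ).2.2.2 p h)
    · exact h
    · exact absurd (h ▸ hit) (hyhit i hi j j.2 t)
  by_cases hhit : ∃ b ∈ X', ∃ t : ℝ, -1 < t ∧ t < c.K ∧ ∃ j < c.K, Hit w A₀ c.β ε b t (x j)
  swap
  · push Not at hhit
    left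
    obtain ⟨t, ⟨ht1, ht2⟩, ht⟩ := exists_generic_arc (w := w) (A := A₀) hε.ne' hβ.ne' S'
      (Ioo_infinite (show (-1 : ℝ) < c.K by linarith))
    obtain ⟨e', C', hC'⟩ := hnewc t ht1 ht2 ht
    refine (hUQ _ (hγU t ht1 ht2)).1.finish ht.1 hfew (hcard.trans hT) (hM₀.trans hMM')
      (s' := A₀ + c.β * (t - 1 / 4)) hβ fun j hj => ?_
    obtain ⟨a1, a2, -, a4⟩ := hC' ⟨j, hj⟩ true
    exact ⟨_, _, ⟨a1.1, a1.2.1, a1.2.2.1, fun p hp hk =>
      hhit p (a4 p hp hk).1 t ht1 ht2 j hj (a4 p hp hk).2⟩, a2⟩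
  right
  obtain ⟨b, hb, t₀, ht₀, ht₀', j₀, hj₀, k1, k2, k3⟩ := hhit
  obtain ⟨t, ⟨ht1, ht2, ht3, ht4, ht5⟩, ht⟩ := exists_generic_arc (w := w) (A := A₀) hε.ne' hβ.ne' S'
    (dodge ht₀ ht₀' (by linarith [hxr j₀ hj₀]) (by linarith [hxr j₀ hj₀]) k1 k2 k3)
  obtain ⟨e', C', hC'⟩ := hnewc t ht1 ht2 ht
  obtain ⟨q1, -, q3, q4⟩ := hUQ _ (hγU t ht1 ht2)
  have hbno : ∀ j < c.K, ¬ Hit w A₀ c.β ε b t (x j) := by
    rintro j hj ⟨a1, a2, -⟩
    by_cases hjj : j = j₀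
    · rw [hjj] at a1 a2
      rcases ht5 with h | h <;> linarith
    · have a3 := far_apart hx' hj hj₀ hjj
      have a4 := abs_sub_le (x j) (hc w ε b + dc w A₀ c.β ε b / (hc w ε b - t)) (x j₀)
      rw [abs_sub_comm (x j) (hc w ε b + dc w A₀ c.β ε b / (hc w ε b - t))] at a4
      linarith
  have hzone : ∀ p : Pt, c.s + g * c.Γ < sl (p - γ t) → sl (p - γ t) < c.s + (g + 1) * c.Γ →
      p ∈ S' → ∀ i ∈ Φ, ¬ Kill (γ t) (C i) p := by
    intro p a1 a2 hp i hi hk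
    have a3 := hk.cone (q3 i hi).2.2.1 (fun h => ht.1 (by rw [← hγdef, ← h]; exact hp))
    rcases lt_or_gt_of_ne (hg i hi) with h | h
    · have : (i.1 : ℝ) + 1 ≤ g := by exact_mod_cast h
      nlinarith [a3.2.2]
    · have : (g : ℝ) + 1 ≤ i.1 := by exact_mod_cast h
      nlinarith [a3.2.1]
  let e'' : Fin c.K × Fin c.K × Bool → Bool := fun i => if i.1 = g then e' i.2.1 else e i
  let C'' : Fin c.K × Fin c.K × Bool → Finset Pt := fun i => if i.1 = g then C' i.2.1 i.2.2 else C i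
  let Φ' : Finset (Fin c.K × Fin c.K × Bool) := Φ ∪ {g} ×ˢ Finset.univ
  have hΦ' : ∀ i ∈ Φ', i.1 = g ∨ (i.1 ≠ g ∧ i ∈ Φ) := by
    intro i hi
    rcases Finset.mem_union.1 hi with h | h
    · exact Or.inr ⟨hg i h, h⟩
    · exact Or.inl (Finset.mem_singleton.1 (Finset.mem_product.1 h).1)
  have hcardΦ : Φ'.card = Φ.card + 2 * c.K := by
    rw [Finset.card_union_of_disjoint]
    · simp [mul_comm]
    · rw [Finset.disjoint_left]
      intro i hi hi'
      exact hg i hi (Finset.mem_singleton.1 (Finset.mem_product.1 hi').1)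
  have hpre : ∀ i ∈ Φ',
      Chip c.D (sg (e'' i)) (c.s + i.1 * c.Γ) (c.s + (i.1 + 1) * c.Γ) M' S (γ t) (C'' i) ∧
      c.Part (c.s + i.1 * c.Γ) (c.s + (i.1 + 1) * c.Γ) (e'' i) (C'' i).card ∧
      ∀ p ∈ S', Kill (γ t) (C'' i) p → p ∈ X'.erase b := by
    intro i hi
    rcases hΦ' i hi with h | ⟨h, h'⟩
    · simp only [e'', C'', if_pos h]
      obtain ⟨a1, a2, -, a4⟩ := hC' i.2.1 i.2.2
      have b0 : (0 : ℝ) ≤ i.2.1 := by positivity
      have b1 : (i.2.1 : ℝ) + 1 ≤ c.K := by exact_mod_cast i.2.1.2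
      have b2 : c.s + i.1 * c.Γ ≤ A₀ + c.β * (t - 1 / 4) + i.2.1 * c.β := by rw [h]; nlinarith
      have b3 : A₀ + c.β * (t - 1 / 4) + (i.2.1 + 1) * c.β ≤ c.s + (i.1 + 1) * c.Γ := by
        rw [h]; nlinarith
      refine ⟨a1.mono b2 b3 subset_rfl, a2.mono b2 b3, fun p hp hk => ?_⟩
      refine Finset.mem_erase.2 ⟨?_, (a4 p hp hk).1⟩
      rintro rfl
      exact hbno _ i.2.1.2 (a4 p hp hk).2
    · simp only [e'', C'', if_neg h]
      refine ⟨(q3 i h').mono le_rfl le_rfl hMM', (hΦ i h').2, fun p hp hk => ?_⟩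
      rcases hnew p hp (hk.mem c.hD q1.1 (q3 i h').2.1) with h1 | h1 | ⟨j, hj, h1⟩
      · exact absurd hk ((q3 i h').2.2.2 p h1)
      · refine Finset.mem_erase.2 ⟨?_, h1⟩
        rintro rfl
        rw [abs_lt] at ht4
        refine hzone p ?_ ?_ hp i h' hk
        · rw [hγdef, arc_sl hε.ne' hβ.ne' _ ht3]; nlinarith [hxr j₀ hj₀]
        · rw [hγdef, arc_sl hε.ne' hβ.ne' _ ht3]; nlinarith [hxr j₀ hj₀]
      · refine absurd hk (hzone p ?_ ?_ hp i h')
        · rw [h1, (hsl t ht j hj).2]; nlinarith [hxr j hj]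
        · rw [h1, (hsl t ht j hj).2]; nlinarith [hxr j hj]
  have hord : ∀ i ∈ Φ', ∀ j ∈ Φ', i ≠ j →
      Ord (γ t) (C'' i) (C'' j) ∨ Ord (γ t) (C'' j) (C'' i) := by
    intro i hi j hj hij
    rcases lt_trichotomy i.1 j.1 with h | h | h
    · have : (i.1 : ℝ) + 1 ≤ j.1 := by exact_mod_cast h
      exact Or.inl (ord_of_cone (hpre i hi).1.2.2.1 (hpre j hj).1.2.2.1 (by nlinarith))
    swap
    · have : (j.1 : ℝ) + 1 ≤ i.1 := by exact_mod_cast h
      exact Or.inr (ord_of_cone (hpre j hj).1.2.2.1 (hpre i hi).1.2.2.1 (by nlinarith))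
    rcases hΦ' i hi with h1 | ⟨h1, h1'⟩
    · have h2 : j.1 = g := h ▸ h1
      simp only [C'', if_pos h1, if_pos h2]
      rcases lt_trichotomy i.2.1 j.2.1 with h3 | h3 | h3
      · have : (i.2.1 : ℝ) + 1 ≤ j.2.1 := by exact_mod_cast h3
        exact Or.inl (ord_of_cone (hC' _ _).1.2.2.1 (hC' _ _).1.2.2.1 (by nlinarith))
      swap
      · have : (j.2.1 : ℝ) + 1 ≤ i.2.1 := by exact_mod_cast h3
        exact Or.inr (ord_of_cone (hC' _ _).1.2.2.1 (hC' _ _).1.2.2.1 (by nlinarith))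
      have h4 : i.2.2 ≠ j.2.2 := fun h4 => hij (Prod.ext h (Prod.ext h3 h4))
      have key : Ord (γ t) (C' i.2.1 false) (C' i.2.1 true) := by
        intro z hz z' hz'
        have a1 := (hC' i.2.1 false).2.2.1 z hz
        have a2 := (hC' i.2.1 true).2.2.1 z' hz'
        simp only [sg, Bool.false_eq_true, if_false, if_true] at a1 a2
        rcases a1 with a1 | a1 <;> rcases a2 with a2 | a2
        · exact Or.inl (a1.trans a2.symm)
        · right; rw [a1]; linarith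
        · right; rw [a2]; linarith
        · right; linarith
      rw [← h3]
      revert h4
      cases i.2.2 <;> cases j.2.2 <;> simp [key]
    · have h2 : j.1 ≠ g := h ▸ h1
      simp only [C'', if_neg h1, if_neg h2]
      exact q4 i h1' j (((hΦ' j hj).resolve_left h2).2) hij
  obtain ⟨Ψ, p1, p2, p3⟩ := card_killed_le Φ' (X'.erase b)
    (fun i p => p ∈ S' ∧ Kill (γ t) (C'' i) p) (by
      rintro i hi j hj p - ⟨a1, a2⟩ ⟨-, a3⟩
      by_contra hij
      have b1 := (hpre i hi).1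
      have b2 := (hpre j hj).1
      rcases hord i hi j hj hij with h | h
      · exact h.not_kill ht (b1.1.trans hMS') (b2.1.trans hMS') a1 (fun z hz => (b1.2.2.1 z hz).1)
          (fun z hz => (b2.2.2.1 z hz).1) a2 a3
      · exact h.not_kill ht (b2.1.trans hMS') (b1.1.trans hMS') a1 (fun z hz => (b2.2.2.1 z hz).1)
          (fun z hz => (b1.2.2.1 z hz).1) a3 a2)
  refine ⟨hM₀.trans hMM', γ t, _, Ψ, e'', C'', q1, ht.1, hcard, hfew, ?_, fun i hi => ?_,
    fun i hi j hj => hord i (p1 hi) j (p1 hj)⟩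
  · rw [Finset.card_erase_of_mem hb, hcardΦ] at p2
    have := Finset.card_pos.2 ⟨b, hb⟩
    omega
  · obtain ⟨a1, a2, a3⟩ := hpre i (p1 hi)
    exact ⟨⟨a1.1, a1.2.1, a1.2.2.1, fun p hp hk => p3 i hi p (a3 p hp hk) ⟨hp, hk⟩⟩, a2⟩

theorem phase_aux (r : ℕ) : ∀ n, n + r = 2 * c.K * c.K + 1 → ∀ M S, M ⊆ S → GenPos S → c.Inv n M S →
    Force c.D (Lev c.D (c.l + 1) c.K) (c.K * r) M S := by
  induction r with
  | zero =>
    rintro n hn M S - - ⟨-, w, X, Φ, e, C, -, -, -, -, h, -⟩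
    have h1 := Finset.card_le_univ Φ
    simp only [Fintype.card_prod, Fintype.card_fin, Fintype.card_bool] at h1
    exfalso
    nlinarith
  | succ r ih =>
    intro n hn M S h1 h2 h3
    rw [mul_add, mul_one]
    refine Force.bind ?_ h1 h2 (cycle h1 h2 h3)
    rintro M' S' a1 a2 (a3 | a3)
    · exact Force.of a3
    · exact ih (n + 1) (by omega) M' S' a1 a2 a3

end Ctx

theorem phase {D : Set Pt} (hD : Convex ℝ D) (hDo : IsOpen D) {l K : ℕ} {M S : Finset Pt}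
    (hMS : M ⊆ S) (hS : GenPos S) (h : Lev D l (NN K) M S) :
    Force D (Lev D (l + 1) K) (TT K) M S := by
  obtain ⟨w, s, lam, A, h1, h2, h3, h4⟩ := h
  let c : Ctx := ⟨D, l, K, s, lam, A, M, S, hD, hDo, h3, fun m hm e => (h4 m hm e).2⟩
  exact Ctx.phase_aux (c := c) _ 0 (zero_add _) M S hMS hS
    ⟨subset_rfl, w, ∅, ∅, fun _ => true, fun _ => ∅, ⟨h1, fun m hm e => (h4 m hm e).1⟩, h2,
      by simp, fun p hp _ => Or.inl hp, by simp, by simp, by simp⟩

theorem force_lev (l : ℕ) : ∀ K, ∃ T, ∀ D : Set Pt, IsOpen D → Convex ℝ D → D.Nonempty →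
    ∀ M S : Finset Pt, M ⊆ S → GenPos S → Force D (Lev D l K) T M S := by
  induction l with
  | zero => exact fun K => ⟨0, fun D h1 _ h3 M S _ _ => lev_zero h1 h3 K M S⟩
  | succ l ih =>
    intro K
    obtain ⟨T, hT⟩ := ih (NN K)
    exact ⟨TT K + T, fun D h1 h2 h3 M S h4 h5 =>
      Force.bind (fun M' S' a1 a2 a3 => phase h2 h1 a1 a2 a3) h4 h5 (hT D h1 h2 h3 M S h4 h5)⟩

theorem maker_wins {s : ℝ} (hs : 0 ≤ s) (hs3 : s < 3) {k : ℕ} (hk : 1 ≤ k) :
    ¬ BreakerWins s k := by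
  obtain ⟨T, hT⟩ := force_lev (2 * k) 1
  refine not_breakerWins_of_force hs hs3 hk (0 + T) fun D h1 h2 h3 M S h4 h5 => ?_
  exact Force.bind (m := 0) (fun M' S' a1 _ a3 => a3.goal a1) h4 h5 (hT D h1 h2 h3 M S h4 h5)

end Pool.Agent.MP_09de6b_co
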