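import Pool.Agent.MP_09de6b_co.Upper4
import Pool.Agent.MP_09de6b_co.Lower3

namespace Pool.Agent.MP_09de6b_co

open Set Filter Topology

theorem IsHole.erase {k : ℕ} {S H : Finset Pt} (h : IsHole (k + 1) S H) :
    ∃ H' ⊆ H, IsHole k S H' := by
  obtain ⟨h1, h2, h3, h4⟩ := h
  obtain ⟨H', a1, a2⟩ := Finset.exists_subset_card_eq (s := H) (n := k) (by omega)
  have key : ∀ x ∈ H, x ∉ convexHull ℝ ((H' : Set Pt) \ {x}) := fun x hx hx' =>
    h3 x hx (convexHull_mono (sdiff_subset_sdiff_left a1) hx')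
  refine ⟨H', a1, a1.trans h1, a2, fun x hx => key x (a1 hx), Subset.antisymm ?_ ?_⟩
  · intro x hx
    have hxH : x ∈ (H : Set Pt) := by
      rw [← h4]
      exact ⟨convexHull_mono a1 hx.1, hx.2⟩
    by_contra hx'
    apply key x hxH
    rw [sdiff_singleton_eq_self hx']
    exact hx.1
  · intro x hx
    exact ⟨subset_convexHull ℝ _ hx, h1 (a1 hx)⟩

theorem BreakerWins.succ {s : ℝ} {k : ℕ} (h : BreakerWins s k) : BreakerWins s (k + 1) := by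
  obtain ⟨σ, hσ⟩ := h
  refine ⟨σ, fun p L hL => ⟨?_, (hσ p L hL).2⟩⟩
  rintro ⟨H, h1, h2⟩
  obtain ⟨H', a1, a2⟩ := h2.erase
  exact (hσ p L hL).1 ⟨H', a1.trans h1, a2⟩

theorem bddBelow_speed (k : ℕ) : BddBelow {s : ℝ | 0 < s ∧ BreakerWins s k} :=
  ⟨0, fun _ hs => hs.1.le⟩

theorem speed_mem {k : ℕ} (hk : 8 ≤ k) : 3 ≤ speed k ∧ speed k ≤ 4 := by
  have h4 : (4 : ℝ) ∈ {s : ℝ | 0 < s ∧ BreakerWins s k} :=
    ⟨by norm_num, breaker_wins 4 le_rfl k hk⟩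
  refine ⟨le_csInf ⟨4, h4⟩ fun s hs => ?_, csInf_le (bddBelow_speed k) h4⟩
  by_contra hcon
  exact maker_wins hs.1.le (not_le.1 hcon) (by omega) hs.2

theorem speed_succ_le {k : ℕ} (hk : 8 ≤ k) : speed (k + 1) ≤ speed k :=
  csInf_le_csInf (bddBelow_speed _) ⟨4, by norm_num, breaker_wins 4 le_rfl k hk⟩
    fun _ hs => ⟨hs.1, hs.2.succ⟩

theorem exists_limit : ∃ l : ℝ, 3 ≤ l ∧ l ≤ 4 ∧ Tendsto speed atTop (𝓝 l) := by
  have hanti : Antitone fun n => speed (n + 8) :=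
    antitone_nat_of_succ_le fun n => by
      rw [add_right_comm]; exact speed_succ_le (by omega)
  have hb : BddBelow (range fun n => speed (n + 8)) :=
    ⟨3, by rintro _ ⟨n, rfl⟩; exact (speed_mem (by omega)).1⟩
  have ht := tendsto_atTop_ciInf hanti hb
  refine ⟨_, ge_of_tendsto' ht fun n => (speed_mem (by omega)).1,
    le_of_tendsto' ht fun n => (speed_mem (by omega)).2, (tendsto_add_atTop_iff_nat 8).1 ht⟩

theorem bounds :
    (∀ (k : ℕ) (s : ℝ), 3 ≤ k → 0 < s → s < 3 → ¬ BreakerWins s k) ∧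
    (∀ (k : ℕ) (s : ℝ), 8 ≤ k → 4 ≤ s → BreakerWins s k) ∧
    (∀ k : ℕ, 8 ≤ k → 3 ≤ speed k ∧ speed k ≤ 4) ∧
    ∃ l : ℝ, 3 ≤ l ∧ l ≤ 4 ∧ Tendsto speed atTop (𝓝 l) :=
  ⟨fun _ _ h1 h2 h3 => maker_wins h2.le h3 (by omega), fun k s h1 h2 => breaker_wins s h2 k h1,
    fun _ => speed_mem, exists_limit⟩

end Pool.Agent.MP_09de6b_co
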