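import Pool.Agent.MP_09de6b_co.LoChip

namespace Pool.Agent.MP_09de6b_co

open Set Filter Topology

/-- A small parabola arc through `w`. -/
def arc (w : Pt) (A B ε : ℝ) (x : ℝ) : Pt := par w (ε * A) (ε * B) ε x

/-- First arc coordinate. -/
noncomputable def hc (w : Pt) (ε : ℝ) (p : Pt) : ℝ := (p.2 - w.2) / ε

/-- Second arc coordinate. -/
noncomputable def dc (w : Pt) (A B ε : ℝ) (p : Pt) : ℝ :=
  ((p.1 - w.1) / ε - A * hc w ε p) / B - hc w ε p ^ 2

variable {w : Pt} {A B ε : ℝ}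

theorem arc_snd (hε : ε ≠ 0) (p : Pt) (x : ℝ) : (p - arc w A B ε x).2 = ε * (hc w ε p - x) := by
  simp only [arc, par, hc, Prod.snd_sub]
  field_simp
  ring

theorem arc_sl (hε : ε ≠ 0) (hB : B ≠ 0) (p : Pt) {x : ℝ} (hx : x ≠ hc w ε p) :
    sl (p - arc w A B ε x) = A + B * (x + (hc w ε p + dc w A B ε p / (hc w ε p - x))) := by
  have h1 : hc w ε p - x ≠ 0 := sub_ne_zero.2 hx.symm
  unfold sl
  rw [arc_snd hε, dc]
  generalize hc w ε p = h at h1 ⊢
  simp only [arc, par, Prod.fst_sub]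
  field_simp
  ring

theorem hc_arc (hε : ε ≠ 0) (x : ℝ) : hc w ε (arc w A B ε x) = x := by
  simp only [arc, par, hc]
  field_simp
  ring

theorem dc_arc (hε : ε ≠ 0) (hB : B ≠ 0) (x : ℝ) : dc w A B ε (arc w A B ε x) = 0 := by
  rw [dc, hc_arc hε]
  simp only [arc, par]
  field_simp
  ring

theorem exists_arc {Q : Pt → Prop} (h : ∀ᶠ w' in 𝓝 w, Q w') (A B R : ℝ) (hR : 0 < R) :
    ∃ (U : Set Pt) (ε : ℝ), Convex ℝ U ∧ (∀ w' ∈ U, Q w') ∧ 0 < ε ∧
      ∀ x, |x| ≤ R → arc w A B ε x ∈ U := by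
  obtain ⟨r, hr, h1⟩ := Metric.eventually_nhds_iff_ball.1 h
  set G := |A| * R + |B| * R ^ 2 + R with hG
  have hG0 : 0 < G := by positivity
  refine ⟨Metric.ball w r, r / (G + 1), convex_ball _ _, h1, by positivity, fun x hx => ?_⟩
  have hε : 0 < r / (G + 1) := by positivity
  have key : r / (G + 1) * G < r := by
    rw [div_mul_eq_mul_div, div_lt_iff₀ (by positivity)]
    nlinarith
  have a1 : |A * x| ≤ |A| * R := by rw [abs_mul]; gcongr
  have a2 : |B * x ^ 2| ≤ |B| * R ^ 2 := by rw [abs_mul, abs_pow]; gcongr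
  have a3 := abs_add_le (A * x) (B * x ^ 2)
  have a4 : 0 ≤ |A| * R + |B| * R ^ 2 := by positivity
  rw [Metric.mem_ball, Prod.dist_eq, max_lt_iff, Real.dist_eq, Real.dist_eq]
  simp only [arc, par]
  constructor
  · rw [show w.1 + r / (G + 1) * A * x + r / (G + 1) * B * x ^ 2 - w.1 =
      r / (G + 1) * (A * x + B * x ^ 2) by ring, abs_mul, abs_of_pos hε]
    refine lt_of_le_of_lt ?_ key
    gcongr
    linarith
  · rw [add_sub_cancel_left, abs_mul, abs_of_pos hε]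
    refine lt_of_le_of_lt ?_ key
    gcongr
    linarith

theorem exists_generic_arc (hε : ε ≠ 0) (hB : B ≠ 0) (S : Finset Pt) {Z : Set ℝ}
    (hZ : Z.Infinite) : ∃ x ∈ Z, Generic S (arc w A B ε x) := by
  obtain ⟨t, ht, ht'⟩ := (hZ.sdiff (finite_not_generic w (A := ε * A) (B := ε * B) (C := ε)
    (mul_ne_zero hε hB) hε S)).nonempty
  exact ⟨t, ht, not_not.1 ht'⟩

/-- The position after `j` points were placed on the arc `γ`. -/
def Placed (D : Set Pt) (γ : ℝ → Pt) (M S : Finset Pt) (j : ℕ) (M' S' : Finset Pt) : Prop :=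
  M ⊆ M' ∧ ∃ (x : ℕ → ℝ) (X : Finset Pt), X.card ≤ 2 * j ∧
    (∀ i < j, (i : ℝ) < x i ∧ x i < i + 1 / 4 ∧ γ (x i) ∈ M') ∧
    ∀ p ∈ S', p ∈ D → p ∈ S ∨ p ∈ X ∨ ∃ i < j, p = γ (x i)

theorem force_placed {D : Set Pt} (hε : ε ≠ 0) (hB : B ≠ 0) {K : ℕ}
    (hD : ∀ x : ℝ, |x| ≤ K + 1 → arc w A B ε x ∈ D) {M S : Finset Pt} (hMS : M ⊆ S) (hS : GenPos S)
    (j : ℕ) (hj : j ≤ K) : Force D (Placed D (arc w A B ε) M S j) j M S := by
  induction j with
  | zero => exact ⟨subset_rfl, fun _ => 0, ∅, by simp, by simp, fun p hp _ => Or.inl hp⟩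
  | succ j ih =>
    rw [add_comm]
    refine Force.bind ?_ hMS hS (ih (by omega))
    rintro M₁ S₁ h1 h2 ⟨h3, x, X, h4, h5, h6⟩
    obtain ⟨t, ⟨ht1, ht2⟩, ht3⟩ := exists_generic_arc (w := w) (A := A) hε hB S₁
      (Ioo_infinite (show (j : ℝ) < j + 1 / 4 by linarith))
    have hjK : (j : ℝ) + 1 ≤ K := by exact_mod_cast hj
    have hj0 : (0 : ℝ) ≤ j := by positivity
    refine Or.inr ⟨_, hD t (by rw [abs_le]; constructor <;> linarith), ht3.1, ht3.genPos h2, ?_⟩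
    intro M' S' Y a1 a2 a3 a4 a5 a6
    refine ⟨h3.trans ((Finset.subset_insert _ _).trans a1), Function.update x j t, X ∪ Y,
      (Finset.card_union_le _ _).trans (by omega), ?_, ?_⟩
    · intro i hi
      by_cases hij : i = j
      · rw [hij, Function.update_self]
        exact ⟨ht1, ht2, a1 (Finset.mem_insert_self _ _)⟩
      · rw [Function.update_of_ne hij]
        obtain ⟨b1, b2, b3⟩ := h5 i (by omega)
        exact ⟨b1, b2, a1 (Finset.mem_insert_of_mem b3)⟩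
    · intro p hp hpD
      rcases a6 p hp hpD with h | h
      · rcases Finset.mem_insert.1 h with h | h
        · exact Or.inr (Or.inr ⟨j, by omega, by rw [Function.update_self]; exact h⟩)
        · rcases h6 p h hpD with h | h | ⟨i, hi, h⟩
          · exact Or.inl h
          · exact Or.inr (Or.inl (Finset.mem_union_left _ h))
          · exact Or.inr (Or.inr ⟨i, by omega, by rw [Function.update_of_ne hi.ne]; exact h⟩)
      · exact Or.inr (Or.inl (Finset.mem_union_right _ h))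

theorem exists_window {s lam u : ℝ} (hlam : 0 < lam) (W N : ℕ) (h1 : s ≤ u)
    (h2 : u + (W + 1) * lam ≤ s + N * lam) :
    ∃ P : Finset ℕ, P.card = W ∧ ∀ m ∈ P, m < N ∧ u ≤ s + m * lam ∧
      s + (m + 1) * lam ≤ u + (W + 1) * lam := by
  set m₀ := ⌈(u - s) / lam⌉₊ with hm₀
  have a1 : (u - s) / lam ≤ m₀ := Nat.le_ceil _
  have a2 : (m₀ : ℝ) < (u - s) / lam + 1 := Nat.ceil_lt_add_one (div_nonneg (by linarith) hlam.le)
  rw [div_le_iff₀ hlam] at a1
  rw [← sub_lt_iff_lt_add, lt_div_iff₀ hlam] at a2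
  refine ⟨Finset.Ico m₀ (m₀ + W), by simp, fun m hm => ?_⟩
  rw [Finset.mem_Ico] at hm
  have b1 : (m₀ : ℝ) ≤ m := by exact_mod_cast hm.1
  have b2 : (m : ℝ) + 1 ≤ m₀ + W := by exact_mod_cast hm.2
  have b3 : s + (m + 1) * lam ≤ u + (W + 1) * lam := by nlinarith
  refine ⟨?_, by nlinarith, b3⟩
  have : (m : ℝ) < N := by
    by_contra hcon
    push Not at hcon
    nlinarith
  exact_mod_cast this

/-- The sign of an orientation. -/
def sg (e : Bool) : ℝ := if e then 1 else -1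

/-- `N` consecutive slots, each with an upper and a lower chip of total size at least `l`. -/
def Lev (D : Set Pt) (l N : ℕ) (M S : Finset Pt) : Prop :=
  ∃ (w : Pt) (s lam : ℝ) (A : Bool → ℕ → Finset Pt), w ∈ D ∧ w ∉ S ∧ 0 < lam ∧ ∀ m < N, ∀ e,
    Chip D (sg e) (s + m * lam) (s + (m + 1) * lam) M S w (A e m) ∧
      l ≤ (A e m).card + (A (!e) m).card

theorem lev_zero {D : Set Pt} (hD : IsOpen D) (hne : D.Nonempty) (N : ℕ) (M S : Finset Pt) :
    Lev D 0 N M S := by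
  obtain ⟨w, h1, h2⟩ := exists_generic hD hne S
  refine ⟨w, 0, 1, fun _ _ => ∅, h1, h2.1, one_pos, fun m _ e => ⟨⟨by simp, by simp, by simp, ?_⟩,
    by simp⟩⟩
  intro p hp hk
  simp only [Kill, Finset.coe_empty, empty_sdiff, insert_empty_eq, convexHull_singleton,
    mem_singleton_iff] at hk
  exact h2.1 (hk ▸ hp)

theorem Lev.goal {D : Set Pt} {k : ℕ} {M S : Finset Pt} (h : Lev D (2 * k) 1 M S) (hMS : M ⊆ S) :
    Goal k M S := by
  obtain ⟨w, s, lam, A, -, -, -, h⟩ := h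
  obtain ⟨h1, h2⟩ := h 0 one_pos true
  obtain ⟨h3, -⟩ := h 0 one_pos (!true)
  rcases le_or_gt k (A true 0).card with h4 | h4
  · exact h1.goal hMS h4
  · exact h3.goal hMS (by omega)

end Pool.Agent.MP_09de6b_co
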