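import Pool.Agent.MP_09de6b_co.LoForce

namespace Pool.Agent.MP_09de6b_co

open Set Filter Topology

/-- The inverse slope of a vector. -/
noncomputable def sl (v : Pt) : ℝ := v.1 / v.2

theorem hull_pos {a b : ℝ} {C : Set Pt} {w p : Pt}
    (hC : ∀ c ∈ C, 0 < a * (c - w).1 + b * (c - w).2) (hp : p ∈ convexHull ℝ (insert w C))
    (hpw : p ≠ w) : 0 < a * (p - w).1 + b * (p - w).2 := by
  have hconv : Convex ℝ {x : Pt | x = w ∨ 0 < a * (x - w).1 + b * (x - w).2} := by
    intro x hx y hy l m hl hm hlm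
    simp only [mem_ofPred_eq, Prod.fst_sub, Prod.snd_sub, Prod.fst_add, Prod.snd_add,
      Prod.smul_fst, Prod.smul_snd, smul_eq_mul] at hx hy ⊢
    have e : a * (l * x.1 + m * y.1 - w.1) + b * (l * x.2 + m * y.2 - w.2) =
        l * (a * (x.1 - w.1) + b * (x.2 - w.2)) + m * (a * (y.1 - w.1) + b * (y.2 - w.2)) := by
      have : m = 1 - l := by linarith
      rw [this]; ring
    rw [e]
    rcases hx with rfl | hx <;> rcases hy with rfl | hy
    · left; rw [← add_smul, hlm, one_smul]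
    · rcases hm.eq_or_lt with rfl | hm
      · left; rw [add_zero] at hlm; simp [hlm]
      · right; simp; positivity
    · rcases hl.eq_or_lt with rfl | hl
      · left; rw [zero_add] at hlm; simp [hlm]
      · right; simp; positivity
    · right
      rcases hl.eq_or_lt with rfl | hl
      · rw [zero_add] at hlm; simpa [hlm] using hy
      · positivity
  have := convexHull_min (s := insert w C) (by
    intro x hx
    rcases hx with rfl | hx
    · exact Or.inl rfl
    · exact Or.inr (hC x hx)) hconv hp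
  exact this.resolve_left hpw

theorem sl_sub {e a : ℝ} {v : Pt} (h : 0 < e * v.2) :
    sl v - a = (e * v.1 + -(a * e) * v.2) / (e * v.2) := by
  have h1 : e ≠ 0 := by rintro rfl; simp at h
  have h2 : v.2 ≠ 0 := by intro h2; rw [h2] at h; simp at h
  unfold sl
  field_simp
  ring

theorem between {e : ℝ} {C : Set Pt} {w p : Pt} (hC : ∀ c ∈ C, 0 < e * (c - w).2)
    (hp : p ∈ convexHull ℝ (insert w C)) (hpw : p ≠ w) :
    0 < e * (p - w).2 ∧ (∃ c ∈ C, sl (c - w) ≤ sl (p - w)) ∧ ∃ c ∈ C, sl (p - w) ≤ sl (c - w) := by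
  have h0 : 0 < e * (p - w).2 := by
    simpa using hull_pos (a := 0) (b := e) (by simpa using hC) hp hpw
  have hz := sl_sub (a := sl (p - w)) h0
  rw [sub_self, eq_comm, div_eq_zero_iff] at hz
  have hz := hz.resolve_right h0.ne'
  refine ⟨h0, ?_, ?_⟩
  · by_contra hcon
    push Not at hcon
    have := hull_pos (a := e) (b := -(sl (p - w) * e)) (fun c hc => by
      have h1 := sub_pos.2 (hcon c hc)
      rw [sl_sub (hC c hc)] at h1
      exact (div_pos_iff_of_pos_right (hC c hc)).1 h1) hp hpw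
    linarith
  · by_contra hcon
    push Not at hcon
    have := hull_pos (a := -e) (b := sl (p - w) * e) (fun c hc => by
      have h1 := sub_neg.2 (hcon c hc)
      rw [sl_sub (hC c hc), div_neg_iff] at h1
      rcases h1 with h1 | h1
      · linarith [hC c hc, h1.2]
      · linarith [h1.1]) hp hpw
    linarith

theorem Generic.sl_ne {S : Finset Pt} {w p c : Pt} (h : Generic S w) (hp : p ∈ S) (hc : c ∈ S)
    (hcp : c ≠ p) {e : ℝ} (h1 : 0 < e * (c - w).2) (h2 : 0 < e * (p - w).2) :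
    sl (c - w) ≠ sl (p - w) := by
  intro h0
  have a1 : (c - w).2 ≠ 0 := by intro h2; rw [h2] at h1; simp at h1
  have a2 : (p - w).2 ≠ 0 := by intro h3; rw [h3] at h2; simp at h2
  unfold sl at h0
  rw [div_eq_div_iff a1 a2] at h0
  apply h.2 c hc p hp hcp
  simp only [cross, Prod.fst_sub, Prod.snd_sub] at h0 ⊢
  linarith

theorem between_gen {e : ℝ} {S C : Finset Pt} {w p : Pt} (hw : Generic S w) (hCS : C ⊆ S)
    (hpS : p ∈ S) (hC : ∀ c ∈ C, 0 < e * (c - w).2)
    (hp : p ∈ convexHull ℝ (insert w ((C : Set Pt) \ {p}))) :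
    0 < e * (p - w).2 ∧ (∃ c ∈ C, sl (c - w) < sl (p - w)) ∧ ∃ c ∈ C, sl (p - w) < sl (c - w) := by
  obtain ⟨h1, ⟨c, hc, h2⟩, ⟨c', hc', h3⟩⟩ := between (e := e) (fun c hc => hC c hc.1) hp
    (fun h => hw.1 (h ▸ hpS))
  exact ⟨h1, ⟨c, hc.1, lt_of_le_of_ne h2 (hw.sl_ne hpS (hCS hc.1) hc.2 (hC c hc.1) h1)⟩,
    ⟨c', hc'.1, lt_of_le_of_ne h3 (hw.sl_ne hpS (hCS hc'.1) hc'.2 (hC c' hc'.1) h1).symm⟩⟩

/-- An open cone of directions. -/
def Cone (e a b : ℝ) (v : Pt) : Prop := 0 < e * v.2 ∧ a < sl v ∧ sl v < b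

theorem Cone.mono {e a b a' b' : ℝ} {v : Pt} (h : Cone e a b v) (ha : a' ≤ a) (hb : b ≤ b') :
    Cone e a' b' v := ⟨h.1, ha.trans_lt h.2.1, h.2.2.trans_le hb⟩

theorem hull_cone {e a b : ℝ} {C : Set Pt} {w p : Pt} (hC : ∀ c ∈ C, Cone e a b (c - w))
    (hp : p ∈ convexHull ℝ (insert w C)) (hpw : p ≠ w) : Cone e a b (p - w) := by
  obtain ⟨h1, ⟨c, hc, h2⟩, ⟨c', hc', h3⟩⟩ := between (e := e) (fun c hc => (hC c hc).1) hp hpw
  exact ⟨h1, (hC c hc).2.1.trans_le h2, h3.trans_lt (hC c' hc').2.2⟩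

/-- `p` spoils the polygon formed by `C` and the apex `w`. -/
def Kill (w : Pt) (C : Finset Pt) (p : Pt) : Prop :=
  p ∈ convexHull ℝ (insert w ((C : Set Pt) \ {p}))

/-- A set of Maker points forming with the apex `w` an empty convex polygon in a cone. -/
def Chip (D : Set Pt) (e a b : ℝ) (M S : Finset Pt) (w : Pt) (C : Finset Pt) : Prop :=
  C ⊆ M ∧ (C : Set Pt) ⊆ D ∧ (∀ c ∈ C, Cone e a b (c - w)) ∧ ∀ p ∈ S, ¬ Kill w C p

theorem Kill.mem {D : Set Pt} (hD : Convex ℝ D) {w p : Pt} {C : Finset Pt} (hw : w ∈ D)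
    (hC : (C : Set Pt) ⊆ D) (h : Kill w C p) : p ∈ D :=
  convexHull_min (insert_subset hw (sdiff_subset.trans hC)) hD h

theorem Kill.cone {e a b : ℝ} {w p : Pt} {C : Finset Pt} (hC : ∀ c ∈ C, Cone e a b (c - w))
    (h : Kill w C p) (hpw : p ≠ w) : Cone e a b (p - w) :=
  hull_cone (fun c hc => hC c hc.1) h hpw

theorem continuousAt_sl {c w : Pt} {e : ℝ} (h : 0 < e * (c - w).2) :
    ContinuousAt (fun w' => sl (c - w')) w := by
  have a1 : (c - w).2 ≠ 0 := by intro h2; rw [h2] at h; simp at h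
  unfold sl
  exact ContinuousAt.div (by fun_prop) (by fun_prop) a1

theorem Cone.eventually {e a b : ℝ} {c w : Pt} (h : Cone e a b (c - w)) :
    ∀ᶠ w' in 𝓝 w, Cone e a b (c - w') := by
  have h1 : ContinuousAt (fun w' : Pt => e * (c - w').2) w := by fun_prop
  have h2 := continuousAt_sl h.1
  filter_upwards [h1.eventually (lt_mem_nhds h.1), h2.eventually (lt_mem_nhds h.2.1),
    h2.eventually (gt_mem_nhds h.2.2)] with w' a1 a2 a3
  exact ⟨a1, a2, a3⟩

theorem not_kill_eventually {w p : Pt} {C : Finset Pt} (h : ¬ Kill w C p) :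
    ∀ᶠ w' in 𝓝 w, ¬ Kill w' C p := by
  have hfin : (insert w ((C : Set Pt) \ {p})).Finite := (C.finite_toSet.sdiff).insert w
  obtain ⟨f, u, h1, h2⟩ := geometric_hahn_banach_closed_point (convex_convexHull ℝ _)
    (hfin.isCompact_convexHull (𝕜 := ℝ)).isClosed h
  have h3 : f w < u := h1 w (subset_convexHull ℝ _ (mem_insert _ _))
  filter_upwards [f.continuous.continuousAt.eventually (gt_mem_nhds h3)] with w' hw' hk
  have : convexHull ℝ (insert w' ((C : Set Pt) \ {p})) ⊆ {x | f x < u} := by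
    refine convexHull_min ?_ (convex_halfSpace_lt f.toLinearMap.isLinear u)
    intro x hx
    rcases hx with rfl | hx
    · exact hw'
    · exact h1 x (subset_convexHull ℝ _ (mem_insert_of_mem _ hx))
  have := this hk
  simp only [mem_ofPred_eq] at this
  linarith

theorem Chip.eventually {D : Set Pt} {e a b : ℝ} {M S : Finset Pt} {w : Pt} {C : Finset Pt}
    (h : Chip D e a b M S w C) : ∀ᶠ w' in 𝓝 w, Chip D e a b M S w' C := by
  have h1 : ∀ᶠ w' in 𝓝 w, ∀ c ∈ C, Cone e a b (c - w') :=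
    (eventually_all_finset C).2 fun c hc => (h.2.2.1 c hc).eventually
  have h2 : ∀ᶠ w' in 𝓝 w, ∀ p ∈ S, ¬ Kill w' C p :=
    (eventually_all_finset S).2 fun p hp => not_kill_eventually (h.2.2.2 p hp)
  filter_upwards [h1, h2] with w' a1 a2
  exact ⟨h.1, h.2.1, a1, a2⟩

theorem Chip.mono {D : Set Pt} {e a b a' b' : ℝ} {M S M' : Finset Pt} {w : Pt} {C : Finset Pt}
    (h : Chip D e a b M S w C) (ha : a' ≤ a) (hb : b ≤ b') (hM : M ⊆ M') :
    Chip D e a' b' M' S w C :=
  ⟨h.1.trans hM, h.2.1, fun c hc => (h.2.2.1 c hc).mono ha hb, h.2.2.2⟩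

theorem Chip.goal {D : Set Pt} {e a b : ℝ} {M S : Finset Pt} {w : Pt} {C : Finset Pt}
    (h : Chip D e a b M S w C) (hMS : M ⊆ S) {k : ℕ} (hk : k ≤ C.card) : Goal k M S := by
  obtain ⟨H, h1, h2⟩ := Finset.exists_subset_card_eq hk
  have key : ∀ p ∈ S, p ∉ convexHull ℝ ((H : Set Pt) \ {p}) := by
    intro p hp hp'
    refine h.2.2.2 p hp (convexHull_mono ?_ hp')
    exact fun x hx => mem_insert_of_mem _ ⟨h1 hx.1, hx.2⟩
  have hHS : H ⊆ S := h1.trans (h.1.trans hMS)
  refine ⟨H, h1.trans h.1, hHS, h2, fun x hx => key x (hHS hx), Subset.antisymm ?_ ?_⟩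
  · intro x hx
    by_contra hxH
    apply key x hx.2
    rw [sdiff_singleton_eq_self hxH]
    exact hx.1
  · intro x hx
    exact ⟨subset_convexHull ℝ _ hx, hHS hx⟩

theorem hull_segment {w y p : Pt} {F : Set Pt} (h : p ∈ convexHull ℝ (insert w (insert y F))) :
    ∃ w' ∈ segment ℝ w y, p ∈ convexHull ℝ (insert w' F) := by
  rcases F.eq_empty_or_nonempty with rfl | hF
  · refine ⟨p, ?_, subset_convexHull ℝ _ (mem_insert _ _)⟩
    rwa [insert_empty_eq, convexHull_pair] at h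
  · have : insert w (insert y F) = {w, y} ∪ F := by ext; simp [or_assoc]
    rw [this, convexHull_union (insert_nonempty _ _) hF, convexHull_pair, mem_convexJoin] at h
    obtain ⟨w', h1, f, h2, h3⟩ := h
    refine ⟨w', h1, (convex_convexHull ℝ _).segment_subset
      (subset_convexHull ℝ _ (mem_insert _ _)) (convexHull_mono (subset_insert _ _) h2) h3⟩

theorem not_kill_insert {w y p : Pt} {C : Finset Pt} (h : ∀ w' ∈ segment ℝ w y, ¬ Kill w' C p) :
    ¬ Kill w (insert y C) p := by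
  intro hk
  have : p ∈ convexHull ℝ (insert w (insert y ((C : Set Pt) \ {p}))) := by
    refine convexHull_mono ?_ hk
    intro x hx
    simp only [Finset.coe_insert, mem_insert_iff, Set.mem_sdiff, mem_singleton_iff] at hx ⊢
    tauto
  obtain ⟨w', h1, h2⟩ := hull_segment this
  exact h w' h1 h2

/-- Two polygons seen in order from `w`. -/
def Ord (w : Pt) (C C' : Finset Pt) : Prop :=
  ∀ c ∈ C, ∀ c' ∈ C', c = c' ∨ sl (c - w) < sl (c' - w)

theorem Ord.eventually {w : Pt} {C C' : Finset Pt} (h : Ord w C C') {e e' : ℝ}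
    (h1 : ∀ c ∈ C, 0 < e * (c - w).2) (h2 : ∀ c ∈ C', 0 < e' * (c - w).2) :
    ∀ᶠ w' in 𝓝 w, Ord w' C C' := by
  refine (eventually_all_finset C).2 fun c hc => (eventually_all_finset C').2 fun c' hc' => ?_
  rcases h c hc c' hc' with h0 | h0
  · exact Eventually.of_forall fun _ => Or.inl h0
  · filter_upwards [(continuousAt_sl (h1 c hc)).eventually_lt (continuousAt_sl (h2 c' hc')) h0]
      with w' hw' using Or.inr hw'

theorem Ord.not_kill {S C C' : Finset Pt} {w p : Pt} (h : Ord w C C') (hw : Generic S w)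
    (hC : C ⊆ S) (hC' : C' ⊆ S) (hp : p ∈ S) {e e' : ℝ} (h1 : ∀ c ∈ C, 0 < e * (c - w).2)
    (h2 : ∀ c ∈ C', 0 < e' * (c - w).2) (k1 : Kill w C p) (k2 : Kill w C' p) : False := by
  obtain ⟨-, -, c, hc, a1⟩ := between_gen hw hC hp h1 k1
  obtain ⟨-, ⟨c', hc', a2⟩, -⟩ := between_gen hw hC' hp h2 k2
  rcases h c hc c' hc' with h0 | h0
  · rw [h0] at a1; linarith
  · linarith

theorem ord_of_cone {w : Pt} {C C' : Finset Pt} {e e' a b a' b' : ℝ}
    (h1 : ∀ c ∈ C, Cone e a b (c - w)) (h2 : ∀ c ∈ C', Cone e' a' b' (c - w)) (h : b ≤ a') :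
    Ord w C C' :=
  fun c hc c' hc' => Or.inr (by linarith [(h1 c hc).2.2, (h2 c' hc').2.1])

theorem card_killed_le {ι : Type} [DecidableEq ι] (I : Finset ι) (X : Finset Pt)
    (K : ι → Pt → Prop) (h : ∀ i ∈ I, ∀ j ∈ I, ∀ p ∈ X, K i p → K j p → i = j) :
    ∃ J ⊆ I, I.card ≤ J.card + X.card ∧ ∀ i ∈ J, ∀ p ∈ X, ¬ K i p := by
  classical
  refine ⟨I.filter fun i => ∀ p ∈ X, ¬ K i p, Finset.filter_subset _ _, ?_,
    fun i hi => (Finset.mem_filter.1 hi).2⟩
  rw [← Finset.card_filter_add_card_filter_not (s := I) (fun i => ∀ p ∈ X, ¬ K i p)]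
  have hex : ∀ i, ∃ p : Pt, i ∈ I.filter (fun i => ¬ ∀ p ∈ X, ¬ K i p) → p ∈ X ∧ K i p := by
    intro i
    by_cases hi : i ∈ I.filter (fun i => ¬ ∀ p ∈ X, ¬ K i p)
    · have := (Finset.mem_filter.1 hi).2
      push Not at this
      obtain ⟨p, hp⟩ := this
      exact ⟨p, fun _ => hp⟩
    · exact ⟨0, fun h => absurd h hi⟩
  choose f hf using hex
  have : (I.filter fun i => ¬ ∀ p ∈ X, ¬ K i p).card ≤ X.card := by
    refine Finset.card_le_card_of_injOn f (fun i hi => (hf i hi).1) ?_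
    intro i hi j hj hij
    exact h i (Finset.mem_filter.1 hi).1 j (Finset.mem_filter.1 hj).1 (f i) (hf i hi).1 (hf i hi).2
      (hij ▸ (hf j hj).2)
  omega

theorem infinite_of_nhds {Z : Set ℝ} {x : ℝ} (h : ∀ᶠ y in 𝓝[>] x, y ∈ Z) : Z.Infinite := by
  obtain ⟨u, hu, h1⟩ := (mem_nhdsGT_iff_exists_Ioo_subset).1 h
  exact (Ioo_infinite hu).mono h1

theorem dodge_up {h d c lo hi x₀ : ℝ} (hx : lo < x₀) (hc : c < hi) (h0 : x₀ < h) (h0' : x₀ < c)
    (h1 : |h + d / (h - x₀) - c| < 1 / 4) (h2 : h + d / (h - x₀) ≠ c) :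
    {x | lo < x ∧ x < hi ∧ x ≠ h ∧ |h + d / (h - x) - c| < 1 / 2 ∧
      (1 / 4 < |h + d / (h - x) - c| ∨ (h - x) * (c - x) < 0)}.Infinite := by
  set ψ : ℝ → ℝ := fun x => |h + d / (h - x) - c| with hψ
  have hcont : ∀ x, x < h → ContinuousAt ψ x := by
    intro x hx
    have : h - x ≠ 0 := by linarith
    simp only [hψ]
    fun_prop (disch := assumption)
  have ivt : ∀ x₁, x₀ ≤ x₁ → x₁ < h → x₁ ≤ c → 1 / 2 ≤ ψ x₁ →
      {x | lo < x ∧ x < hi ∧ x ≠ h ∧ ψ x < 1 / 2 ∧
        (1 / 4 < ψ x ∨ (h - x) * (c - x) < 0)}.Infinite := by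
    intro x₁ a1 a2 a3 a4
    obtain ⟨x, ⟨b1, b2⟩, b3⟩ := intermediate_value_Icc a1 (f := ψ)
      (fun x hx => (hcont x (by linarith [hx.2])).continuousWithinAt)
      (show (3 / 8 : ℝ) ∈ Icc (ψ x₀) (ψ x₁) from ⟨by simp only [hψ]; linarith, by linarith⟩)
    apply infinite_of_nhds (x := x)
    have c1 := hcont x (by linarith)
    filter_upwards [self_mem_nhdsWithin,
      nhdsWithin_le_nhds (gt_mem_nhds (show x < hi by linarith)),
      nhdsWithin_le_nhds (gt_mem_nhds (show x < h by linarith)),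
      nhdsWithin_le_nhds (c1.eventually (gt_mem_nhds (show ψ x < 1 / 2 by linarith))),
      nhdsWithin_le_nhds (c1.eventually (lt_mem_nhds (show 1 / 4 < ψ x by linarith)))]
      with y y1 y2 y3 y4 y5
    exact ⟨by linarith [mem_Ioi.1 y1], y2, ne_of_lt y3, y4, Or.inl y5⟩
  change {x | lo < x ∧ x < hi ∧ x ≠ h ∧ ψ x < 1 / 2 ∧
        (1 / 4 < ψ x ∨ (h - x) * (c - x) < 0)}.Infinite
  rcases lt_or_ge c h with hch | hch
  · rcases lt_or_ge (ψ c) (1 / 2) with h3 | h3
    · apply infinite_of_nhds (x := c)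
      filter_upwards [self_mem_nhdsWithin, nhdsWithin_le_nhds (gt_mem_nhds hc),
        nhdsWithin_le_nhds (gt_mem_nhds hch),
        nhdsWithin_le_nhds ((hcont c hch).eventually (gt_mem_nhds h3))] with y y1 y2 y3 y4
      have y1 := mem_Ioi.1 y1
      exact ⟨by linarith, y2, ne_of_lt y3, y4, Or.inr (by nlinarith)⟩
    · exact ivt c h0'.le hch le_rfl h3
  · by_cases hd : d = 0
    · subst hd
      simp only [zero_div, add_zero] at h1 h2
      have h3 : h < c := lt_of_le_of_ne hch h2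
      apply infinite_of_nhds (x := h)
      filter_upwards [self_mem_nhdsWithin, nhdsWithin_le_nhds (gt_mem_nhds h3)] with y y1 y2
      have y1 := mem_Ioi.1 y1
      exact ⟨by linarith, by linarith, ne_of_gt y1, by simp only [hψ, zero_div, add_zero]; linarith,
        Or.inr (by nlinarith)⟩
    · have hd' : 0 < |d| := abs_pos.2 hd
      set R := |h - c| + 1 with hR
      have hR0 : 0 < R := by positivity
      set δ := min (h - x₀) (|d| / R) with hδ
      have hδ0 : 0 < δ := lt_min (by linarith) (by positivity)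
      have hδ1 : δ ≤ h - x₀ := min_le_left _ _
      have hδ2 : δ ≤ |d| / R := min_le_right _ _
      refine ivt (h - δ) (by linarith) (by linarith) (by linarith) ?_
      simp only [hψ, sub_sub_cancel]
      have e1 : R ≤ |d / δ| := by
        rw [abs_div, abs_of_pos hδ0, le_div_iff₀ hδ0]
        rw [le_div_iff₀ hR0] at hδ2
        linarith
      have e2 := abs_sub (h + d / δ - c) (h - c)
      rw [show h + d / δ - c - (h - c) = d / δ by ring] at e2
      linarith

theorem dodge {h d c lo hi x₀ : ℝ} (hx : lo < x₀) (hx' : x₀ < hi) (hc : lo < c) (hc' : c < hi)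
    (h0 : 0 < (h - x₀) * (c - x₀))
    (h1 : |h + d / (h - x₀) - c| < 1 / 4) (h2 : h + d / (h - x₀) ≠ c) :
    {x | lo < x ∧ x < hi ∧ x ≠ h ∧ |h + d / (h - x) - c| < 1 / 2 ∧
      (1 / 4 < |h + d / (h - x) - c| ∨ (h - x) * (c - x) < 0)}.Infinite := by
  rcases mul_pos_iff.1 h0 with ⟨a1, a2⟩ | ⟨a1, a2⟩
  · exact dodge_up hx hc' (by linarith) (by linarith) h1 h2
  · have e : ∀ x, -h + d / (-h - -x) - -c = -(h + d / (h - x) - c) := by
      intro x
      rw [show -h - -x = -(h - x) by ring, div_neg]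
      ring
    have := dodge_up (h := -h) (d := d) (c := -c) (lo := -hi) (hi := -lo) (x₀ := -x₀)
      (by linarith) (by linarith) (by linarith) (by linarith) (by rw [e, abs_neg]; exact h1)
      (by intro h3; apply h2; have := e x₀; linarith)
    refine Infinite.of_image (fun x => -x) (this.mono ?_)
    rintro x ⟨b1, b2, b3, b4, b5⟩
    have e' := e (-x)
    rw [neg_neg] at e'
    rw [e', abs_neg] at b4 b5
    refine ⟨-x, ⟨by linarith, by linarith, fun h3 => b3 (by linarith), b4, b5.imp_right ?_⟩,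
      neg_neg x⟩
    intro h3
    nlinarith

end Pool.Agent.MP_09de6b_co
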