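import Pool.Agent.MP_09de6b_co.LoArc

namespace Pool.Agent.MP_09de6b_co

open Set Filter Topology

/-- The number of moves in one phase. -/
def TT (K : ℕ) : ℕ := K * (2 * K * K + 1)

/-- The number of old slots used in one phase. -/
def NN (K : ℕ) : ℕ := K * ((2 * K + 2) * (4 * (6 * TT K + 2)))

/-- The data fixed during one phase. -/
structure Ctx where
  D : Set Pt
  l : ℕ
  K : ℕ
  s : ℝ
  lam : ℝ
  A : Bool → ℕ → Finset Pt
  M₀ : Finset Pt
  S₀ : Finset Pt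
  hD : Convex ℝ D
  hDo : IsOpen D
  hlam : 0 < lam
  hl : ∀ m < NN K, ∀ e, l ≤ (A e m).card + (A (!e) m).card

namespace Ctx

variable (c : Ctx)

/-- The width of a new slot. -/
noncomputable def β : ℝ := 4 * (6 * TT c.K + 2) * c.lam

/-- The width of a group. -/
noncomputable def Γ : ℝ := (2 * c.K + 2) * c.β

theorem β_pos : 0 < c.β := by
  have := c.hlam
  unfold β
  positivity

theorem NN_lam : (NN c.K : ℝ) * c.lam = c.K * c.Γ := by
  unfold NN Γ β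
  push_cast
  ring

/-- All old chips are valid at `w` with respect to the old points. -/
def Base (w : Pt) : Prop :=
  w ∈ c.D ∧ ∀ m < NN c.K, ∀ e,
    Chip c.D (sg e) (c.s + m * c.lam) (c.s + (m + 1) * c.lam) c.M₀ c.S₀ w (c.A e m)

/-- Many old slots can serve as partners. -/
def Part (a b : ℝ) (e : Bool) (n : ℕ) : Prop :=
  ∃ P : Finset ℕ, 3 * TT c.K < P.card ∧ ∀ m ∈ P, m < NN c.K ∧ a ≤ c.s + m * c.lam ∧
    c.s + (m + 1) * c.lam ≤ b ∧ c.l + 1 ≤ n + (c.A (!e) m).card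

/-- The new points in the region lie in `X`. -/
def Few (S X : Finset Pt) : Prop := ∀ p ∈ S, p ∈ c.D → p ∈ c.S₀ ∨ p ∈ X

variable {c}

theorem Part.mono {a b a' b' : ℝ} {e : Bool} {n : ℕ} (h : c.Part a b e n) (ha : a' ≤ a)
    (hb : b ≤ b') : c.Part a' b' e n := by
  obtain ⟨P, h1, h2⟩ := h
  exact ⟨P, h1, fun m hm => ⟨(h2 m hm).1, ha.trans (h2 m hm).2.1, (h2 m hm).2.2.1.trans hb,
    (h2 m hm).2.2.2⟩⟩

theorem Base.eventually {w : Pt} (h : c.Base w) : ∀ᶠ w' in 𝓝 w, c.Base w' := by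
  have h1 : ∀ᶠ w' in 𝓝 w, ∀ m ∈ Finset.range (NN c.K), ∀ e,
      Chip c.D (sg e) (c.s + m * c.lam) (c.s + (m + 1) * c.lam) c.M₀ c.S₀ w' (c.A e m) :=
    (eventually_all_finset _).2 fun m hm => eventually_all.2 fun e =>
      (h.2 m (Finset.mem_range.1 hm) e).eventually
  filter_upwards [h1, c.hDo.mem_nhds h.1] with w' a1 a2
  exact ⟨a2, fun m hm => a1 m (Finset.mem_range.2 hm)⟩

theorem Base.alive {w : Pt} (h : c.Base w) {M S X : Finset Pt} (hw : w ∉ S) (hX : c.Few S X)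
    (hM : c.M₀ ⊆ M) (e : Bool) (P : Finset ℕ) (hP : ∀ m ∈ P, m < NN c.K) :
    ∃ J ⊆ P, P.card ≤ J.card + X.card ∧ ∀ m ∈ J,
      Chip c.D (sg e) (c.s + m * c.lam) (c.s + (m + 1) * c.lam) M S w (c.A e m) := by
  obtain ⟨J, h1, h2, h3⟩ := card_killed_le P X (fun m p => p ∈ S ∧ Kill w (c.A e m) p) (by
    rintro i hi j hj p - ⟨a1, a2⟩ ⟨-, a3⟩
    have hpw : p ≠ w := fun h => hw (h ▸ a1)
    have b1 := a2.cone (h.2 i (hP i hi) e).2.2.1 hpw
    have b2 := a3.cone (h.2 j (hP j hj) e).2.2.1 hpw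
    have := c.hlam
    have c1 : (i : ℝ) < j + 1 := by
      by_contra hcon
      push Not at hcon
      nlinarith [b1.2.1, b2.2.2]
    have c2 : (j : ℝ) < i + 1 := by
      by_contra hcon
      push Not at hcon
      nlinarith [b2.2.1, b1.2.2]
    have c3 : i < j + 1 := by exact_mod_cast c1
    have c4 : j < i + 1 := by exact_mod_cast c2
    omega)
  refine ⟨J, h1, h2, fun m hm => ?_⟩
  obtain ⟨a1, a2, a3, a4⟩ := h.2 m (hP m (h1 hm)) e
  refine ⟨a1.trans hM, a2, a3, fun p hp hk => ?_⟩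
  rcases hX p hp (hk.mem c.hD h.1 a2) with h4 | h4
  · exact a4 p h4 hk
  · exact h3 m hm p h4 ⟨hp, hk⟩

theorem Base.finish {w : Pt} (h : c.Base w) {M S X : Finset Pt} (hw : w ∉ S) (hX : c.Few S X)
    (hX' : X.card ≤ 3 * TT c.K) (hM : c.M₀ ⊆ M) {s' lam' : ℝ} (hlam' : 0 < lam')
    (hA : ∀ g < c.K, ∃ e C, Chip c.D (sg e) (s' + g * lam') (s' + (g + 1) * lam') M S w C ∧
      c.Part (s' + g * lam') (s' + (g + 1) * lam') e C.card) : Lev c.D (c.l + 1) c.K M S := by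
  have key : ∀ g : ℕ, ∃ A' : Bool → Finset Pt, g < c.K → ∀ e,
      Chip c.D (sg e) (s' + g * lam') (s' + (g + 1) * lam') M S w (A' e) ∧
        c.l + 1 ≤ (A' e).card + (A' (!e)).card := by
    intro g
    by_cases hg : g < c.K
    · obtain ⟨e, C, h1, P, h2, h3⟩ := hA g hg
      obtain ⟨J, a1, a2, a3⟩ := h.alive hw hX hM (!e) P fun m hm => (h3 m hm).1
      obtain ⟨m, hm⟩ : J.Nonempty := Finset.card_pos.1 (by omega)
      obtain ⟨b1, b2, b3, b4⟩ := h3 m (a1 hm)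
      have b5 := (a3 m hm).mono b2 b3 subset_rfl
      refine ⟨fun e' => if e' = e then C else c.A (!e) m, fun _ e' => ?_⟩
      cases e <;> cases e' <;> simp only [Bool.not_true, Bool.not_false] at b4 b5 ⊢ <;>
        simp <;> first | exact ⟨h1, b4⟩ | exact ⟨b5, by omega⟩
    · exact ⟨fun _ => ∅, fun h => absurd h hg⟩
  choose A' hA' using key
  exact ⟨w, s', lam', fun e g => A' g e, h.1, hw, hlam', fun g hg e => hA' g hg e⟩

theorem promote {U : Set Pt} (hU : Convex ℝ U) {M S M' : Finset Pt} (J : Finset ℕ) (e : Bool)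
    (hJ : J ⊆ Finset.range (NN c.K)) (hJ' : NN c.K ≤ J.card + 3 * TT c.K)
    (hal : ∀ w' ∈ U, ∀ m ∈ J,
      Chip c.D (sg e) (c.s + m * c.lam) (c.s + (m + 1) * c.lam) M S w' (c.A e m))
    {w y : Pt} (hw : w ∈ U) (hy : y ∈ U) (hyD : y ∈ c.D) (hyM : y ∈ M') (hM : M ⊆ M')
    (he : 0 < sg e * (y - w).2) {a b : ℝ} (ha : a ≤ sl (y - w) - c.β / 4)
    (hb : sl (y - w) + c.β / 4 ≤ b) (ha' : c.s ≤ a) (hb' : b ≤ c.s + NN c.K * c.lam) (σ : Bool) :
    ∃ C : Finset Pt, Chip c.D (sg e) a b M' S w C ∧ c.Part a b e C.card ∧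
      ∀ x ∈ C, x = y ∨ (0 < sg σ * (sl (x - w) - sl (y - w)) ∧
        sg σ * (sl (x - w) - sl (y - w)) < c.β / 4) := by
  have hβ := c.β_pos
  have hβ' : (((6 * TT c.K + 1 : ℕ) : ℝ) + 1) * c.lam = c.β / 4 := by
    unfold β; push_cast; ring
  set τ := sl (y - w) with hτ
  obtain ⟨u, hu1, hu2, hu3⟩ : ∃ u : ℝ, τ - c.β / 4 ≤ u ∧ u ≤ τ ∧ ∀ t, u < t → t < u + c.β / 4 →
      0 < sg σ * (t - τ) ∧ sg σ * (t - τ) < c.β / 4 := by
    cases σ
    · refine ⟨τ - c.β / 4, le_rfl, by linarith, fun t h1 h2 => ?_⟩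
      simp only [sg]; constructor <;> simp <;> linarith
    · refine ⟨τ, by linarith, le_rfl, fun t h1 h2 => ?_⟩
      simp only [sg]; constructor <;> simp <;> linarith
  obtain ⟨P₀, h1, h2⟩ := exists_window (s := c.s) (u := u) c.hlam (6 * TT c.K + 1) (NN c.K)
    (by linarith) (by rw [hβ']; linarith)
  rw [hβ'] at h2
  have h3 : 3 * TT c.K < (P₀ ∩ J).card := by
    have a1 := Finset.card_sdiff_add_card_inter P₀ J
    have a2 : (P₀ \ J).card ≤ (Finset.range (NN c.K) \ J).card :=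
      Finset.card_le_card (Finset.sdiff_subset_sdiff
        (fun m hm => Finset.mem_range.2 (h2 m hm).1) subset_rfl)
    rw [Finset.card_sdiff_of_subset hJ, Finset.card_range] at a2
    omega
  obtain ⟨m, hm, hmax⟩ := (P₀ ∩ J).exists_max_image (fun m => (c.A e m).card)
    (Finset.card_pos.1 (by omega))
  rw [Finset.mem_inter] at hm
  obtain ⟨b1, b2, b3, b4⟩ := hal w hw m hm.2
  obtain ⟨c1, c2, c3⟩ := h2 m hm.1
  have hwin : ∀ x ∈ c.A e m, 0 < sg σ * (sl (x - w) - τ) ∧ sg σ * (sl (x - w) - τ) < c.β / 4 :=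
    fun x hx => hu3 _ (by linarith [(b3 x hx).2.1]) (by linarith [(b3 x hx).2.2])
  have hyA : y ∉ c.A e m := fun h => by simpa [hτ] using (hwin y h).1
  refine ⟨insert y (c.A e m), ⟨Finset.insert_subset hyM (b1.trans hM), ?_, ?_, ?_⟩,
    ⟨P₀ ∩ J, h3, fun m' hm' => ?_⟩, fun x hx => (Finset.mem_insert.1 hx).imp_right (hwin x)⟩
  · rw [Finset.coe_insert]; exact insert_subset hyD b2
  · intro x hx
    rcases Finset.mem_insert.1 hx with rfl | hx
    · exact ⟨he, by linarith, by linarith⟩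
    · exact (b3 x hx).mono (by linarith) (by linarith)
  · intro p hp
    exact not_kill_insert fun w' hw' => (hal w' (hU.segment_subset hw hy hw') m hm.2).2.2.2 p hp
  · obtain ⟨d1, d2, d3⟩ := h2 m' (Finset.mem_inter.1 hm').1
    refine ⟨d1, by linarith, by linarith, ?_⟩
    rw [Finset.card_insert_of_notMem hyA]
    have := hmax m' hm'
    have := c.hl m' d1 e
    omega

theorem kill_window {S C : Finset Pt} {w y p : Pt} {e δ : ℝ} {σ : Bool} (hw : Generic S w)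
    (hCS : C ⊆ S) (hpS : p ∈ S) (hC : ∀ x ∈ C, 0 < e * (x - w).2)
    (h : ∀ x ∈ C, x = y ∨ (0 < sg σ * (sl (x - w) - sl (y - w)) ∧
        sg σ * (sl (x - w) - sl (y - w)) < δ)) (hk : Kill w C p) :
    0 < e * (p - w).2 ∧ sl (p - w) ≠ sl (y - w) ∧ |sl (p - w) - sl (y - w)| < δ := by
  obtain ⟨h1, ⟨x, hx, h2⟩, ⟨x', hx', h3⟩⟩ := between_gen hw hCS hpS hC hk
  refine ⟨h1, ?_⟩
  have a1 := h x hx
  have a2 := h x' hx'
  rw [abs_lt]
  cases σ
  · simp only [sg, Bool.false_eq_true, if_false] at a1 a2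
    rcases a1 with rfl | a1 <;> rcases a2 with rfl | a2 <;>
      exact ⟨by intro h; linarith, by linarith, by linarith⟩
  · simp only [sg, if_true] at a1 a2
    rcases a1 with rfl | a1 <;> rcases a2 with rfl | a2 <;>
      exact ⟨by intro h; linarith, by linarith, by linarith⟩

/-- The invariant after `n` cycles. -/
def Inv (c : Ctx) (n : ℕ) (M S : Finset Pt) : Prop :=
  c.M₀ ⊆ M ∧ ∃ (w : Pt) (X : Finset Pt) (Φ : Finset (Fin c.K × Fin c.K × Bool))
    (e : Fin c.K × Fin c.K × Bool → Bool) (C : Fin c.K × Fin c.K × Bool → Finset Pt),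
    c.Base w ∧ w ∉ S ∧ X.card ≤ 3 * (c.K * n) ∧ c.Few S X ∧ n ≤ Φ.card ∧
    (∀ i ∈ Φ, Chip c.D (sg (e i)) (c.s + i.1 * c.Γ) (c.s + (i.1 + 1) * c.Γ) M S w (C i) ∧
      c.Part (c.s + i.1 * c.Γ) (c.s + (i.1 + 1) * c.Γ) (e i) (C i).card) ∧
    ∀ i ∈ Φ, ∀ j ∈ Φ, i ≠ j → Ord w (C i) (C j) ∨ Ord w (C j) (C i)

end Ctx

end Pool.Agent.MP_09de6b_co
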