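import Pool.Agent.MP_09de6b_co.Geo

namespace Pool.Agent.MP_09de6b_co

open Set

/-- Maker, playing only in `D`, can reach `P` in at most `n` moves if at most two further points
appear in `D` after each of her moves. -/
def Force (D : Set Pt) (P : Finset Pt → Finset Pt → Prop) : ℕ → Finset Pt → Finset Pt → Prop
  | 0, M, S => P M S
  | n + 1, M, S => P M S ∨ ∃ p ∈ D, p ∉ S ∧ GenPos (insert p S) ∧ ∀ M' S' X : Finset Pt,
      insert p M ⊆ M' → insert p S ⊆ S' → M' ⊆ S' → GenPos S' → X.card ≤ 2 →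
      (∀ q ∈ S', q ∈ D → q ∈ insert p S ∨ q ∈ X) → Force D P n M' S'

variable {D : Set Pt} {P Q : Finset Pt → Finset Pt → Prop}

theorem Force.of {n : ℕ} {M S : Finset Pt} (h : P M S) : Force D P n M S := by
  cases n with
  | zero => exact h
  | succ n => exact Or.inl h

theorem Force.succ {n : ℕ} : ∀ {M S : Finset Pt}, Force D P n M S → Force D P (n + 1) M S := by
  induction n with
  | zero => intro M S h; exact Or.inl h
  | succ n ih =>
    intro M S h
    rcases h with h | ⟨p, h1, h2, h3, h4⟩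
    · exact Or.inl h
    · exact Or.inr ⟨p, h1, h2, h3, fun M' S' X a1 a2 a3 a4 a5 a6 => ih (h4 M' S' X a1 a2 a3 a4 a5 a6)⟩

theorem Force.le {n m : ℕ} {M S : Finset Pt} (h : Force D P n M S) (hnm : n ≤ m) :
    Force D P m M S := by
  induction hnm with
  | refl => exact h
  | step _ ih => exact ih.succ

theorem Force.bind {n m : ℕ} (hPQ : ∀ M S, M ⊆ S → GenPos S → P M S → Force D Q m M S) :
    ∀ {M S : Finset Pt}, M ⊆ S → GenPos S → Force D P n M S → Force D Q (m + n) M S := by
  induction n with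
  | zero => intro M S h1 h2 h; exact hPQ M S h1 h2 h
  | succ n ih =>
    intro M S h1 h2 h
    rcases h with h | ⟨p, k1, k2, k3, k4⟩
    · exact (hPQ M S h1 h2 h).le (by omega)
    · exact Or.inr ⟨p, k1, k2, k3, fun M' S' X a1 a2 a3 a4 a5 a6 =>
        ih a3 a4 (k4 M' S' X a1 a2 a3 a4 a5 a6)⟩

/-- The state after a move of Maker. -/
def Pend (D : Set Pt) (P : Finset Pt → Finset Pt → Prop) (n : ℕ) (M S : Finset Pt) : Prop :=
  ∀ M' S' X : Finset Pt, M ⊆ M' → S ⊆ S' → M' ⊆ S' → GenPos S' → X.card ≤ 2 →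
    (∀ q ∈ S', q ∈ D → q ∈ S ∨ q ∈ X) → Force D P n M' S'

theorem exists_sparse {ι : Type} (D : ι → Set Pt) (hD : ∀ i j, i ≠ j → Disjoint (D i) (D j))
    (I : Finset ι) (X : Finset Pt) (h : X.card < 3 * I.card) :
    ∃ i ∈ I, ∃ Y : Finset Pt, Y.card ≤ 2 ∧ ∀ q ∈ X, q ∈ D i → q ∈ Y := by
  classical
  by_contra hcon
  push Not at hcon
  have h1 : ∀ i ∈ I, 3 ≤ (X.filter fun q => q ∈ D i).card := by
    intro i hi
    by_contra h3
    obtain ⟨q, h4, h5, h6⟩ := hcon i hi (X.filter fun q => q ∈ D i) (by omega)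
    exact h6 (Finset.mem_filter.2 ⟨h4, h5⟩)
  have h2 : (I.biUnion fun i => X.filter fun q => q ∈ D i).card =
      ∑ i ∈ I, (X.filter fun q => q ∈ D i).card := by
    apply Finset.card_biUnion
    intro i _ j _ hij
    rw [Function.onFun, Finset.disjoint_left]
    intro q hq hq'
    exact Set.disjoint_left.1 (hD i j hij) (Finset.mem_filter.1 hq).2 (Finset.mem_filter.1 hq').2
  have h3 : (I.biUnion fun i => X.filter fun q => q ∈ D i) ⊆ X := by
    intro q hq
    obtain ⟨i, -, hi⟩ := Finset.mem_biUnion.1 hq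
    exact (Finset.mem_filter.1 hi).1
  have h4 := Finset.card_le_card h3
  have h5 := Finset.card_nsmul_le_sum I _ 3 h1
  rw [smul_eq_mul] at h5
  omega

theorem IsHole.mono {k : ℕ} {S S' H : Finset Pt} (h : IsHole k S' H) (hS : S ⊆ S') (hH : H ⊆ S) :
    IsHole k S H := by
  refine ⟨hH, h.2.1, h.2.2.1, Subset.antisymm ?_ ?_⟩
  · intro x hx
    rw [← h.2.2.2]
    exact ⟨hx.1, hS hx.2⟩
  · intro x hx
    exact ⟨subset_convexHull ℝ _ hx, hH hx⟩

section Dilute

variable {s : ℝ} {k : ℕ} {σ : List Pt → Finset Pt}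

/-- The defining property of a winning strategy. -/
def WinStrat (s : ℝ) (k : ℕ) (σ : List Pt → Finset Pt) : Prop :=
  ∀ (p : Pt) (L : List Pt), Legal σ (p :: L) →
    (¬ ∃ H, H ⊆ (p :: L).toFinset ∧ IsHole k ((p :: L).toFinset ∪ bpts σ L) H) ∧
    (bpts σ (p :: L)).card = ⌊s * ((p :: L).length : ℝ)⌋₊ ∧
    Disjoint (σ (p :: L)) ((p :: L).toFinset ∪ bpts σ L) ∧
    GenPos ((p :: L).toFinset ∪ bpts σ (p :: L))

theorem WinStrat.card (h : WinStrat s k σ) {L : List Pt} (hL : Legal σ L) :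
    (bpts σ L).card = ⌊s * (L.length : ℝ)⌋₊ := by
  cases L with
  | nil => simp [bpts]
  | cons p L => exact (h p L hL).2.1

theorem WinStrat.gen (h : WinStrat s k σ) {L : List Pt} (hL : Legal σ L) :
    GenPos (L.toFinset ∪ bpts σ L) := by
  cases L with
  | nil => intro a ha; simp [bpts] at ha
  | cons p L => exact (h p L hL).2.2.2

theorem WinStrat.no_hole (h : WinStrat s k σ) (hk : 1 ≤ k) {L : List Pt} (hL : Legal σ L) :
    ¬ ∃ H, H ⊆ L.toFinset ∧ IsHole k (L.toFinset ∪ bpts σ L) H := by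
  rintro ⟨H, h1, h2⟩
  cases L with
  | nil =>
    have := Finset.card_le_card h1
    rw [h2.2.1] at this
    simp at this
    omega
  | cons p L =>
    refine (h p L hL).1 ⟨H, h1, h2.mono ?_ (h1.trans Finset.subset_union_left)⟩
    exact Finset.union_subset_union_right Finset.subset_union_left

/-- Maker's goal. -/
def Goal (k : ℕ) (M S : Finset Pt) : Prop := ∃ H, H ⊆ M ∧ IsHole k S H

/-- `R` pending regions, with few recent points. -/
def Par (s : ℝ) (k : ℕ) (σ : List Pt → Finset Pt) (D : ℕ → Set Pt) (t R : ℕ) (L : List Pt) :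
    Prop :=
  Legal σ L ∧ ∃ (I : Finset ℕ) (M S : ℕ → Finset Pt) (X : Finset Pt), I.card = R ∧
    (X.card : ℝ) ≤ s * R + 1 ∧ ∀ i ∈ I, M i ⊆ L.toFinset ∧ S i ⊆ L.toFinset ∪ bpts σ L ∧
      Pend (D i) (Goal k) t (M i) (S i) ∧
      ∀ q ∈ L.toFinset ∪ bpts σ L, q ∈ D i → q ∈ S i ∨ q ∈ X

theorem par_step (h : WinStrat s k σ) (hk : 1 ≤ k) (hs : 0 ≤ s) {D : ℕ → Set Pt}
    (hD : ∀ i j, i ≠ j → Disjoint (D i) (D j)) {t R R₁ : ℕ}
    (hR : (3 + s) * R₁ + 2 < (3 - s) * R) {L : List Pt} (hP : Par s k σ D (t + 1) R L) :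
    ∃ L', Par s k σ D t R₁ L' := by
  classical
  obtain ⟨hL, I, M, S, X, hI, hX, hall⟩ := hP
  have hcard : ∀ L' : List Pt, Legal σ L' → bpts σ L ⊆ bpts σ L' → ∀ j : ℕ,
      L'.length = L.length + j → ((bpts σ L' \ bpts σ L).card : ℝ) ≤ s * j + 1 := by
    intro L' h1 h2 j h3
    rw [Finset.card_sdiff_of_subset h2, Nat.cast_sub (Finset.card_le_card h2), h.card h1,
      h.card hL, h3]
    have a1 := Nat.floor_le (a := s * ((L.length + j : ℕ) : ℝ)) (by positivity)
    have a2 := Nat.lt_floor_add_one (s * (L.length : ℝ))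
    push_cast at a1 ⊢
    linarith
  have key : ∀ j ≤ R₁, ∃ L' : List Pt, Legal σ L' ∧ L'.length = L.length + j ∧
      L.toFinset ⊆ L'.toFinset ∧ bpts σ L ⊆ bpts σ L' ∧
      ∃ (J : Finset ℕ) (M' S' : ℕ → Finset Pt), J ⊆ I ∧ J.card = j ∧
        (∀ i ∈ J, M' i ⊆ L'.toFinset ∧ S' i ⊆ L'.toFinset ∪ bpts σ L' ∧
          Pend (D i) (Goal k) t (M' i) (S' i) ∧
          ∀ q ∈ L'.toFinset ∪ bpts σ L', q ∈ D i → q ∈ S' i ∨ q ∈ bpts σ L' \ bpts σ L) ∧
        ∀ i ∈ I \ J, ∀ q ∈ L'.toFinset, q ∈ D i → q ∈ L.toFinset := by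
    intro j
    induction j with
    | zero =>
      intro _
      exact ⟨L, hL, rfl, subset_rfl, subset_rfl, ∅, M, S, by simp, rfl, by simp,
        fun i _ q hq _ => hq⟩
    | succ j ih =>
      intro hj
      obtain ⟨L', a1, a2, a3, a4, J, M', S', b1, b2, b3, b4⟩ := ih (by omega)
      have c1 := hcard L' a1 a4 j a2
      have c2 : (X ∪ (bpts σ L' \ bpts σ L)).card < 3 * (I \ J).card := by
        have d1 := Finset.card_union_le X (bpts σ L' \ bpts σ L)
        have d2 : (I \ J).card + j = R := by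
          rw [Finset.card_sdiff_of_subset b1, b2, hI]
          have := Finset.card_le_card b1
          omega
        have d3 : ((I \ J).card : ℝ) + j = R := by exact_mod_cast d2
        have d4 : (j : ℝ) + 1 ≤ R₁ := by exact_mod_cast hj
        have d5 : ((X ∪ (bpts σ L' \ bpts σ L)).card : ℝ) ≤
          X.card + (bpts σ L' \ bpts σ L).card := by exact_mod_cast d1
        have : ((X ∪ (bpts σ L' \ bpts σ L)).card : ℝ) < 3 * (I \ J).card := by nlinarith
        exact_mod_cast this
      obtain ⟨i, hi, Y, hY, hY'⟩ := exists_sparse D hD (I \ J) _ c2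
      have hi' := Finset.mem_sdiff.1 hi
      obtain ⟨e1, e2, e3, e4⟩ := hall i hi'.1
      have hF := e3 L'.toFinset (L'.toFinset ∪ bpts σ L') Y (e1.trans a3)
        (e2.trans (Finset.union_subset_union a3 a4)) Finset.subset_union_left (h.gen a1) hY (by
          intro q hq hqD
          by_cases hq0 : q ∈ L.toFinset ∪ bpts σ L
          · rcases e4 q hq0 hqD with h1 | h1
            · exact Or.inl h1
            · exact Or.inr (hY' q (Finset.mem_union_left _ h1) hqD)
          · rw [Finset.mem_union, not_or] at hq0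
            rcases Finset.mem_union.1 hq with h1 | h1
            · exact absurd (b4 i hi q h1 hqD) hq0.1
            · exact Or.inr (hY' q (Finset.mem_union_right _ (Finset.mem_sdiff.2 ⟨h1, hq0.2⟩)) hqD))
      rcases hF with hF | ⟨p, f1, f2, f3, f4⟩
      · exact absurd hF (h.no_hole hk a1)
      have hleg : Legal σ (p :: L') := ⟨a1, f2, f3⟩
      have hb : bpts σ (p :: L') = bpts σ L' ∪ σ (p :: L') := rfl
      have hdis := (h p L' hleg).2.2.1
      refine ⟨p :: L', hleg, by rw [List.length_cons, a2]; ring, ?_, ?_, insert i J,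
        Function.update M' i (insert p L'.toFinset),
        Function.update S' i (insert p (L'.toFinset ∪ bpts σ L')), ?_, ?_, ?_, ?_⟩
      · rw [List.toFinset_cons]; exact a3.trans (Finset.subset_insert _ _)
      · rw [hb]; exact a4.trans Finset.subset_union_left
      · exact Finset.insert_subset hi'.1 b1
      · rw [Finset.card_insert_of_notMem hi'.2, b2]
      · intro i' hi''
        rcases Finset.mem_insert.1 hi'' with rfl | hJ
        · rw [Function.update_self, Function.update_self, List.toFinset_cons, hb]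
          refine ⟨subset_rfl, ?_, f4, ?_⟩
          · intro x hx
            simp only [Finset.mem_union, Finset.mem_insert] at hx ⊢
            tauto
          · intro q hq _
            have : q ∈ σ (p :: L') → q ∉ (p :: L').toFinset ∪ bpts σ L' :=
              fun h => Finset.disjoint_left.1 hdis h
            have h4 := @a4 q
            simp only [List.toFinset_cons, Finset.mem_union, Finset.mem_insert,
              Finset.mem_sdiff] at hq this ⊢
            tauto
        · have hne : i' ≠ i := fun h => hi'.2 (h ▸ hJ)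
          rw [Function.update_of_ne hne, Function.update_of_ne hne, List.toFinset_cons, hb]
          obtain ⟨g1, g2, g3, g4⟩ := b3 i' hJ
          refine ⟨g1.trans (Finset.subset_insert _ _), g2.trans ?_, g3, ?_⟩
          · exact Finset.union_subset_union (Finset.subset_insert _ _) Finset.subset_union_left
          · intro q hq hqD
            have hqp : q ≠ p := fun h => Set.disjoint_left.1 (hD i' i hne) hqD (h ▸ f1)
            have : q ∈ σ (p :: L') → q ∉ (p :: L').toFinset ∪ bpts σ L' :=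
              fun h => Finset.disjoint_left.1 hdis h
            have h4 := @a4 q
            have h5 := g4 q
            simp only [List.toFinset_cons, Finset.mem_union, Finset.mem_insert,
              Finset.mem_sdiff] at hq this h5 ⊢
            tauto
      · intro i' hi'' q hq hqD
        rw [Finset.mem_sdiff, Finset.mem_insert, not_or] at hi''
        rw [List.toFinset_cons, Finset.mem_insert] at hq
        rcases hq with hq | hq
        · exact absurd (hq ▸ f1) (Set.disjoint_left.1 (hD i' i hi''.2.1) hqD)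
        · exact b4 i' (Finset.mem_sdiff.2 ⟨hi''.1, hi''.2.2⟩) q hq hqD
  obtain ⟨L', a1, a2, a3, a4, J, M', S', b1, b2, b3, -⟩ := key R₁ le_rfl
  exact ⟨L', a1, J, M', S', _, b2, hcard L' a1 a4 R₁ a2, b3⟩

theorem par_false (h : WinStrat s k σ) (hk : 1 ≤ k) (hs : 0 ≤ s) (hs3 : s < 3) {D : ℕ → Set Pt}
    (hD : ∀ i j, i ≠ j → Disjoint (D i) (D j)) (t : ℕ) : ∃ R, ∀ L, ¬ Par s k σ D t R L := by
  have hex : ∀ c : ℝ, ∃ R : ℕ, c < (3 - s) * R := by
    intro c
    obtain ⟨R, hR⟩ := exists_nat_gt (c / (3 - s))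
    rw [div_lt_iff₀ (by linarith)] at hR
    exact ⟨R, by linarith⟩
  induction t with
  | zero =>
    obtain ⟨R, hR⟩ := hex 1
    refine ⟨R, ?_⟩
    rintro L ⟨hL, I, M, S, X, hI, hX, hall⟩
    have c2 : X.card < 3 * I.card := by
      have : (X.card : ℝ) < 3 * I.card := by rw [hI]; linarith
      exact_mod_cast this
    obtain ⟨i, hi, Y, hY, hY'⟩ := exists_sparse D hD I X c2
    obtain ⟨e1, e2, e3, e4⟩ := hall i hi
    exact h.no_hole hk hL (e3 _ _ Y e1 e2 Finset.subset_union_left (h.gen hL) hY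
      fun q hq hqD => (e4 q hq hqD).imp_right fun h1 => hY' q h1 hqD)
  | succ t ih =>
    obtain ⟨R₁, hR₁⟩ := ih
    obtain ⟨R, hR⟩ := hex ((3 + s) * R₁ + 2)
    refine ⟨R, fun L hP => ?_⟩
    obtain ⟨L', hL'⟩ := par_step h hk hs hD hR hP
    exact hR₁ L' hL'

end Dilute

theorem not_breakerWins_of_force {s : ℝ} (hs : 0 ≤ s) (hs3 : s < 3) {k : ℕ} (hk : 1 ≤ k) (T : ℕ)
    (h : ∀ D : Set Pt, IsOpen D → Convex ℝ D → D.Nonempty → ∀ M S : Finset Pt, M ⊆ S → GenPos S →
      Force D (Goal k) T M S) : ¬ BreakerWins s k := by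
  rintro ⟨σ, hσ⟩
  let D : ℕ → Set Pt := fun i => Metric.ball ((i : ℝ), 0) (1 / 2)
  have hD : ∀ i j, i ≠ j → Disjoint (D i) (D j) := by
    intro i j hij
    apply Metric.ball_disjoint_ball
    rw [Prod.dist_eq, le_max_iff]
    left
    simp only
    rw [Nat.dist_cast_real, add_halves]
    exact Nat.pairwise_one_le_dist hij
  obtain ⟨R, hR⟩ := par_false (σ := σ) hσ hk hs hs3 hD T
  refine hR [] ⟨trivial, Finset.range R, fun _ => ∅, fun _ => ∅, ∅, by simp, by simp; positivity,
    fun i _ => ⟨by simp, by simp, ?_, by simp [bpts]⟩⟩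
  intro M' S' X _ _ h1 h2 _ _
  exact h _ Metric.isOpen_ball (convex_ball _ _) (Metric.nonempty_ball.2 (by norm_num)) M' S' h1 h2

end Pool.Agent.MP_09de6b_co
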