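import Pool.Agent.MP_09de6b_co.LowGame

/-! Small parabola arcs: slopes, generic points, and the dodging lemma. -/

namespace Pool.Agent.MP_09de6b_co.Low

open scoped Classical Topology

/-- A small parabola arc through `w`. -/
noncomputable def arc (w : Pt) (lam σ κ x : ℝ) : Pt :=
  (w.1 + lam * (σ * x + κ * x ^ 2), w.2 + lam * x)

/-- Normalised height. -/
noncomputable def hh (w : Pt) (lam : ℝ) (p : Pt) : ℝ := (p.2 - w.2) / lam

/-- Normalised horizontal offset from the parabola. -/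
noncomputable def ee (w : Pt) (lam σ κ : ℝ) (p : Pt) : ℝ :=
  ((p.1 - w.1) / lam - σ * hh w lam p) / κ - hh w lam p ^ 2

section
variable {w : Pt} {lam σ κ : ℝ}

lemma snd_sub_arc (hl : lam ≠ 0) (p : Pt) (x : ℝ) :
    p.2 - (arc w lam σ κ x).2 = lam * (hh w lam p - x) := by
  simp only [arc, hh]; field_simp; ring

lemma fst_sub_arc (hl : lam ≠ 0) (hκ : κ ≠ 0) (p : Pt) (x : ℝ) :
    p.1 - (arc w lam σ κ x).1 =
      lam * (σ * (hh w lam p - x) + κ * (hh w lam p ^ 2 + ee w lam σ κ p - x ^ 2)) := by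
  simp only [arc, ee]; field_simp; ring

lemma sl_arc (hl : lam ≠ 0) (hκ : κ ≠ 0) (p : Pt) {x : ℝ} (hx : hh w lam p ≠ x) :
    sl (arc w lam σ κ x) p =
      σ + κ * (x + (hh w lam p + ee w lam σ κ p / (hh w lam p - x))) := by
  have : hh w lam p - x ≠ 0 := sub_ne_zero.2 hx
  unfold sl
  rw [snd_sub_arc hl, fst_sub_arc hl hκ]
  field_simp
  ring

lemma hh_arc (hl : lam ≠ 0) (t : ℝ) : hh w lam (arc w lam σ κ t) = t := by
  simp only [arc, hh]; field_simp; ring

lemma ee_arc (hl : lam ≠ 0) (hκ : κ ≠ 0) (t : ℝ) : ee w lam σ κ (arc w lam σ κ t) = 0 := by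
  unfold ee
  rw [hh_arc hl]
  simp only [arc]; field_simp; ring

lemma eq_of_hh_ee (hl : lam ≠ 0) (hκ : κ ≠ 0) {p q : Pt} (h1 : hh w lam p = hh w lam q)
    (h2 : ee w lam σ κ p = ee w lam σ κ q) : p = q := by
  have a1 := fst_sub_arc (w := w) (σ := σ) hl hκ p 0
  have a2 := fst_sub_arc (w := w) (σ := σ) hl hκ q 0
  have b1 := snd_sub_arc (w := w) (σ := σ) (κ := κ) hl p 0
  have b2 := snd_sub_arc (w := w) (σ := σ) (κ := κ) hl q 0
  rw [h1, h2] at a1
  rw [h1] at b1
  exact Prod.ext (by linarith) (by linarith)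

lemma quad_finite {a b c : ℝ} (h : ¬ (a = 0 ∧ b = 0)) :
    {x : ℝ | a * x ^ 2 + b * x + c = 0}.Finite := by
  have hne : (Polynomial.C a * Polynomial.X ^ 2 + Polynomial.C b * Polynomial.X +
      Polynomial.C c : Polynomial ℝ) ≠ 0 := by
    intro h0
    apply h
    have h2 := congrArg (fun p : Polynomial ℝ => p.coeff 2) h0
    have h1 := congrArg (fun p : Polynomial ℝ => p.coeff 1) h0
    simp [Polynomial.coeff_C] at h2 h1
    exact ⟨h2, h1⟩
  refine (Polynomial.finite_setOfPred_isRoot hne).subset fun x hx => ?_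
  simpa [Polynomial.IsRoot] using hx

lemma gen_finite (hl : lam ≠ 0) (hκ : κ ≠ 0) (T : Finset Pt) :
    {x : ℝ | ¬ Gen T (arc w lam σ κ x)}.Finite := by
  let P : Pt → ℝ := fun p => hh w lam p ^ 2 + ee w lam σ κ p
  let E : Pt → Pt → Set ℝ := fun p q => {x | p ≠ q ∧ (hh w lam p - hh w lam q) * x ^ 2 +
    (P q - P p) * x + (P p * hh w lam q - P q * hh w lam p) = 0}
  have hE : ∀ p q, (E p q).Finite := by
    intro p q
    by_cases hpq : p = q
    · exact Set.finite_empty.subset fun x hx => hx.1 hpq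
    · refine (quad_finite (a := hh w lam p - hh w lam q) (b := P q - P p)
        (c := P p * hh w lam q - P q * hh w lam p) ?_).subset fun x hx => hx.2
      rintro ⟨h1, h2⟩
      have h1' : hh w lam p = hh w lam q := by linarith
      refine hpq (eq_of_hh_ee (w := w) (σ := σ) hl hκ h1' ?_)
      simp only [P, h1'] at h2
      linarith
  have hfin : ((hh w lam '' (T : Set Pt)) ∪ ⋃ p ∈ (T : Set Pt), ⋃ q ∈ (T : Set Pt), E p q).Finite :=
    (T.finite_toSet.image _).union
      (T.finite_toSet.biUnion fun p _ => T.finite_toSet.biUnion fun q _ => hE p q)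
  refine hfin.subset fun x hx => ?_
  by_contra hc
  apply hx
  simp only [Set.mem_union, not_or, Set.mem_iUnion, not_exists] at hc
  have hh' : ∀ p ∈ T, hh w lam p ≠ x := fun p hp h => hc.1 ⟨p, hp, h⟩
  intro p hp
  refine ⟨fun h => ?_, fun q hq hpq h => hc.2 p hp q hq ⟨hpq, ?_⟩⟩
  · have := snd_sub_arc (w := w) (σ := σ) (κ := κ) hl p x
    rw [h, sub_self] at this
    exact mul_ne_zero hl (sub_ne_zero.2 (hh' p hp)) this.symm
  · rw [sl_arc hl hκ p (hh' p hp), sl_arc hl hκ q (hh' q hq)] at h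
    have h1 : hh w lam p - x ≠ 0 := sub_ne_zero.2 (hh' p hp)
    have h2 : hh w lam q - x ≠ 0 := sub_ne_zero.2 (hh' q hq)
    have h3 : hh w lam p + ee w lam σ κ p / (hh w lam p - x) =
        hh w lam q + ee w lam σ κ q / (hh w lam q - x) := by
      have := mul_left_cancel₀ hκ (add_left_cancel h)
      linarith
    field_simp at h3
    simp only [P]
    linear_combination h3

lemma exists_gen (hl : lam ≠ 0) (hκ : κ ≠ 0) (T : Finset Pt) {X : Set ℝ} (hX : X.Infinite) :
    ∃ x ∈ X, Gen T (arc w lam σ κ x) := by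
  obtain ⟨x, hx, hx'⟩ := (hX.sdiff (gen_finite (w := w) (σ := σ) hl hκ T)).nonempty
  exact ⟨x, hx, by simpa using hx'⟩

lemma exists_scale {U : Set Pt} (hU : U ∈ 𝓝 w) (σ κ R : ℝ) (hκ : 0 < κ) (hR : 0 < R) :
    ∃ lam : ℝ, 0 < lam ∧ ∀ x, 0 ≤ x → x ≤ R → arc w lam σ κ x ∈ U := by
  obtain ⟨r, hr, hball⟩ := Metric.mem_nhds_iff.1 hU
  set C := |σ| * R + κ * R ^ 2 + R + 1 with hC
  have hCpos : 0 < C := by positivity
  refine ⟨r / C, by positivity, fun x hx0 hxR => hball ?_⟩
  rw [Metric.mem_ball, Prod.dist_eq, max_lt_iff, Real.dist_eq, Real.dist_eq]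
  simp only [arc, add_sub_cancel_left]
  have h1 : |σ * x + κ * x ^ 2| < C := by
    have a1 : |σ * x| ≤ |σ| * R := by
      rw [abs_mul, abs_of_nonneg hx0]; exact mul_le_mul_of_nonneg_left hxR (abs_nonneg _)
    have a2 : |κ * x ^ 2| ≤ κ * R ^ 2 := by
      rw [abs_of_nonneg (by positivity)]
      exact mul_le_mul_of_nonneg_left (pow_le_pow_left₀ hx0 hxR 2) hκ.le
    have := abs_add_le (σ * x) (κ * x ^ 2)
    linarith
  have h2 : |x| < C := by
    rw [abs_of_nonneg hx0]
    have : 0 ≤ |σ| * R + κ * R ^ 2 := by positivity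
    linarith
  have hrC : 0 < r / C := by positivity
  constructor
  · rw [abs_mul, abs_of_pos hrC]
    calc r / C * |σ * x + κ * x ^ 2| < r / C * C := mul_lt_mul_of_pos_left h1 hrC
      _ = r := by field_simp
  · rw [abs_mul, abs_of_pos hrC]
    calc r / C * |x| < r / C * C := mul_lt_mul_of_pos_left h2 hrC
      _ = r := by field_simp

/-- Maker plays `m` points on the arc, one in each window of parameters. -/
lemma force_play {D : Set Pt} (hl : lam ≠ 0) (hκ : κ ≠ 0) (M S : Finset Pt) :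
    ∀ m : ℕ, (∀ x, 0 ≤ x → x ≤ (m : ℝ) + 1 → arc w lam σ κ x ∈ D) →
    Force D (fun M' S' => ∃ (t : ℕ → ℝ) (B : Finset Pt),
      (∀ j < m, (j : ℝ) + 1 < t j ∧ t j < j + 1 + 1 / 8) ∧ B.card ≤ 2 * m ∧ M ⊆ M' ∧
      (∀ j < m, arc w lam σ κ (t j) ∈ M') ∧
      ∀ p ∈ S', p ∈ S ∨ p ∈ B ∨ ∃ j < m, p = arc w lam σ κ (t j)) m M S := by
  intro m
  induction m with
  | zero =>
    intro _
    exact ⟨fun _ => 0, ∅, by simp, by simp, subset_rfl, by simp, fun p hp => Or.inl hp⟩
  | succ m ih =>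
    intro hD
    rw [Nat.add_comm m 1]
    refine force_trans ?_ (ih fun x h0 h1 => hD x h0 (by push_cast; linarith))
    rintro M' S' ⟨t, B, h1, h2, h3, h4, h5⟩
    refine Or.inr fun T => ?_
    obtain ⟨x, hx, hg⟩ := exists_gen (w := w) (σ := σ) hl hκ T
      (Set.Ioo_infinite (show (m : ℝ) + 1 < m + 1 + 1 / 8 by linarith))
    have hm0 : (0 : ℝ) ≤ m := Nat.cast_nonneg m
    refine ⟨_, hD x (by linarith [hx.1]) (by push_cast; linarith [hx.2]), hg, fun B2 hB2 => ?_⟩
    refine ⟨Function.update t m x, B ∪ B2, ?_, ?_, h3.trans (Finset.subset_insert _ _), ?_, ?_⟩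
    · intro j hj
      by_cases hjm : j = m
      · subst hjm; rw [Function.update_self]; exact hx
      · rw [Function.update_of_ne hjm]; exact h1 j (by omega)
    · have := Finset.card_union_le B B2
      omega
    · intro j hj
      by_cases hjm : j = m
      · subst hjm; simp
      · rw [Function.update_of_ne hjm]; exact Finset.mem_insert_of_mem (h4 j (by omega))
    · intro p hp
      rcases Finset.mem_union.1 hp with hp | hp
      · rcases Finset.mem_insert.1 hp with rfl | hp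
        · exact Or.inr (Or.inr ⟨m, by omega, by simp⟩)
        · rcases h5 p hp with h | h | ⟨j, hj, h⟩
          · exact Or.inl h
          · exact Or.inr (Or.inl (Finset.mem_union_left _ h))
          · exact Or.inr (Or.inr ⟨j, by omega, by rw [Function.update_of_ne hj.ne, h]⟩)
      · exact Or.inr (Or.inl (Finset.mem_union_right _ hp))

end

lemma ivt_gap {h e t x0 x2 : ℝ} (h02 : x0 ≤ x2) (h2 : x2 < h)
    (ha : |h + e / (h - x0) - t| ≤ 1 / 4) (hb : 1 / 2 ≤ |h + e / (h - x2) - t|) :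
    {x | x0 ≤ x ∧ x ≤ x2 ∧ 1 / 4 < |h + e / (h - x) - t| ∧
      |h + e / (h - x) - t| < 1 / 2}.Infinite := by
  have hc : ContinuousOn (fun x => |h + e / (h - x) - t|) (Set.Icc x0 x2) := by
    refine ContinuousOn.abs (ContinuousOn.sub (ContinuousOn.add continuousOn_const
      (ContinuousOn.div continuousOn_const (by fun_prop) fun x hx => ?_)) continuousOn_const)
    have := hx.2
    intro h0; linarith
  have hI := intermediate_value_Icc h02 hc
  refine Set.Infinite.of_image (fun x => |h + e / (h - x) - t|)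
    ((Set.Ioo_infinite (show (1 / 4 : ℝ) < 1 / 2 by norm_num)).mono fun y hy => ?_)
  obtain ⟨x, hx, hxy⟩ := hI (show y ∈ Set.Icc _ _ from ⟨by linarith [hy.1], by linarith [hy.2]⟩)
  simp only at hxy
  exact ⟨x, ⟨hx.1, hx.2, by rw [hxy]; exact hy.1, by rw [hxy]; exact hy.2⟩, hxy⟩

lemma dodge_up {h e t x0 hi : ℝ} (hx0h : x0 < h) (hthi : t < hi) (hx0t : x0 < t)
    (hne : ¬ (h = t ∧ e = 0)) (ha : |h + e / (h - x0) - t| ≤ 1 / 4) :
    {x | x0 ≤ x ∧ x ≤ hi ∧ x ≠ h ∧ |h + e / (h - x) - t| < 1 / 2 ∧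
      ¬ (|h + e / (h - x) - t| ≤ 1 / 4 ∧ 0 < (h - x) * (t - x))}.Infinite := by
  have gap : ∀ x2, x0 ≤ x2 → x2 < h → x2 ≤ hi → 1 / 2 ≤ |h + e / (h - x2) - t| →
      {x | x0 ≤ x ∧ x ≤ hi ∧ x ≠ h ∧ |h + e / (h - x) - t| < 1 / 2 ∧
      ¬ (|h + e / (h - x) - t| ≤ 1 / 4 ∧ 0 < (h - x) * (t - x))}.Infinite := by
    intro x2 h1 h2 h3 h4
    refine (ivt_gap h1 h2 ha h4).mono ?_
    rintro x ⟨a1, a2, a3, a4⟩
    exact ⟨a1, a2.trans h3, (lt_of_le_of_lt a2 h2).ne, a4, fun hc => by linarith [hc.1]⟩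
  rcases lt_or_ge t h with hth | hth
  · by_cases hb : 1 / 2 ≤ |h + e / (h - t) - t|
    · exact gap t hx0t.le hth hthi.le hb
    · push Not at hb
      have hc : ContinuousAt (fun x => |h + e / (h - x) - t|) t := by
        refine ContinuousAt.abs (ContinuousAt.sub (ContinuousAt.add continuousAt_const
          (ContinuousAt.div continuousAt_const (by fun_prop) ?_)) continuousAt_const)
        intro h0; linarith
      have e1 : ∀ᶠ x in 𝓝 t, |h + e / (h - x) - t| < 1 / 2 := hc.eventually_lt continuousAt_const hb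
      have e2 : ∀ᶠ x in 𝓝 t, x < h := eventually_lt_nhds hth
      have e3 : ∀ᶠ x in 𝓝 t, x < hi := eventually_lt_nhds hthi
      have e4 : {x | |h + e / (h - x) - t| < 1 / 2 ∧ x < h ∧ x < hi} ∈ 𝓝[>] t :=
        mem_nhdsWithin_of_mem_nhds (e1.and (e2.and e3))
      obtain ⟨u, hu, hsub⟩ := (mem_nhdsGT_iff_exists_Ioo_subset).1 e4
      refine (Set.Ioo_infinite (show t < u from hu)).mono fun x hx => ?_
      obtain ⟨a1, a2, a3⟩ := hsub hx
      refine ⟨by linarith [hx.1], a3.le, a2.ne, a1, fun hc => ?_⟩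
      nlinarith [hc.2, hx.1, mul_pos (sub_pos.2 a2) (sub_pos.2 hx.1)]
  · by_cases he : e = 0
    · subst he
      have hlt : h < t := lt_of_le_of_ne hth fun h0 => hne ⟨h0, rfl⟩
      refine (Set.Ioo_infinite hlt).mono fun x hx => ?_
      simp only [zero_div, add_zero] at ha ⊢
      refine ⟨by linarith [hx.1], by linarith [hx.2], hx.1.ne', by linarith, fun hc => ?_⟩
      nlinarith [hc.2, mul_pos (sub_pos.2 hx.1) (sub_pos.2 hx.2)]
    · have hepos : 0 < |e| := abs_pos.2 he
      set C := |h - t| + 1 with hC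
      have hCpos : 0 < C := by positivity
      have hq : 0 < |e| / C := by positivity
      have h2 : max x0 (h - |e| / C) < h := max_lt hx0h (by linarith)
      refine gap (max x0 (h - |e| / C)) (le_max_left _ _) h2 (by linarith) ?_
      set x2 := max x0 (h - |e| / C) with hx2
      have h3 : h - x2 ≤ |e| / C := by linarith [le_max_right x0 (h - |e| / C)]
      have h4 : 0 < h - x2 := sub_pos.2 h2
      have h5 : C ≤ |e / (h - x2)| := by
        rw [abs_div, abs_of_pos h4, le_div_iff₀ h4]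
        rw [le_div_iff₀ hCpos] at h3
        linarith
      have h6 : |e / (h - x2)| ≤ |h + e / (h - x2) - t| + |h - t| := by
        have := abs_sub (h + e / (h - x2) - t) (h - t)
        rwa [show h + e / (h - x2) - t - (h - t) = e / (h - x2) by ring] at this
      linarith

/-- A blocker that meets the window of a point at one location misses everything at infinitely
many other locations. -/
lemma dodge {h e t x0 lo hi : ℝ} (hlo : lo < t) (hthi : t < hi) (h1 : lo ≤ x0) (h2 : x0 ≤ hi)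
    (hne : ¬ (h = t ∧ e = 0)) (ha : |h + e / (h - x0) - t| ≤ 1 / 4)
    (hs : 0 < (h - x0) * (t - x0)) :
    {x | lo ≤ x ∧ x ≤ hi ∧ x ≠ h ∧ |h + e / (h - x) - t| < 1 / 2 ∧
      ¬ (|h + e / (h - x) - t| ≤ 1 / 4 ∧ 0 < (h - x) * (t - x))}.Infinite := by
  rcases pos_and_pos_or_neg_and_neg_of_mul_pos hs with ⟨a1, a2⟩ | ⟨a1, a2⟩
  · refine (dodge_up (hi := hi) (by linarith) hthi (by linarith) hne ha).mono ?_
    rintro x ⟨b1, b2⟩
    exact ⟨h1.trans b1, b2⟩
  · have key : ∀ x, |-h + e / (-h - -x) - -t| = |h + e / (h - x) - t| := by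
      intro x
      rw [← abs_neg, show -h - -x = -(h - x) by ring, div_neg]
      congr 1; ring
    have := dodge_up (h := -h) (e := e) (t := -t) (x0 := -x0) (hi := -lo) (by linarith)
      (by linarith) (by linarith) (fun hc => hne ⟨by linarith [hc.1], hc.2⟩) (by rw [key]; exact ha)
    refine Set.Infinite.of_image (fun x => -x) (this.mono ?_)
    rintro y ⟨b1, b2, b3, b4, b5⟩
    obtain ⟨x, rfl⟩ : ∃ x, y = -x := ⟨-y, by ring⟩
    rw [key] at b4 b5
    refine ⟨x, ⟨by linarith, by linarith, fun hc => b3 (by rw [hc]), b4, fun hc => b5 ⟨hc.1, ?_⟩⟩,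
      rfl⟩
    nlinarith [hc.2]

end Pool.Agent.MP_09de6b_co.Low
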