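import Pool.Agent.MP_09de6b_co.LowArc

/-! Slots: pairs of empty convex chains (one upwards, one downwards) at a virtual apex. -/

namespace Pool.Agent.MP_09de6b_co.Low

open scoped Classical Topology

/-- The sign of a side. -/
def sg (e : Bool) : ℝ := if e then 1 else -1

lemma sg_mul_self (e : Bool) : sg e * sg e = 1 := by cases e <;> simp [sg]

/-- An upper and a lower chain. -/
abbrev Slot : Type := Bool → Finset Pt

/-- Total number of points. -/
def size (C : Slot) : ℕ := (C true).card + (C false).card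

/-- Both chains are alive for every apex in `W`, with slopes in `(a, b)`. -/
def Alive (M S : Finset Pt) (W : Set Pt) (a b : ℝ) (C : Slot) : Prop :=
  ∀ e, C e ⊆ M ∧ (∀ w ∈ W, ∀ c ∈ C e, 0 < sg e * (c.2 - w.2) ∧ a < sl w c ∧ sl w c < b) ∧
    ∀ p ∈ S, Out p (W ∪ ((C e : Set Pt) \ {p}))

/-- The slopes of `C` come before those of `C'`, except for common points. -/
def Ord (W : Set Pt) (C C' : Slot) : Prop :=
  ∀ w ∈ W, ∀ e e', ∀ c ∈ C e, ∀ c' ∈ C' e', sl w c < sl w c' ∨ c = c'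

/-- `p` may destroy the slot `C` at apex `w`. -/
def Kill (w p : Pt) (C : Slot) : Prop :=
  ∃ e, 0 < sg e * (p.2 - w.2) ∧ (∃ c ∈ C e, c ≠ p ∧ sl w c ≤ sl w p) ∧
    ∃ c ∈ C e, c ≠ p ∧ sl w p ≤ sl w c

/-- The slot with one more point. -/
noncomputable def up (C : Slot) (e : Bool) (y : Pt) : Slot := Function.update C e (insert y (C e))

lemma mem_up {C : Slot} {e0 e : Bool} {y c : Pt} :
    c ∈ up C e0 y e ↔ c ∈ C e ∨ (e = e0 ∧ c = y) := by
  unfold up
  by_cases h : e = e0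
  · subst h; simp [or_comm]
  · simp [Function.update_of_ne h, h]

lemma size_up {C : Slot} {e0 : Bool} {y : Pt} (hy : y ∉ C e0) : size (up C e0 y) = size C + 1 := by
  cases e0 <;> simp [size, up, Finset.card_insert_of_notMem hy] <;> ring

lemma Ord.mono {W W' : Set Pt} {C C' : Slot} (h : Ord W C C') (hW : W' ⊆ W) : Ord W' C C' :=
  fun w hw => h w (hW hw)

lemma continuousAt_sl {w c : Pt} (h : c.2 ≠ w.2) : ContinuousAt (fun x => sl x c) w := by
  unfold sl
  exact ContinuousAt.div (by fun_prop) (by fun_prop) (sub_ne_zero.2 h)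

lemma Alive.ne {M S : Finset Pt} {W : Set Pt} {a b : ℝ} {C : Slot} (h : Alive M S W a b C)
    {w : Pt} (hw : w ∈ W) {e : Bool} {c : Pt} (hc : c ∈ C e) : c.2 ≠ w.2 := by
  intro h0
  have := ((h e).2.1 w hw c hc).1
  rw [h0] at this
  simp at this

lemma alive_zoom {M S : Finset Pt} {w : Pt} {a b : ℝ} {C : Slot} (h : Alive M S {w} a b C) :
    ∀ᶠ U in (𝓝 w).smallSets, Alive M S U a b C := by
  unfold Alive
  refine Filter.eventually_all.2 fun e => ?_
  obtain ⟨h1, h2, h3⟩ := h e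
  refine (Filter.Eventually.of_forall fun _ => h1).and (Filter.Eventually.and ?_ ?_)
  · rw [Filter.eventually_smallSets_forall, Filter.eventually_all_finset]
    intro c hc
    obtain ⟨a1, a2, a3⟩ := h2 w rfl c hc
    have hs := continuousAt_sl (h.ne rfl hc)
    refine Filter.Eventually.and ?_ ((continuousAt_const.eventually_lt hs a2).and
      (hs.eventually_lt continuousAt_const a3))
    exact (continuousAt_const (y := (0 : ℝ))).eventually_lt
      (f := fun _ => (0 : ℝ)) (g := fun x : Pt => sg e * (c.2 - x.2)) (by fun_prop) a1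
  · rw [Filter.eventually_all_finset]
    intro p hp
    obtain ⟨α, β, hab⟩ := h3 p hp
    have e1 : ∀ᶠ x in 𝓝 w, α * p.1 + β * p.2 < α * x.1 + β * x.2 :=
      continuousAt_const.eventually_lt (g := fun x : Pt => α * x.1 + β * x.2) (by fun_prop)
        (hab w (Or.inl rfl))
    rw [← Filter.eventually_smallSets_forall] at e1
    refine e1.mono fun U hU => ⟨α, β, fun x hx => ?_⟩
    rcases hx with hx | hx
    · exact hU x hx
    · exact hab x (Or.inr hx)

lemma ord_zoom {w : Pt} {C C' : Slot} (h1 : ∀ e, ∀ c ∈ C e, c.2 ≠ w.2)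
    (h2 : ∀ e, ∀ c ∈ C' e, c.2 ≠ w.2) (h : Ord {w} C C') :
    ∀ᶠ U in (𝓝 w).smallSets, Ord U C C' := by
  unfold Ord
  rw [Filter.eventually_smallSets_forall]
  refine Filter.eventually_all.2 fun e => Filter.eventually_all.2 fun e' => ?_
  rw [Filter.eventually_all_finset]
  intro c hc
  rw [Filter.eventually_all_finset]
  intro c' hc'
  rcases h w rfl e e' c hc c' hc' with h | h
  · exact ((continuousAt_sl (h1 e c hc)).eventually_lt (continuousAt_sl (h2 e' c' hc')) h).mono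
      fun _ h => Or.inl h
  · exact Filter.Eventually.of_forall fun _ => Or.inr h

lemma fst_eq_sl {w c : Pt} (h : c.2 ≠ w.2) : c.1 - w.1 = sl w c * (c.2 - w.2) := by
  unfold sl
  have : c.2 - w.2 ≠ 0 := sub_ne_zero.2 h
  field_simp

lemma exists_between_finset (s : Finset Pt) (f : Pt → ℝ) (a : ℝ) (h : ∀ c ∈ s, a < f c) :
    ∃ τ, a < τ ∧ ∀ c ∈ s, τ ≤ f c := by
  rcases s.eq_empty_or_nonempty with rfl | hs
  · exact ⟨a + 1, by linarith, by simp⟩
  · obtain ⟨c, hc, hmin⟩ := s.exists_min_image f hs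
    exact ⟨f c, h c hc, hmin⟩

lemma out_of_not_kill {w p : Pt} {C : Slot} (hp : p.2 ≠ w.2)
    (hC : ∀ e, ∀ c ∈ C e, 0 < sg e * (c.2 - w.2)) (hk : ¬ Kill w p C) (e : Bool) :
    Out p ({w} ∪ ((C e : Set Pt) \ {p})) := by
  have hne : ∀ c ∈ C e, c.2 ≠ w.2 := by
    intro c hc h0
    have := hC e c hc
    rw [h0] at this
    simp at this
  by_cases hs : 0 < sg e * (p.2 - w.2)
  · have hk' : (∀ c ∈ (C e).erase p, sl w p < sl w c) ∨ ∀ c ∈ (C e).erase p, sl w c < sl w p := by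
      by_contra hc
      push Not at hc
      obtain ⟨⟨c, hc1, hc2⟩, c', hc1', hc2'⟩ := hc
      rw [Finset.mem_erase] at hc1 hc1'
      exact hk ⟨e, hs, ⟨c, hc1.2, hc1.1, hc2⟩, c', hc1'.2, hc1'.1, hc2'⟩
    have ep := fst_eq_sl hp
    rcases hk' with hk' | hk'
    · obtain ⟨τ, h1, h2⟩ := exists_between_finset _ _ _ hk'
      refine ⟨sg e, - (sg e * τ), fun x hx => ?_⟩
      have f1 : (sl w p - τ) * (sg e * (p.2 - w.2)) < 0 := mul_neg_of_neg_of_pos (by linarith) hs
      rcases hx with hx | hx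
      · rw [Set.mem_singleton_iff] at hx
        subst hx
        have : p.1 = x.1 + sl x p * (p.2 - x.2) := by linarith
        rw [this]; nlinarith
      · have hx' : x ∈ (C e).erase p := Finset.mem_erase.2 ⟨hx.2, hx.1⟩
        have f2 : 0 ≤ (sl w x - τ) * (sg e * (x.2 - w.2)) :=
          mul_nonneg (by linarith [h2 x hx']) (hC e x hx.1).le
        have ex := fst_eq_sl (hne x hx.1)
        have a1 : p.1 = w.1 + sl w p * (p.2 - w.2) := by linarith
        have a2 : x.1 = w.1 + sl w x * (x.2 - w.2) := by linarith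
        rw [a1, a2]; nlinarith
    · obtain ⟨τ, h1, h2⟩ := exists_between_finset _ (fun c => - sl w c) (- sl w p)
        (fun c hc => neg_lt_neg (hk' c hc))
      refine ⟨- sg e, - (sg e * τ), fun x hx => ?_⟩
      have f1 : (- sl w p - τ) * (sg e * (p.2 - w.2)) < 0 := mul_neg_of_neg_of_pos (by linarith) hs
      rcases hx with hx | hx
      · rw [Set.mem_singleton_iff] at hx
        subst hx
        have : p.1 = x.1 + sl x p * (p.2 - x.2) := by linarith
        rw [this]; nlinarith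
      · have hx' : x ∈ (C e).erase p := Finset.mem_erase.2 ⟨hx.2, hx.1⟩
        have f2 : 0 ≤ (- sl w x - τ) * (sg e * (x.2 - w.2)) :=
          mul_nonneg (by linarith [h2 x hx']) (hC e x hx.1).le
        have ex := fst_eq_sl (hne x hx.1)
        have a1 : p.1 = w.1 + sl w p * (p.2 - w.2) := by linarith
        have a2 : x.1 = w.1 + sl w x * (x.2 - w.2) := by linarith
        rw [a1, a2]; nlinarith
  · have hs' : sg e * (p.2 - w.2) < 0 := by
      refine lt_of_le_of_ne (not_lt.1 hs) (mul_ne_zero ?_ (sub_ne_zero.2 hp))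
      cases e <;> simp [sg]
    refine ⟨0, sg e, fun x hx => ?_⟩
    rcases hx with hx | hx
    · rw [Set.mem_singleton_iff] at hx
      subst hx
      nlinarith
    · have := hC e x hx.1
      nlinarith

lemma kill_unique {w p : Pt} {C C' : Slot} (h : Ord {w} C C')
    (hg : ∀ e, ∀ c ∈ C e, c ≠ p → sl w c ≠ sl w p) (h1 : Kill w p C) (h2 : Kill w p C') :
    False := by
  obtain ⟨e, -, -, c, hc, hcp, hle⟩ := h1
  obtain ⟨e', -, ⟨c', hc', -, hle'⟩, -⟩ := h2
  have hlt : sl w p < sl w c := lt_of_le_of_ne hle (hg e c hc hcp).symm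
  rcases h w rfl e e' c hc c' hc' with h | h
  · linarith
  · subst h; linarith

lemma kill_mem {M S : Finset Pt} {W : Set Pt} {a b : ℝ} {C : Slot} (h : Alive M S W a b C)
    {w p : Pt} (hw : w ∈ W) (hk : Kill w p C) : a < sl w p ∧ sl w p < b := by
  obtain ⟨e, -, ⟨c, hc, -, hle⟩, c', hc', -, hle'⟩ := hk
  exact ⟨lt_of_lt_of_le ((h e).2.1 w hw c hc).2.1 hle,
    lt_of_le_of_lt hle' ((h e).2.1 w hw c' hc').2.2⟩

lemma kill_up {w p y : Pt} {C : Slot} {e0 : Bool} {lo hi : ℝ}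
    (hC : ∀ e, ∀ c ∈ C e, lo ≤ sl w c ∧ sl w c ≤ hi) (hy : lo ≤ sl w y ∧ sl w y ≤ hi)
    (hk : Kill w p (up C e0 y)) (hn : ¬ Kill w p C) :
    p ≠ y ∧ 0 < sg e0 * (p.2 - w.2) ∧ lo ≤ sl w p ∧ sl w p ≤ hi := by
  obtain ⟨e, hs, ⟨c, hc, hcp, hle⟩, c', hc', hcp', hle'⟩ := hk
  rw [mem_up] at hc hc'
  have b1 : lo ≤ sl w c := by
    rcases hc with hc | ⟨-, rfl⟩
    · exact (hC e c hc).1
    · exact hy.1
  have b2 : sl w c' ≤ hi := by
    rcases hc' with hc' | ⟨-, rfl⟩
    · exact (hC e c' hc').2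
    · exact hy.2
  rcases hc with hc | ⟨rfl, rfl⟩
  · rcases hc' with hc' | ⟨rfl, rfl⟩
    · exact absurd ⟨e, hs, ⟨c, hc, hcp, hle⟩, c', hc', hcp', hle'⟩ hn
    · exact ⟨hcp'.symm, hs, by linarith, by linarith⟩
  · exact ⟨hcp.symm, hs, by linarith, by linarith⟩

lemma survive {M S M' S' : Finset Pt} {U : Set Pt} {a b : ℝ} {C : Slot} {w : Pt}
    (h : Alive M S U a b C) (hw : w ∈ U) (hM : M ⊆ M')
    (hS : ∀ p ∈ S', p ∈ S ∨ (p.2 ≠ w.2 ∧ ¬ Kill w p C)) : Alive M' S' {w} a b C := by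
  intro e
  refine ⟨(h e).1.trans hM, ?_, fun p hp => ?_⟩
  · rintro x rfl c hc
    exact (h e).2.1 x hw c hc
  · rcases hS p hp with hp | ⟨h1, h2⟩
    · exact ((h e).2.2 p hp).mono (Set.union_subset_union_left _ (Set.singleton_subset_iff.2 hw))
    · exact out_of_not_kill h1 (fun e c hc => ((h e).2.1 w hw c hc).1) h2 e

lemma promote {M S M' S' : Finset Pt} {U : Set Pt} {a b a' b' : ℝ} {C : Slot} {w y : Pt}
    {e0 : Bool} (h : Alive M S U a b C) (hw : w ∈ U) (hy : y ∈ U) (hM : M ⊆ M') (hyM : y ∈ M')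
    (hs : 0 < sg e0 * (y.2 - w.2)) (ha : a' ≤ a) (hb : b ≤ b') (ha' : a' < sl w y)
    (hb' : sl w y < b')
    (hS : ∀ p ∈ S', p ∈ S ∨ (p.2 ≠ w.2 ∧ ¬ Kill w p (up C e0 y))) :
    Alive M' S' {w} a' b' (up C e0 y) := by
  have hsl : ∀ e, ∀ c ∈ up C e0 y e, 0 < sg e * (c.2 - w.2) ∧ a' < sl w c ∧ sl w c < b' := by
    intro e c hc
    rcases mem_up.1 hc with hc | ⟨rfl, rfl⟩
    · obtain ⟨a1, a2, a3⟩ := (h e).2.1 w hw c hc
      exact ⟨a1, by linarith, by linarith⟩
    · exact ⟨hs, ha', hb'⟩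
  intro e
  refine ⟨fun c hc => ?_, ?_, fun p hp => ?_⟩
  · rcases mem_up.1 hc with hc | ⟨-, rfl⟩
    · exact hM ((h e).1 hc)
    · exact hyM
  · rintro x rfl c hc
    exact hsl e c hc
  · rcases hS p hp with hp | ⟨h1, h2⟩
    · refine ((h e).2.2 p hp).mono ?_
      rintro x (hx | ⟨hx, hxp⟩)
      · rw [Set.mem_singleton_iff] at hx
        subst hx
        exact Or.inl hw
      · rcases mem_up.1 hx with hx | ⟨-, rfl⟩
        · exact Or.inr ⟨hx, hxp⟩
        · exact Or.inl hy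
    · exact out_of_not_kill h1 (fun e c hc => (hsl e c hc).1) h2 e

lemma card_survive {ι : Type} (K : Finset ι) (Z : Finset Pt) (R : Pt → ι → Prop)
    (h : ∀ p ∈ Z, ∀ k ∈ K, ∀ k' ∈ K, R p k → R p k' → k = k') :
    K.card ≤ (K.filter fun k => ∀ p ∈ Z, ¬ R p k).card + Z.card := by
  have h1 := Finset.card_filter_add_card_filter_not (s := K) (fun k => ∀ p ∈ Z, ¬ R p k)
  have h2 : (K.filter fun k => ¬ ∀ p ∈ Z, ¬ R p k) ⊆ Z.biUnion fun p => K.filter (R p) := by
    intro k hk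
    rw [Finset.mem_filter] at hk
    obtain ⟨hk1, hk2⟩ := hk
    push Not at hk2
    obtain ⟨p, hp, hR⟩ := hk2
    exact Finset.mem_biUnion.2 ⟨p, hp, Finset.mem_filter.2 ⟨hk1, hR⟩⟩
  have h3 := Finset.card_biUnion_le_card_mul Z (fun p => K.filter (R p)) 1 fun p hp =>
    Finset.card_le_one.2 fun k hk k' hk' =>
      h p hp k (Finset.mem_filter.1 hk).1 k' (Finset.mem_filter.1 hk').1
        (Finset.mem_filter.1 hk).2 (Finset.mem_filter.1 hk').2
  have h4 := Finset.card_le_card h2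
  omega

lemma pick_old {A : Finset ℕ} {N K : ℕ} (hA : A ⊆ Finset.range N) (hc : N < A.card + K)
    {α β s : ℝ} (hβ : 0 < β) (h1 : α ≤ s) (h2 : s + (K + 1) * β ≤ α + N * β) :
    ∃ i ∈ A, s ≤ α + i * β ∧ α + (i + 1) * β ≤ s + (K + 1) * β := by
  set i0 := ⌈(s - α) / β⌉₊ with hi0
  have a1 : (s - α) / β ≤ i0 := Nat.le_ceil _
  have a2 : (i0 : ℝ) < (s - α) / β + 1 := Nat.ceil_lt_add_one (div_nonneg (by linarith) hβ.le)
  rw [div_le_iff₀ hβ] at a1
  have a2' : (i0 : ℝ) * β < s - α + β := by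
    have := mul_lt_mul_of_pos_right a2 hβ
    rwa [add_mul, div_mul_cancel₀ _ hβ.ne', one_mul] at this
  have a3 : i0 + K ≤ N := by
    have : ((i0 : ℝ) + K) * β < N * β := by nlinarith
    have : (i0 : ℝ) + K < N := lt_of_mul_lt_mul_right this hβ.le
    have : i0 + K < N := by exact_mod_cast this
    omega
  by_contra hcon
  have hd : Disjoint A (Finset.Ico i0 (i0 + K)) := by
    rw [Finset.disjoint_left]
    intro i hi hi'
    rw [Finset.mem_Ico] at hi'
    apply hcon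
    have b1 : (i0 : ℝ) ≤ i := by exact_mod_cast hi'.1
    have b2 : (i : ℝ) + 1 ≤ i0 + K := by exact_mod_cast hi'.2
    exact ⟨i, hi, by nlinarith, by nlinarith⟩
  have hsub : A ∪ Finset.Ico i0 (i0 + K) ⊆ Finset.range N := by
    refine Finset.union_subset hA fun i hi => ?_
    rw [Finset.mem_Ico] at hi
    exact Finset.mem_range.2 (by omega)
  have := Finset.card_le_card hsub
  rw [Finset.card_union_of_disjoint hd] at this
  simp at this
  omega

end Pool.Agent.MP_09de6b_co.Low
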