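import Pool.Agent.MP_09de6b_co.LowChip

/-! One cycle of Maker's local strategy. -/

namespace Pool.Agent.MP_09de6b_co.Low

open scoped Classical Topology

lemma new_slot {M S M' S' Z : Finset Pt} {U : Set Pt} {w y : Pt} {A : Finset ℕ} {O : ℕ → Slot}
    {α β lo : ℝ} {N K l : ℕ} {e0 : Bool} (hβ : 0 < β)
    (hA : ∀ i ∈ A, size (O i) = l ∧ Alive M S U (α + i * β) (α + (i + 1) * β) (O i) ∧
      ∀ p ∈ Z, ¬ Kill w p (O i))
    (hAN : A ⊆ Finset.range N) (hc : N < A.card + K) (hw : w ∈ U) (hy : y ∈ U) (hM : M ⊆ M')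
    (hyM : y ∈ M') (hs : 0 < sg e0 * (y.2 - w.2)) (h1 : α ≤ lo)
    (h2 : lo + (K + 1) * β ≤ α + N * β) (h3 : lo ≤ sl w y) (h4 : sl w y ≤ lo + (K + 1) * β)
    (hS : ∀ p ∈ S', p ∈ S ∨ p ∈ Z) (hZ : ∀ p ∈ Z, p.2 ≠ w.2) :
    ∃ C : Slot, size C = l + 1 ∧
      (∀ e, ∀ c ∈ C e, c ∈ M' ∧ (c = y ∨ (lo < sl w c ∧ sl w c < lo + (K + 1) * β))) ∧
      (∀ p ∈ Z, Kill w p C → p ≠ y ∧ 0 < sg e0 * (p.2 - w.2) ∧ lo ≤ sl w p ∧
        sl w p ≤ lo + (K + 1) * β) ∧
      ∀ a' b', a' < lo → lo + (K + 1) * β < b' → (∀ p ∈ Z, ¬ Kill w p C) →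
        Alive M' S' {w} a' b' C := by
  obtain ⟨i, hi, i1, i2⟩ := pick_old hAN hc hβ h1 h2
  obtain ⟨a1, a2, a3⟩ := hA i hi
  have hsl : ∀ e, ∀ c ∈ O i e, lo < sl w c ∧ sl w c < lo + (K + 1) * β := by
    intro e c hc
    obtain ⟨-, b1, b2⟩ := (a2 e).2.1 w hw c hc
    exact ⟨by linarith, by linarith⟩
  refine ⟨up (O i) e0 y, ?_, ?_, ?_, ?_⟩
  · rw [size_up, a1]
    intro hc
    exact a2.ne hy hc rfl
  · intro e c hc
    rcases mem_up.1 hc with hc | ⟨-, rfl⟩
    · exact ⟨hM ((a2 e).1 hc), Or.inr (hsl e c hc)⟩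
    · exact ⟨hyM, Or.inl rfl⟩
  · intro p hp hk
    exact kill_up (fun e c hc => ⟨(hsl e c hc).1.le, (hsl e c hc).2.le⟩) ⟨h3, h4⟩ hk (a3 p hp)
  · intro a' b' ha' hb' hk
    refine promote a2 hw hy hM hyM hs (by linarith) (by linarith) (by linarith) (by linarith)
      fun p hp => ?_
    rcases hS p hp with h | h
    · exact Or.inl h
    · exact Or.inr ⟨hZ p h, hk p h⟩

lemma Alive.widen {M S : Finset Pt} {W : Set Pt} {a b a' b' : ℝ} {C : Slot}
    (h : Alive M S W a b C) (ha : a' ≤ a) (hb : b ≤ b') : Alive M S W a' b' C := by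
  intro e
  refine ⟨(h e).1, fun w hw c hc => ?_, (h e).2.2⟩
  obtain ⟨a1, a2, a3⟩ := (h e).2.1 w hw c hc
  exact ⟨a1, by linarith, by linarith⟩

lemma cell_eq {α β s : ℝ} (hβ : 0 < β) {i j : ℕ} (h1 : α + i * β < s) (h2 : s < α + (i + 1) * β)
    (h3 : α + j * β < s) (h4 : s < α + (j + 1) * β) : i = j := by
  have a1 : (i : ℝ) < j + 1 := by
    by_contra hc
    push Not at hc
    nlinarith
  have a2 : (j : ℝ) < i + 1 := by
    by_contra hc
    push Not at hc
    nlinarith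
  have b1 : i < j + 1 := by exact_mod_cast a1
  have b2 : j < i + 1 := by exact_mod_cast a2
  omega

/-- `N` slots of size `l` in consecutive equal slope intervals at a common apex in `D`. -/
def Unif (D : Set Pt) (l N : ℕ) (M S : Finset Pt) : Prop :=
  ∃ w ∈ D, ∃ α β : ℝ, 0 < β ∧
    ∀ i < N, ∃ C, size C = l ∧ Alive M S {w} (α + i * β) (α + (i + 1) * β) C

/-- Index of a promoted slot: group, point, side. -/
abbrev Idx : Type := ℕ × ℕ × Bool

/-- The state after `c` cycles, valid for all apexes in `W`. -/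
def StOn (W : Set Pt) (l m K : ℕ) (α β : ℝ) (O : ℕ → Slot) (c : ℕ) (M S : Finset Pt)
    (A : Finset ℕ) (F : Finset Idx) (Nw : Idx → Slot) : Prop :=
  A ⊆ Finset.range (m * ((2 * m + 2) * (4 * (K + 1)))) ∧
    m * ((2 * m + 2) * (4 * (K + 1))) ≤ A.card + 3 * m * c ∧
    (∀ i ∈ A, size (O i) = l ∧ Alive M S W (α + i * β) (α + (i + 1) * β) (O i)) ∧
    F ⊆ Finset.range m ×ˢ Finset.range m ×ˢ Finset.univ ∧ c ≤ F.card ∧
    (∀ k ∈ F, size (Nw k) = l + 1 ∧
      Alive M S W (α + k.1 * ((2 * m + 2) * (4 * ((K + 1) * β))))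
        (α + (k.1 + 1) * ((2 * m + 2) * (4 * ((K + 1) * β)))) (Nw k)) ∧
    ∀ k ∈ F, ∀ k' ∈ F, k ≠ k' → Ord W (Nw k) (Nw k') ∨ Ord W (Nw k') (Nw k)

/-- The state after `c` cycles. -/
def St (D : Set Pt) (l m K : ℕ) (α β : ℝ) (O : ℕ → Slot) (c : ℕ) (M S : Finset Pt) : Prop :=
  ∃ w ∈ D, ∃ A F Nw, StOn {w} l m K α β O c M S A F Nw

lemma stOn_zoom {w : Pt} {l m K : ℕ} {α β : ℝ} {O : ℕ → Slot} {c : ℕ} {M S : Finset Pt}
    {A : Finset ℕ} {F : Finset Idx} {Nw : Idx → Slot} (h : StOn {w} l m K α β O c M S A F Nw) :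
    ∀ᶠ U in (𝓝 w).smallSets, StOn U l m K α β O c M S A F Nw := by
  obtain ⟨h1, h2, h3, h4, h5, h6, h7⟩ := h
  refine (Filter.Eventually.of_forall fun _ => h1).and
    ((Filter.Eventually.of_forall fun _ => h2).and (Filter.Eventually.and ?_
    ((Filter.Eventually.of_forall fun _ => h4).and ((Filter.Eventually.of_forall fun _ => h5).and
    (Filter.Eventually.and ?_ ?_)))))
  · rw [Filter.eventually_all_finset]
    exact fun i hi => (alive_zoom (h3 i hi).2).mono fun U hU => ⟨(h3 i hi).1, hU⟩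
  · rw [Filter.eventually_all_finset]
    exact fun i hi => (alive_zoom (h6 i hi).2).mono fun U hU => ⟨(h6 i hi).1, hU⟩
  · rw [Filter.eventually_all_finset]
    intro k hk
    rw [Filter.eventually_all_finset]
    intro k' hk'
    by_cases hkk : k = k'
    · exact Filter.Eventually.of_forall fun _ h => absurd hkk h
    · have n1 : ∀ e, ∀ c ∈ Nw k e, c.2 ≠ w.2 := fun e c hc => (h6 k hk).2.ne rfl hc
      have n2 : ∀ e, ∀ c ∈ Nw k' e, c.2 ≠ w.2 := fun e c hc => (h6 k' hk').2.ne rfl hc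
      rcases h7 k hk k' hk' hkk with h | h
      · exact (ord_zoom n1 n2 h).mono fun _ h _ => Or.inl h
      · exact (ord_zoom n2 n1 h).mono fun _ h _ => Or.inr h

/-- What one location on the arc offers after the `m` moves of a cycle. -/
lemma location {U : Set Pt} {l m K : ℕ} {α β : ℝ} {O : ℕ → Slot} {c : ℕ}
    {M S M' S' B : Finset Pt} {A : Finset ℕ} {F : Finset Idx} {Nw : Idx → Slot} (hβ : 0 < β)
    (hK : 3 * m * (c + 1) < K) (h : StOn U l m K α β O c M S A F Nw) {g : ℕ} (hgm : g < m)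
    (hg : ∀ k ∈ F, k.1 ≠ g) {w0 : Pt} {lam σ κ : ℝ} (hl : 0 < lam) (hκ : κ = 4 * ((K + 1) * β))
    (hσ : σ = α + g * ((2 * m + 2) * κ))
    (hU : ∀ x, 0 ≤ x → x ≤ (m : ℝ) + 1 → arc w0 lam σ κ x ∈ U) {t : ℕ → ℝ}
    (ht : ∀ j < m, (j : ℝ) + 1 < t j ∧ t j < j + 1 + 1 / 8) (hB : B.card ≤ 2 * m) (hM : M ⊆ M')
    (hy : ∀ j < m, arc w0 lam σ κ (t j) ∈ M')
    (hS : ∀ p ∈ S', p ∈ S ∨ p ∈ B ∨ ∃ j < m, p = arc w0 lam σ κ (t j))
    {x : ℝ} (hx0 : 0 ≤ x) (hx1 : x ≤ (m : ℝ) + 1) (hgen : Gen (M' ∪ B) (arc w0 lam σ κ x)) :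
    ((∀ p ∈ B, ∀ j < m, p ≠ arc w0 lam σ κ (t j) →
        ¬ (|hh w0 lam p + ee w0 lam σ κ p / (hh w0 lam p - x) - t j| ≤ 1 / 4 ∧
          0 < (hh w0 lam p - x) * (t j - x))) →
      ∀ j < m, ∃ C, size C = l + 1 ∧ Alive M' S' {arc w0 lam σ κ x} (σ + κ * (x + 1 / 2) + j * κ)
        (σ + κ * (x + 1 / 2) + (j + 1) * κ) C) ∧
    (∀ b ∈ B, ∀ j < m, |hh w0 lam b + ee w0 lam σ κ b / (hh w0 lam b - x) - t j| < 1 / 2 →
      ¬ (|hh w0 lam b + ee w0 lam σ κ b / (hh w0 lam b - x) - t j| ≤ 1 / 4 ∧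
          0 < (hh w0 lam b - x) * (t j - x)) →
      ∃ A' F' Nw', StOn {arc w0 lam σ κ x} l m K α β O (c + 1) M' S' A' F' Nw') := by
  obtain ⟨h1, h2, h3, h4, h5, h6, h7⟩ := h
  set w := arc w0 lam σ κ x with hw
  set N := m * ((2 * m + 2) * (4 * (K + 1))) with hN
  set y : ℕ → Pt := fun j => arc w0 lam σ κ (t j) with hydef
  set ψ : Pt → ℝ := fun p => hh w0 lam p + ee w0 lam σ κ p / (hh w0 lam p - x) with hψ
  set Y := (Finset.range m).image y with hY
  set Z := Y ∪ B with hZ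
  have hq : 0 < ((K : ℝ) + 1) * β := by positivity
  have hκ0 : 0 < κ := by rw [hκ]; positivity
  have hm0 : (0 : ℝ) ≤ m := Nat.cast_nonneg m
  have hwU : w ∈ U := hU x hx0 hx1
  have hjm : ∀ j < m, (j : ℝ) + 1 ≤ m := fun j hj => by exact_mod_cast hj
  have hj0 : ∀ j : ℕ, (0 : ℝ) ≤ j := fun j => Nat.cast_nonneg j
  have hyU : ∀ j < m, y j ∈ U := fun j hj =>
    hU _ (by linarith [(ht j hj).1, hj0 j]) (by linarith [(ht j hj).2, hjm j hj])
  have hZT : Z ⊆ M' ∪ B := by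
    refine Finset.union_subset_union_left fun p hp => ?_
    obtain ⟨j, hj, rfl⟩ := Finset.mem_image.1 hp
    exact hy j (Finset.mem_range.1 hj)
  have hZ2 : ∀ p ∈ Z, p.2 ≠ w.2 := fun p hp => (hgen p (hZT hp)).1
  have hsnd : ∀ p : Pt, p.2 - w.2 = lam * (hh w0 lam p - x) := fun p => snd_sub_arc hl.ne' p x
  have hslope : ∀ p ∈ Z, sl w p = σ + κ * (x + ψ p) := by
    intro p hp
    refine sl_arc hl.ne' hκ0.ne' p fun h0 => hZ2 p hp ?_
    have := hsnd p
    rw [h0, sub_self, mul_zero] at this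
    linarith
  have hyZ : ∀ j < m, y j ∈ Z := fun j hj =>
    Finset.mem_union_left _ (Finset.mem_image_of_mem _ (Finset.mem_range.2 hj))
  have hψy : ∀ j, ψ (y j) = t j := by
    intro j
    simp only [hψ, hydef, hh_arc hl.ne', ee_arc hl.ne' hκ0.ne', zero_div, add_zero]
  have hhy : ∀ j, hh w0 lam (y j) = t j := fun j => hh_arc hl.ne' _
  have hSZ : ∀ p ∈ S', p ∈ S ∨ p ∈ Z := by
    intro p hp
    rcases hS p hp with h | h | ⟨j, hj, h⟩
    · exact Or.inl h
    · exact Or.inr (Finset.mem_union_right _ h)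
    · exact Or.inr (h ▸ hyZ j hj)
  have hZc : Z.card ≤ 3 * m := by
    have a1 : Z.card ≤ Y.card + B.card := Finset.card_union_le Y B
    have a2 : Y.card ≤ m := by simpa using Finset.card_image_le (s := Finset.range m) (f := y)
    omega
  -- surviving old slots
  set A' := A.filter fun i => ∀ p ∈ Z, ¬ Kill w p (O i) with hA'
  have hA'c : A.card ≤ A'.card + Z.card := by
    refine card_survive A Z (fun p i => Kill w p (O i)) fun p _ i hi j hj k1 k2 => ?_
    obtain ⟨a1, a2⟩ := kill_mem (h3 i hi).2 hwU k1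
    obtain ⟨a3, a4⟩ := kill_mem (h3 j hj).2 hwU k2
    exact cell_eq hβ a1 a2 a3 a4
  have hA'N : A' ⊆ Finset.range N := (Finset.filter_subset _ _).trans h1
  have hA'le : N ≤ A'.card + 3 * m * (c + 1) := by nlinarith
  have hA'1 : ∀ i ∈ A', size (O i) = l ∧ Alive M S U (α + i * β) (α + (i + 1) * β) (O i) ∧
      ∀ p ∈ Z, ¬ Kill w p (O i) := fun i hi =>
    ⟨(h3 i (Finset.mem_filter.1 hi).1).1, (h3 i (Finset.mem_filter.1 hi).1).2,
      (Finset.mem_filter.1 hi).2⟩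
  -- new slots
  have hNr : (N : ℝ) * β = m * ((2 * m + 2) * κ) := by rw [hN, hκ]; push_cast; ring
  have hgr : (g : ℝ) + 1 ≤ m := by exact_mod_cast hgm
  have hG0 : 0 < (2 * (m : ℝ) + 2) * κ := by positivity
  have hσ1 : α ≤ σ := by rw [hσ]; nlinarith [hj0 g]
  have hσ2 : σ + (2 * m + 2) * κ ≤ α + N * β := by rw [hNr, hσ]; nlinarith
  set lo : ℕ → Bool → ℝ := fun j s => σ + κ * (x + t j) - (if s then 0 else κ / 4) with hlo
  have hlo1 : ∀ j s, σ + κ * (x + t j) - κ / 4 ≤ lo j s ∧ lo j s ≤ σ + κ * (x + t j) := by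
    intro j s
    cases s <;> simp only [hlo] <;> simp <;> linarith
  have hnew : ∀ j (s : Bool), ∃ C : Slot, j < m → size C = l + 1 ∧
      (∀ e, ∀ c ∈ C e, c ∈ M' ∧ (c = y j ∨ (lo j s < sl w c ∧ sl w c < lo j s + κ / 4))) ∧
      (∀ p ∈ Z, Kill w p C → p ≠ y j ∧ |ψ p - t j| ≤ 1 / 4 ∧
        0 < (hh w0 lam p - x) * (t j - x)) ∧
      ((∀ p ∈ Z, ¬ Kill w p C) → Alive M' S' {w} (σ + κ * (x + 1 / 2) + j * κ)
        (σ + κ * (x + 1 / 2) + (j + 1) * κ) C) := by
    intro j s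
    by_cases hj : j < m
    swap
    · exact ⟨fun _ => ∅, fun h => absurd h hj⟩
    obtain ⟨t1, t2⟩ := ht j hj
    obtain ⟨l1, l2⟩ := hlo1 j s
    have hq' : ((K : ℝ) + 1) * β = κ / 4 := by rw [hκ]; ring
    have hsy : sl w (y j) = σ + κ * (x + t j) := by rw [hslope _ (hyZ j hj), hψy]
    have hne : t j - x ≠ 0 := by
      intro h0
      apply hZ2 _ (hyZ j hj)
      have := hsnd (y j)
      rw [hhy, h0, mul_zero] at this
      linarith
    obtain ⟨e0, he0⟩ : ∃ e0, 0 < sg e0 * (t j - x) := by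
      rcases lt_or_gt_of_ne hne with h | h
      · exact ⟨false, by simp [sg]; linarith⟩
      · exact ⟨true, by simp [sg]; linarith⟩
    have hs : 0 < sg e0 * ((y j).2 - w.2) := by
      rw [hsnd, hhy]; nlinarith [mul_pos hl he0]
    have j1 := hjm j hj
    have j0 := hj0 j
    obtain ⟨C, c1, c2, c3, c4⟩ := new_slot (lo := lo j s) (K := K) hβ hA'1 hA'N (by omega) hwU
      (hyU j hj) hM (hy j hj) hs (by nlinarith) (by rw [hq']; nlinarith) (by rw [hsy]; exact l2)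
      (by rw [hsy, hq']; linarith) hSZ hZ2
    rw [hq'] at c2 c3 c4
    refine ⟨C, fun _ => ⟨c1, c2, fun p hp hk => ?_, fun hk => ?_⟩⟩
    · obtain ⟨d1, d2, d3, d4⟩ := c3 p hp hk
      rw [hslope p hp] at d3 d4
      refine ⟨d1, abs_le.2 ⟨?_, ?_⟩, ?_⟩
      · by_contra hc
        push Not at hc
        nlinarith
      · by_contra hc
        push Not at hc
        nlinarith
      · rw [hsnd] at d2
        have d5 : 0 < sg e0 * (hh w0 lam p - x) := by
          by_contra hc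
          push Not at hc
          nlinarith [mul_nonneg hl.le (neg_nonneg.2 hc)]
        have := mul_pos d5 he0
        have e2 := sg_mul_self e0
        have : sg e0 * (hh w0 lam p - x) * (sg e0 * (t j - x)) =
            (sg e0 * sg e0) * ((hh w0 lam p - x) * (t j - x)) := by ring
        rw [e2] at this
        linarith
    · exact c4 _ _ (by nlinarith) (by nlinarith) hk
  choose Nn hNn using hnew
  have htsep : ∀ i < m, ∀ j < m, i < j → t i + 7 / 8 < t j := by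
    intro i hi j hj hij
    have : (i : ℝ) + 1 ≤ j := by exact_mod_cast hij
    linarith [(ht i hi).2, (ht j hj).1]
  have hclose : ∀ i < m, ∀ j < m, |t i - t j| < 7 / 8 → i = j := by
    intro i hi j hj h
    rw [abs_lt] at h
    rcases lt_trichotomy i j with hij | hij | hij
    · linarith [htsep i hi j hj hij]
    · exact hij
    · linarith [htsep j hj i hi hij]
  have hYnew : ∀ j < m, ∀ s, ∀ p ∈ Y, ¬ Kill w p (Nn j s) := by
    intro j hj s p hp hk
    obtain ⟨d1, d2, -⟩ := (hNn j s hj).2.2.1 p (Finset.mem_union_left _ hp) hk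
    obtain ⟨i, hi, rfl⟩ := Finset.mem_image.1 hp
    rw [hψy] at d2
    exact d1 (by rw [hclose i (Finset.mem_range.1 hi) j hj (by linarith)])
  refine ⟨fun hno j hj => ⟨Nn j true, (hNn j true hj).1, (hNn j true hj).2.2.2 fun p hp hk => ?_⟩,
    fun b hb j0 hj0' hb1 hb2 => ?_⟩
  · rcases Finset.mem_union.1 hp with hp' | hp'
    · exact hYnew j hj true p hp' hk
    · obtain ⟨d1, d2⟩ := (hNn j true hj).2.2.1 p hp hk
      exact hno p hp' j hj d1 d2
  -- the dodging case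
  set γ := (2 * (m : ℝ) + 2) * (4 * ((K + 1) * β)) with hγ
  have hγκ : γ = (2 * m + 2) * κ := by rw [hγ, hκ]
  have hγ0 : 0 < γ := by rw [hγκ]; exact hG0
  have hinh : ∀ k ∈ F, ∀ p, Kill w p (Nw k) → ¬ (σ < sl w p ∧ sl w p < σ + γ) := by
    rintro k hk p hkill ⟨a1, a2⟩
    obtain ⟨a3, a4⟩ := kill_mem (h6 k hk).2 hwU hkill
    refine hg k hk (cell_eq hγ0 a3 a4 (j := g) ?_ ?_)
    · rw [hγκ, ← hσ]; exact a1
    · rw [hσ, ← hγκ] at a2; linarith
  have hin : ∀ p ∈ Z, ∀ j < m, |ψ p - t j| < 1 / 2 → σ < sl w p ∧ sl w p < σ + γ := by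
    intro p hp j hj h
    rw [abs_lt] at h
    rw [hslope p hp, hγκ]
    have := ht j hj
    have := hjm j hj
    have := hj0 j
    constructor <;> nlinarith
  set Nw' : Idx → Slot := fun k => if k.1 = g then Nn k.2.1 k.2.2 else Nw k with hNw'
  set Kn : Finset Idx := {g} ×ˢ Finset.range m ×ˢ Finset.univ with hKn
  have hKnm : ∀ k ∈ Kn, k.1 = g ∧ k.2.1 < m := by
    intro k hk
    rw [hKn, Finset.mem_product, Finset.mem_product, Finset.mem_singleton, Finset.mem_range] at hk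
    exact ⟨hk.1, hk.2.1⟩
  have hNwF : ∀ k ∈ F, Nw' k = Nw k := fun k hk => by simp [hNw', hg k hk]
  have hNwK : ∀ k ∈ Kn, Nw' k = Nn k.2.1 k.2.2 := fun k hk => by simp [hNw', (hKnm k hk).1]
  have hdisj : Disjoint F Kn := Finset.disjoint_left.2 fun k hk hk' => hg k hk (hKnm k hk').1
  have hcard : (F ∪ Kn).card = F.card + 2 * m := by
    rw [Finset.card_union_of_disjoint hdisj]
    simp [hKn]; ring
  have hslN : ∀ j < m, ∀ s e, ∀ c ∈ Nn j s e, lo j s ≤ sl w c ∧ sl w c ≤ lo j s + κ / 4 ∧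
      (c = y j ∨ (lo j s < sl w c ∧ sl w c < lo j s + κ / 4)) := by
    intro j hj s e c hc
    have := ((hNn j s hj).2.1 e c hc).2
    refine ⟨?_, ?_, this⟩
    · rcases this with rfl | h
      · rw [hslope _ (hyZ j hj), hψy]; exact (hlo1 j s).2
      · exact h.1.le
    · rcases this with rfl | h
      · rw [hslope _ (hyZ j hj), hψy]; linarith [(hlo1 j s).1]
      · exact h.2.le
  have hslN' : ∀ j < m, ∀ s e, ∀ c ∈ Nn j s e, σ < sl w c ∧ sl w c < σ + γ := by
    intro j hj s e c hc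
    obtain ⟨a1, a2, -⟩ := hslN j hj s e c hc
    obtain ⟨l1, l2⟩ := hlo1 j s
    have := ht j hj
    have := hjm j hj
    have := hj0 j
    rw [hγκ]
    constructor <;> nlinarith
  have hFN : ∀ k ∈ F, ∀ j < m, ∀ s, Ord {w} (Nw k) (Nn j s) ∨ Ord {w} (Nn j s) (Nw k) := by
    intro k hk j hj s
    rcases lt_or_gt_of_ne (hg k hk) with hlt | hlt
    · left
      rintro _ rfl e e' c hc c' hc'
      have a1 := ((h6 k hk).2 e).2.1 w hwU c hc
      have a2 := hslN' j hj s e' c' hc'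
      have : (k.1 : ℝ) + 1 ≤ g := by exact_mod_cast hlt
      left
      rw [hσ, ← hγκ] at a2
      nlinarith [a1.2.2, a2.1]
    · right
      rintro _ rfl e e' c hc c' hc'
      have a1 := ((h6 k hk).2 e').2.1 w hwU c' hc'
      have a2 := hslN' j hj s e c hc
      have : (g : ℝ) + 1 ≤ k.1 := by exact_mod_cast hlt
      left
      rw [hσ, ← hγκ] at a2
      nlinarith [a1.2.1, a2.2]
  have hNN1 : ∀ i < m, ∀ j < m, i < j → ∀ s s', Ord {w} (Nn i s) (Nn j s') := by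
    rintro i hi j hj hij s s' _ rfl e e' c hc c' hc'
    obtain ⟨-, a2, -⟩ := hslN i hi s e c hc
    obtain ⟨a1, -, -⟩ := hslN j hj s' e' c' hc'
    have := htsep i hi j hj hij
    left
    nlinarith [(hlo1 i s).2, (hlo1 j s').1]
  have hNN2 : ∀ j < m, Ord {w} (Nn j false) (Nn j true) := by
    rintro j hj _ rfl e e' c hc c' hc'
    obtain ⟨-, a2, a3⟩ := hslN j hj false e c hc
    obtain ⟨a1, -, a4⟩ := hslN j hj true e' c' hc'
    have e1 : lo j false + κ / 4 = lo j true := by simp [hlo]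
    rcases a3 with a3 | a3
    · rcases a4 with a4 | a4
      · exact Or.inr (a3.trans a4.symm)
      · left; linarith [a4.1]
    · left; linarith [a3.2]
  have hOrd : ∀ k ∈ F ∪ Kn, ∀ k' ∈ F ∪ Kn, k ≠ k' →
      Ord {w} (Nw' k) (Nw' k') ∨ Ord {w} (Nw' k') (Nw' k) := by
    intro k hk k' hk' hkk
    have hwU' : ({w} : Set Pt) ⊆ U := Set.singleton_subset_iff.2 hwU
    rcases Finset.mem_union.1 hk with hk | hk <;> rcases Finset.mem_union.1 hk' with hk' | hk'
    · rw [hNwF k hk, hNwF k' hk']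
      exact (h7 k hk k' hk' hkk).imp (fun h => h.mono hwU') fun h => h.mono hwU'
    · rw [hNwF k hk, hNwK k' hk']
      exact hFN k hk _ (hKnm k' hk').2 _
    · rw [hNwK k hk, hNwF k' hk']
      exact (hFN k' hk' _ (hKnm k hk).2 _).symm
    · rw [hNwK k hk, hNwK k' hk']
      obtain ⟨g1, i, s⟩ := k
      obtain ⟨g2, j, s'⟩ := k'
      obtain ⟨rfl, hi⟩ := hKnm _ hk
      obtain ⟨e2, hj⟩ := hKnm _ hk'
      simp only at e2 hi hj ⊢
      subst e2
      rcases lt_trichotomy i j with hij | hij | hij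
      · exact Or.inl (hNN1 i hi j hj hij s s')
      · subst hij
        cases s <;> cases s'
        · exact absurd rfl hkk
        · exact Or.inl (hNN2 i hi)
        · exact Or.inr (hNN2 i hi)
        · exact absurd rfl hkk
      · exact Or.inr (hNN1 j hj i hi hij s' s)
  have hMem : ∀ k ∈ F ∪ Kn, ∀ e, ∀ c ∈ Nw' k e, c ∈ M' := by
    intro k hk e c hc
    rcases Finset.mem_union.1 hk with hk | hk
    · rw [hNwF k hk] at hc
      exact hM (((h6 k hk).2 e).1 hc)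
    · rw [hNwK k hk] at hc
      exact ((hNn _ _ (hKnm k hk).2).2.1 e c hc).1
  have hbZ : b ∈ Z := Finset.mem_union_right _ hb
  have hfree : ∀ k ∈ F ∪ Kn, ∀ p ∈ Z, p ∉ B.erase b → ¬ Kill w p (Nw' k) := by
    intro k hk p hp hpb hkill
    have hp' : p ∈ Y ∨ p = b := by
      rcases Finset.mem_union.1 hp with h | h
      · exact Or.inl h
      · by_contra hc
        push Not at hc
        exact hpb (Finset.mem_erase.2 ⟨hc.2, h⟩)
    rcases Finset.mem_union.1 hk with hk | hk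
    · rw [hNwF k hk] at hkill
      refine hinh k hk p hkill ?_
      rcases hp' with h | rfl
      · obtain ⟨i, hi, rfl⟩ := Finset.mem_image.1 h
        exact hin _ hp i (Finset.mem_range.1 hi) (by rw [hψy]; simp)
      · exact hin _ hp j0 hj0' hb1
    · rw [hNwK k hk] at hkill
      rcases hp' with h | rfl
      · exact hYnew _ (hKnm k hk).2 _ p h hkill
      · obtain ⟨-, d2, d3⟩ := (hNn _ _ (hKnm k hk).2).2.2.1 p hp hkill
        have : k.2.1 = j0 := by
          refine hclose _ (hKnm k hk).2 _ hj0' ?_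
          have hb1' : |ψ p - t j0| < 1 / 2 := hb1
          rw [abs_lt] at hb1' ⊢
          rw [abs_le] at d2
          constructor <;> linarith [d2.1, d2.2, hb1'.1, hb1'.2]
        rw [this] at d2 d3
        exact hb2 ⟨d2, d3⟩
  set F' := (F ∪ Kn).filter fun k => ∀ p ∈ B.erase b, ¬ Kill w p (Nw' k) with hF'
  have hF'c : (F ∪ Kn).card ≤ F'.card + (B.erase b).card := by
    refine card_survive (F ∪ Kn) (B.erase b) (fun p k => Kill w p (Nw' k))
      fun p hp k hk k' hk' k1 k2 => ?_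
    by_contra hkk
    have hpT : p ∈ M' ∪ B := Finset.mem_union_right _ (Finset.mem_of_mem_erase hp)
    rcases hOrd k hk k' hk' hkk with h | h
    · exact kill_unique h (fun e c hc hcp =>
        (hgen c (Finset.mem_union_left _ (hMem k hk e c hc))).2 p hpT hcp) k1 k2
    · exact kill_unique h (fun e c hc hcp =>
        (hgen c (Finset.mem_union_left _ (hMem k' hk' e c hc))).2 p hpT hcp) k2 k1
  have hF'all : ∀ k ∈ F', ∀ p ∈ Z, ¬ Kill w p (Nw' k) := by
    intro k hk p hp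
    by_cases hpb : p ∈ B.erase b
    · exact (Finset.mem_filter.1 hk).2 p hpb
    · exact hfree k (Finset.mem_filter.1 hk).1 p hp hpb
  refine ⟨A', F', Nw', hA'N, hA'le, fun i hi => ⟨(hA'1 i hi).1, ?_⟩, ?_, ?_, ?_, ?_⟩
  · refine survive (hA'1 i hi).2.1 hwU hM fun p hp => ?_
    rcases hSZ p hp with h | h
    · exact Or.inl h
    · exact Or.inr ⟨hZ2 p h, (hA'1 i hi).2.2 p h⟩
  · refine (Finset.filter_subset _ _).trans (Finset.union_subset h4 fun k hk => ?_)
    obtain ⟨a1, a2⟩ := hKnm k hk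
    simp [a1, a2, hgm]
  · have := Finset.card_erase_add_one hb
    omega
  · intro k hk
    have hall := hF'all k hk
    rcases Finset.mem_union.1 (Finset.mem_filter.1 hk).1 with hk' | hk'
    · rw [hNwF k hk'] at hall ⊢
      refine ⟨(h6 k hk').1, survive (h6 k hk').2 hwU hM fun p hp => ?_⟩
      rcases hSZ p hp with h | h
      · exact Or.inl h
      · exact Or.inr ⟨hZ2 p h, hall p h⟩
    · rw [hNwK k hk'] at hall ⊢
      obtain ⟨a1, a2⟩ := hKnm k hk'
      refine ⟨(hNn _ _ a2).1, ((hNn _ _ a2).2.2.2 hall).widen ?_ ?_⟩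
      · rw [a1, ← hγ, hγκ, ← hσ]
        have := mul_nonneg hκ0.le (hj0 k.2.1)
        have := mul_nonneg hκ0.le hx0
        linarith
      · rw [a1, ← hγ, hγκ]
        have := mul_le_mul_of_nonneg_left (hjm _ a2) hκ0.le
        have := mul_le_mul_of_nonneg_left hx1 hκ0.le
        linarith
  · intro k hk k' hk' hkk
    exact hOrd k (Finset.mem_filter.1 hk).1 k' (Finset.mem_filter.1 hk').1 hkk

end Pool.Agent.MP_09de6b_co.Low
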