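import Pool.Agent.MP_09de6b_co.Defs

/-! Bounded local games against two blockers per round, and their parallel play. -/

namespace Pool.Agent.MP_09de6b_co.Low

open scoped Classical

/-- The slope (horizontal over vertical) of `p` seen from `w`. -/
noncomputable def sl (w p : Pt) : ℝ := (p.1 - w.1) / (p.2 - w.2)

/-- `w` is generic for `T`: different height from, and different slopes to, all points of `T`. -/
def Gen (T : Finset Pt) (w : Pt) : Prop :=
  ∀ p ∈ T, p.2 ≠ w.2 ∧ ∀ q ∈ T, p ≠ q → sl w p ≠ sl w q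

/-- `p` is strictly separated from `X` by a line. -/
def Out (p : Pt) (X : Set Pt) : Prop :=
  ∃ α β : ℝ, ∀ x ∈ X, α * p.1 + β * p.2 < α * x.1 + β * x.2

lemma Out.mono {p : Pt} {X Y : Set Pt} (h : Out p Y) (hXY : X ⊆ Y) : Out p X := by
  obtain ⟨α, β, h⟩ := h
  exact ⟨α, β, fun x hx => h x (hXY hx)⟩

lemma Out.notMem_hull {p : Pt} {X : Set Pt} (h : Out p X) : p ∉ convexHull ℝ X := by
  obtain ⟨α, β, h⟩ := h
  have hc : Convex ℝ {x : Pt | α * p.1 + β * p.2 < α * x.1 + β * x.2} := by
    intro x hx y hy a b ha hb hab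
    simp only [Set.mem_ofPred_eq, Prod.fst_add, Prod.snd_add, Prod.smul_fst, Prod.smul_snd,
      smul_eq_mul] at hx hy ⊢
    have hb' : b = 1 - a := by linarith
    subst hb'
    rcases eq_or_lt_of_le ha with h0 | h0
    · subst h0; nlinarith
    · nlinarith [mul_pos h0 (sub_pos.2 hx), mul_nonneg hb (sub_pos.2 hy).le]
  intro hp
  have : p ∈ {x : Pt | α * p.1 + β * p.2 < α * x.1 + β * x.2} :=
    convexHull_min (fun x hx => h x hx) hc hp
  rw [Set.mem_ofPred_eq] at this
  exact lt_irrefl _ this

lemma sl_eq_of_collinear {w a b : Pt} (h : Collinear ℝ ({w, a, b} : Set Pt))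
    (ha : a.2 ≠ w.2) (hb : b.2 ≠ w.2) : sl w a = sl w b := by
  rw [collinear_iff_of_mem (p₀ := w) (by simp)] at h
  obtain ⟨v, hv⟩ := h
  obtain ⟨r, hr⟩ := hv a (by simp)
  obtain ⟨r', hr'⟩ := hv b (by simp)
  have a1 : a.1 - w.1 = r * v.1 := by rw [hr]; simp
  have a2 : a.2 - w.2 = r * v.2 := by rw [hr]; simp
  have b1 : b.1 - w.1 = r' * v.1 := by rw [hr']; simp
  have b2 : b.2 - w.2 = r' * v.2 := by rw [hr']; simp
  have ha' : r * v.2 ≠ 0 := by rw [← a2]; exact sub_ne_zero.2 ha
  have hb' : r' * v.2 ≠ 0 := by rw [← b2]; exact sub_ne_zero.2 hb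
  unfold sl
  rw [a1, a2, b1, b2, div_eq_div_iff ha' hb']
  ring

lemma genPos_insert {S : Finset Pt} {p : Pt} (hS : GenPos S) (hp : Gen S p) :
    GenPos (insert p S) := by
  have key : ∀ a ∈ S, ∀ b ∈ S, a ≠ b → ¬ Collinear ℝ ({p, a, b} : Set Pt) := by
    intro a ha b hb hab hc
    exact (hp a ha).2 b hb hab (sl_eq_of_collinear hc (hp a ha).1 (hp b hb).1)
  intro a ha b hb c hc hab hac hbc
  rw [Finset.mem_insert] at ha hb hc
  rcases ha with rfl | ha
  · rcases hb with rfl | hb
    · exact absurd rfl hab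
    · rcases hc with rfl | hc
      · exact absurd rfl hac
      · exact key b hb c hc hbc
  · rcases hb with rfl | hb
    · rcases hc with rfl | hc
      · exact absurd rfl hbc
      · rw [Set.insert_comm]; exact key a ha c hc hac
    · rcases hc with rfl | hc
      · have : ({a, b, c} : Set Pt) = {c, a, b} := by
          ext x; simp only [Set.mem_insert_iff, Set.mem_singleton_iff]; tauto
        rw [this]; exact key a ha b hb hab
      · exact hS a ha b hb c hc hab hac hbc

/-- Maker, playing inside `D` against at most two blockers per round and avoiding any prescribed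
finite set of degeneracies, can force `Q` within `n` rounds. -/
def Force (D : Set Pt) (Q : Finset Pt → Finset Pt → Prop) : ℕ → Finset Pt → Finset Pt → Prop
  | 0, M, S => Q M S
  | n + 1, M, S => Q M S ∨ ∀ T : Finset Pt, ∃ p ∈ D, Gen T p ∧
      ∀ B : Finset Pt, B.card ≤ 2 → Force D Q n (insert p M) (insert p S ∪ B)

variable {D : Set Pt} {Q Q' : Finset Pt → Finset Pt → Prop}

lemma force_of {n : ℕ} {M S : Finset Pt} (h : Q M S) : Force D Q n M S := by
  cases n with
  | zero => exact h
  | succ n => exact Or.inl h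

lemma force_succ : ∀ {n : ℕ} {M S : Finset Pt}, Force D Q n M S → Force D Q (n + 1) M S
  | 0, _, _, h => Or.inl h
  | n + 1, _, _, h => by
    rcases h with h | h
    · exact Or.inl h
    · refine Or.inr fun T => ?_
      obtain ⟨p, hp, hg, h⟩ := h T
      exact ⟨p, hp, hg, fun B hB => force_succ (h B hB)⟩

lemma force_le {n n' : ℕ} (hn : n ≤ n') {M S : Finset Pt} (h : Force D Q n M S) :
    Force D Q n' M S := by
  induction hn with
  | refl => exact h
  | step _ ih => exact force_succ ih

lemma force_trans {n' : ℕ} (hQ : ∀ M S, Q M S → Force D Q' n' M S) :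
    ∀ {n : ℕ} {M S : Finset Pt}, Force D Q n M S → Force D Q' (n' + n) M S
  | 0, M, S, h => hQ M S h
  | n + 1, M, S, h => by
    rcases h with h | h
    · exact force_le (Nat.le_add_right _ _) (hQ M S h)
    · refine Or.inr fun T => ?_
      obtain ⟨p, hp, hg, h⟩ := h T
      exact ⟨p, hp, hg, fun B hB => force_trans hQ (h B hB)⟩

lemma force_mono (hQ : ∀ M S, Q M S → Q' M S) {n : ℕ} {M S : Finset Pt}
    (h : Force D Q n M S) : Force D Q' n M S := by
  have := force_trans (D := D) (n' := 0) (Q' := Q') hQ h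
  simpa using this

/-- Maker owns `k` points from which every placed point is separated. -/
def Win (k : ℕ) (M S : Finset Pt) : Prop :=
  ∃ H ⊆ M, H.card = k ∧ ∀ p ∈ S, Out p ((H : Set Pt) \ {p})

/-- The `i`-th arena. -/
def strip (i : ℕ) : Set Pt := {p | (i : ℝ) < p.1 ∧ p.1 < i + 1}

lemma strip_convex (i : ℕ) : Convex ℝ (strip i) := by
  intro x hx y hy a b ha hb hab
  simp only [strip, Set.mem_ofPred_eq, Prod.fst_add, Prod.smul_fst, smul_eq_mul] at hx hy ⊢
  have hb' : b = 1 - a := by linarith
  subst hb'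
  rcases eq_or_lt_of_le ha with h0 | h0
  · subst h0; constructor <;> nlinarith [hy.1, hy.2]
  · constructor
    · nlinarith [mul_pos h0 (sub_pos.2 hx.1), mul_nonneg hb (sub_pos.2 hy.1).le]
    · nlinarith [mul_pos h0 (sub_pos.2 hx.2), mul_nonneg hb (sub_pos.2 hy.2).le]

lemma strip_isOpen (i : ℕ) : IsOpen (strip i) :=
  (isOpen_lt continuous_const continuous_fst).inter (isOpen_lt continuous_fst continuous_const)

lemma strip_eq {i j : ℕ} {p : Pt} (hi : p ∈ strip i) (hj : p ∈ strip j) : i = j := by
  have h1 : (i : ℝ) < j + 1 := lt_trans hi.1 hj.2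
  have h2 : (j : ℝ) < i + 1 := lt_trans hj.1 hi.2
  have h1' : i < j + 1 := by exact_mod_cast h1
  have h2' : j < i + 1 := by exact_mod_cast h2
  omega

theorem parallel {k : ℕ} (hk : 1 ≤ k) {s : ℝ} (hs0 : 0 < s) (hs : s < 3) {n : ℕ}
    (h : ∀ i : ℕ, Force (strip i) (Win k) n ∅ ∅) : ¬ BreakerWins s k := by
  rintro ⟨σ, hσ⟩
  have hG : ∀ L, Legal σ L → GenPos (L.toFinset ∪ bpts σ L) := by
    intro L hL
    cases L with
    | nil => intro a ha; simp [bpts] at ha
    | cons p L => exact (hσ p L hL).2.2.2
  have hC : ∀ L, Legal σ L → (bpts σ L).card = ⌊s * (L.length : ℝ)⌋₊ := by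
    intro L hL
    cases L with
    | nil => simp [bpts]
    | cons p L => exact (hσ p L hL).2.1
  have hNo : ∀ L, Legal σ L → ∀ (i : ℕ) (M S : Finset Pt), M ⊆ L.toFinset →
      (∀ p ∈ M, p ∈ strip i) → (∀ p ∈ L.toFinset ∪ bpts σ L, p ∈ strip i → p ∈ S) →
      ¬ Win k M S := by
    rintro L hL i M S hM hMi hS ⟨H, hHM, hHk, hH⟩
    cases L with
    | nil =>
      have : H = ∅ := by
        have := hHM.trans hM
        simpa using this
      subst this
      simp at hHk; omega
    | cons p L =>
      refine (hσ p L hL).1 ⟨H, hHM.trans hM, ?_, hHk, ?_, ?_⟩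
      · exact (hHM.trans hM).trans Finset.subset_union_left
      · intro x hx
        exact (hH x (hS x (Finset.mem_union_left _ (hM (hHM hx))) (hMi x (hHM hx)))).notMem_hull
      · apply Set.Subset.antisymm
        · rintro z ⟨hz1, hz2⟩
          by_contra hzH
          have hzi : z ∈ strip i :=
            convexHull_min (fun x hx => hMi x (hHM hx)) (strip_convex i) hz1
          have hz3 : z ∈ (p :: L).toFinset ∪ bpts σ (p :: L) := by
            rcases Finset.mem_union.1 (Finset.mem_coe.1 hz2) with h | h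
            · exact Finset.mem_union_left _ h
            · exact Finset.mem_union_right _ (Finset.mem_union_left _ h)
          have := (hH z (hS z hz3 hzi)).notMem_hull
          rw [Set.sdiff_singleton_eq_self hzH] at this
          exact this hz1
        · intro z hz
          exact ⟨subset_convexHull ℝ _ hz,
            Finset.mem_coe.2 (Finset.mem_union_left _ (hM (hHM hz)))⟩
  have hstep : ∀ L, Legal σ L → ∀ p, Gen (L.toFinset ∪ bpts σ L) p → Legal σ (p :: L) := by
    intro L hL p hp
    exact ⟨hL, fun hm => (hp p hm).1 rfl, genPos_insert (hG L hL) hp⟩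
  have phase : ∀ (P : ℕ → Pt → Prop) (A : Finset ℕ),
      (∀ i ∈ A, ∀ T, ∃ p ∈ strip i, Gen T p ∧ P i p) → ∀ L, Legal σ L →
      ∃ L', Legal σ L' ∧ ∃ f : ℕ → Pt, L'.length = L.length + A.card ∧
        bpts σ L ⊆ bpts σ L' ∧ L.toFinset ⊆ L'.toFinset ∧
        (∀ i ∈ A, f i ∈ strip i ∧ P i (f i) ∧ f i ∈ L'.toFinset) ∧
        ∀ q ∈ L'.toFinset, q ∈ L.toFinset ∨ ∃ i ∈ A, q = f i := by
    intro P A
    induction A using Finset.induction_on with
    | empty =>
      intro _ L hL
      exact ⟨L, hL, fun _ => 0, by simp, subset_rfl, subset_rfl, by simp, fun q hq => Or.inl hq⟩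
    | insert j A hj ih =>
      intro hA L hL
      obtain ⟨L', hL', f, h1, h2, h3, h4, h5⟩ :=
        ih (fun i hi => hA i (Finset.mem_insert_of_mem hi)) L hL
      obtain ⟨p, hp, hg, hP⟩ := hA j (Finset.mem_insert_self _ _) (L'.toFinset ∪ bpts σ L')
      refine ⟨p :: L', hstep L' hL' p hg, Function.update f j p, ?_, ?_, ?_, ?_, ?_⟩
      · rw [Finset.card_insert_of_notMem hj, List.length_cons, h1]; ring
      · exact h2.trans Finset.subset_union_left
      · rw [List.toFinset_cons]; exact h3.trans (Finset.subset_insert _ _)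
      · intro i hi
        rcases Finset.mem_insert.1 hi with rfl | hi
        · simp [hp, hP]
        · have : i ≠ j := fun h => hj (h ▸ hi)
          rw [Function.update_of_ne this, List.toFinset_cons]
          exact ⟨(h4 i hi).1, (h4 i hi).2.1, Finset.mem_insert_of_mem (h4 i hi).2.2⟩
      · intro q hq
        rw [List.toFinset_cons, Finset.mem_insert] at hq
        rcases hq with rfl | hq
        · exact Or.inr ⟨j, Finset.mem_insert_self _ _, by simp⟩
        · rcases h5 q hq with h | ⟨i, hi, h⟩
          · exact Or.inl h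
          · have : i ≠ j := fun h => hj (h ▸ hi)
            exact Or.inr ⟨i, Finset.mem_insert_of_mem hi, by rw [Function.update_of_ne this, h]⟩
  have main : ∀ n : ℕ, ∃ a : ℕ, ∀ L, Legal σ L → ∀ A : Finset ℕ, a ≤ A.card →
      ∀ Ms Ss : ℕ → Finset Pt, (∀ i ∈ A, Ms i ⊆ L.toFinset ∧ (∀ p ∈ Ms i, p ∈ strip i) ∧
        (∀ p ∈ L.toFinset ∪ bpts σ L, p ∈ strip i → p ∈ Ss i) ∧
        Force (strip i) (Win k) n (Ms i) (Ss i)) → False := by
    intro n
    induction n with
    | zero =>
      refine ⟨1, fun L hL A hA Ms Ss h => ?_⟩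
      obtain ⟨i, hi⟩ := Finset.card_pos.1 hA
      obtain ⟨h1, h2, h3, h4⟩ := h i hi
      exact hNo L hL i _ _ h1 h2 h3 h4
    | succ n ih =>
      obtain ⟨a, ih⟩ := ih
      obtain ⟨a', ha'⟩ := exists_nat_ge ((3 * (a : ℝ) + 1) / (3 - s))
      refine ⟨a', fun L hL A hA Ms Ss h => ?_⟩
      have hmove : ∀ i ∈ A, ∀ T, ∃ p ∈ strip i, Gen T p ∧ ∀ B : Finset Pt, B.card ≤ 2 →
          Force (strip i) (Win k) n (insert p (Ms i)) (insert p (Ss i) ∪ B) := by
        intro i hi
        obtain ⟨h1, h2, h3, h4⟩ := h i hi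
        rcases h4 with h4 | h4
        · exact absurd h4 (hNo L hL i _ _ h1 h2 h3)
        · exact h4
      obtain ⟨L', hL', f, h1, h2, h3, h4, h5⟩ := phase _ A hmove L hL
      set N := bpts σ L' \ bpts σ L with hN
      have hNc : (N.card : ℝ) ≤ s * A.card + 1 := by
        have e1 : N.card + (bpts σ L).card = (bpts σ L').card :=
          Finset.card_sdiff_add_card_eq_card h2
        rw [hC L hL, hC L' hL', h1] at e1
        have e2 : ((N.card : ℝ)) + (⌊s * (L.length : ℝ)⌋₊ : ℝ) =
            (⌊s * ((L.length + A.card : ℕ) : ℝ)⌋₊ : ℝ) := by exact_mod_cast e1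
        have e3 : (⌊s * ((L.length + A.card : ℕ) : ℝ)⌋₊ : ℝ) ≤
            s * ((L.length + A.card : ℕ) : ℝ) := Nat.floor_le (by positivity)
        have e4 := Nat.lt_floor_add_one (s * (L.length : ℝ))
        push_cast at e3 e2
        nlinarith
      set bad := A.filter (fun i => 3 ≤ (N.filter (· ∈ strip i)).card) with hbad
      have hb : 3 * bad.card ≤ N.card := by
        calc 3 * bad.card = ∑ _i ∈ bad, 3 := by simp [mul_comm]
          _ ≤ ∑ i ∈ bad, (N.filter (· ∈ strip i)).card :=
            Finset.sum_le_sum fun i hi => (Finset.mem_filter.1 hi).2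
          _ = (bad.biUnion fun i => N.filter (· ∈ strip i)).card := by
            rw [Finset.card_biUnion]
            intro i _ j _ hij
            rw [Function.onFun, Finset.disjoint_left]
            intro p hp hp'
            exact hij (strip_eq (Finset.mem_filter.1 hp).2 (Finset.mem_filter.1 hp').2)
          _ ≤ N.card := Finset.card_le_card (by
            intro p hp
            obtain ⟨i, _, hi⟩ := Finset.mem_biUnion.1 hp
            exact (Finset.mem_filter.1 hi).1)
      have hgood : a ≤ (A \ bad).card := by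
        have e1 : (A \ bad).card + bad.card = A.card :=
          Finset.card_sdiff_add_card_eq_card (Finset.filter_subset _ _)
        have e1' : ((A \ bad).card : ℝ) + bad.card = A.card := by exact_mod_cast e1
        have hb' : 3 * (bad.card : ℝ) ≤ N.card := by exact_mod_cast hb
        have hA' : (a' : ℝ) ≤ A.card := by exact_mod_cast hA
        have h3s : 0 < 3 - s := by linarith
        rw [div_le_iff₀ h3s] at ha'
        have : (a : ℝ) ≤ (A \ bad).card := by nlinarith
        exact_mod_cast this
      refine ih L' hL' (A \ bad) hgood (fun i => insert (f i) (Ms i))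
        (fun i => insert (f i) (Ss i) ∪ N.filter (· ∈ strip i)) fun i hi => ?_
      obtain ⟨hiA, hib⟩ := Finset.mem_sdiff.1 hi
      obtain ⟨g1, g2, g3, _⟩ := h i hiA
      obtain ⟨f1, f2, f3⟩ := h4 i hiA
      refine ⟨?_, ?_, ?_, f2 _ ?_⟩
      · exact Finset.insert_subset f3 (g1.trans h3)
      · intro p hp
        rcases Finset.mem_insert.1 hp with rfl | hp
        · exact f1
        · exact g2 p hp
      · intro p hp hpi
        rcases Finset.mem_union.1 hp with hp | hp
        · rcases h5 p hp with hp | ⟨j, hj, rfl⟩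
          · exact Finset.mem_union_left _ (Finset.mem_insert_of_mem
              (g3 p (Finset.mem_union_left _ hp) hpi))
          · have : j = i := strip_eq (h4 j hj).1 hpi
            subst this
            exact Finset.mem_union_left _ (Finset.mem_insert_self _ _)
        · by_cases hpL : p ∈ bpts σ L
          · exact Finset.mem_union_left _ (Finset.mem_insert_of_mem
              (g3 p (Finset.mem_union_right _ hpL) hpi))
          · exact Finset.mem_union_right _
              (Finset.mem_filter.2 ⟨Finset.mem_sdiff.2 ⟨hp, hpL⟩, hpi⟩)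
      · by_contra hc
        exact hib (Finset.mem_filter.2 ⟨hiA, by omega⟩)
  obtain ⟨a, ha⟩ := main n
  exact ha [] trivial (Finset.range a) (by simp) (fun _ => ∅) (fun _ => ∅) fun i _ =>
    ⟨by simp, by simp, by simp [bpts], h i⟩

end Pool.Agent.MP_09de6b_co.Low
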