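import Pool.Agent.MP_09de6b_co.LowCycle

/-! Maker wins the `1 : s` game for every `s < 3`. -/

namespace Pool.Agent.MP_09de6b_co.Low

open scoped Classical Topology

lemma cycle {D : Set Pt} (hD : IsOpen D) {l m K : ℕ} {α β : ℝ} {O : ℕ → Slot} {c : ℕ}
    {M S : Finset Pt} (hβ : 0 < β) (hK : 3 * m * (c + 1) < K) (h : St D l m K α β O c M S) :
    Force D (fun M S => Unif D (l + 1) m M S ∨ St D l m K α β O (c + 1) M S) m M S := by
  obtain ⟨w, hw, A, F, Nw, h⟩ := h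
  by_cases hfull : ∀ g < m, ∃ k ∈ F, k.1 = g
  · refine force_of (Or.inl ⟨w, hw, α, (2 * m + 2) * (4 * ((K + 1) * β)), by positivity,
      fun g hg => ?_⟩)
    obtain ⟨k, hk, rfl⟩ := hfull g hg
    exact ⟨Nw k, h.2.2.2.2.2.1 k hk⟩
  push Not at hfull
  obtain ⟨g, hgm, hg⟩ := hfull
  have hz := (stOn_zoom h).and
    (Filter.eventually_smallSets_subset.2 (hD.mem_nhds hw) : ∀ᶠ U in (𝓝 w).smallSets, U ⊆ D)
  obtain ⟨U, hU, hSt, hUD⟩ := hz.exists_mem_of_smallSets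
  set κ := 4 * (((K : ℝ) + 1) * β) with hκ
  have hκ0 : 0 < κ := by positivity
  set σ := α + g * ((2 * (m : ℝ) + 2) * κ) with hσ
  obtain ⟨lam, hl, harc⟩ := exists_scale hU σ κ ((m : ℝ) + 1) hκ0 (by positivity)
  refine force_mono ?_ (force_play (w := w) (σ := σ) hl.ne' hκ0.ne' M S m
    fun x h0 h1 => hUD (harc x h0 h1))
  rintro M' S' ⟨t, B, ht, hB, hM, hy, hS⟩
  have hm0 : (0 : ℝ) ≤ m := Nat.cast_nonneg m
  by_cases hA : ∃ b ∈ B, ∃ j < m, ∃ x0, 0 ≤ x0 ∧ x0 ≤ (m : ℝ) + 1 ∧ b ≠ arc w lam σ κ (t j) ∧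
      |hh w lam b + ee w lam σ κ b / (hh w lam b - x0) - t j| ≤ 1 / 4 ∧
        0 < (hh w lam b - x0) * (t j - x0)
  · obtain ⟨b, hb, j, hj, x0, h0, h1, hne, h2, h3⟩ := hA
    have hjm : (j : ℝ) + 1 ≤ m := by exact_mod_cast hj
    have hj0 : (0 : ℝ) ≤ j := Nat.cast_nonneg j
    have hinf := dodge (lo := 0) (hi := (m : ℝ) + 1) (by linarith [(ht j hj).1])
      (by linarith [(ht j hj).2]) h0 h1 (fun hc => hne (eq_of_hh_ee (w := w) (σ := σ) hl.ne'
        hκ0.ne' (by rw [hc.1, hh_arc hl.ne']) (by rw [hc.2, ee_arc hl.ne' hκ0.ne']))) h2 h3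
    obtain ⟨x, ⟨x1, x2, -, x3, x4⟩, hgen⟩ :=
      exists_gen (w := w) (σ := σ) hl.ne' hκ0.ne' (M' ∪ B) hinf
    obtain ⟨A', F', Nw', h'⟩ := (location hβ hK hSt hgm hg hl hκ hσ harc ht hB hM hy hS x1 x2
      hgen).2 b hb j hj x3 x4
    exact Or.inr ⟨_, hUD (harc x x1 x2), A', F', Nw', h'⟩
  · obtain ⟨x, hx, hgen⟩ := exists_gen (w := w) (σ := σ) hl.ne' hκ0.ne' (M' ∪ B)
      (Set.Icc_infinite (show (0 : ℝ) < m + 1 by linarith))
    refine Or.inl ⟨_, hUD (harc x hx.1 hx.2), σ + κ * (x + 1 / 2), κ, hκ0, ?_⟩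
    exact (location hβ hK hSt hgm hg hl hκ hσ harc ht hB hM hy hS hx.1 hx.2 hgen).1
      fun p hp j hj hne hc => hA ⟨p, hp, j, hj, x, hx.1, hx.2, hne, hc⟩

lemma stage {D : Set Pt} (hD : IsOpen D) {l m K : ℕ} {α β : ℝ} {O : ℕ → Slot} (hβ : 0 < β)
    (hK : 3 * m * (2 * m * m + 1) < K) : ∀ (d c : ℕ) (M S : Finset Pt), c + d = 2 * m * m + 1 →
      St D l m K α β O c M S → Force D (Unif D (l + 1) m) (m * d) M S := by
  intro d
  induction d with
  | zero =>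
    rintro c M S hc ⟨w, -, A, F, Nw, -, -, -, h4, h5, -⟩
    have := Finset.card_le_card h4
    simp only [Finset.card_product, Finset.card_range, Finset.card_univ, Fintype.card_bool] at this
    nlinarith
  | succ d ih =>
    intro c M S hc h
    have hK' : 3 * m * (c + 1) < K :=
      lt_of_le_of_lt (Nat.mul_le_mul_left _ (by omega)) hK
    rw [Nat.mul_succ]
    refine force_trans ?_ (cycle hD hβ hK' h)
    rintro M' S' (h' | h')
    · exact force_of h'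
    · exact ih (c + 1) M' S' (by omega) h'

lemma level_step (l m : ℕ) : ∃ N n : ℕ, ∀ D : Set Pt, IsOpen D → ∀ M S : Finset Pt,
    Unif D l N M S → Force D (Unif D (l + 1) m) n M S := by
  set K := 3 * m * (2 * m * m + 1) + 1 with hK
  refine ⟨m * ((2 * m + 2) * (4 * (K + 1))), m * (2 * m * m + 1), fun D hD M S h => ?_⟩
  obtain ⟨w, hw, α, β, hβ, h⟩ := h
  choose! O hO using h
  refine stage (K := K) (O := O) hD hβ (by omega) _ 0 M S (by omega)
    ⟨w, hw, Finset.range _, ∅, fun _ _ => ∅, subset_rfl, by simp, fun i hi =>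
      hO i (Finset.mem_range.1 hi), by simp, by simp, by simp, by simp⟩

lemma levels (l : ℕ) : ∀ N : ℕ, ∃ n : ℕ, ∀ D : Set Pt, IsOpen D → D.Nonempty →
    Force D (Unif D l N) n ∅ ∅ := by
  induction l with
  | zero =>
    refine fun N => ⟨0, fun D _ ⟨w, hw⟩ => ⟨w, hw, 0, 1, one_pos, fun i _ =>
      ⟨fun _ => ∅, by simp [size], fun e => ?_⟩⟩⟩
    simp
  | succ l ih =>
    intro m
    obtain ⟨N, n, h⟩ := level_step l m
    obtain ⟨n', h'⟩ := ih N
    exact ⟨n + n', fun D hD hne => force_trans (h D hD) (h' D hD hne)⟩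

lemma win_of_unif {D : Set Pt} {k : ℕ} {M S : Finset Pt} (h : Unif D (2 * k) 1 M S) :
    Win k M S := by
  obtain ⟨w, -, α, β, -, h⟩ := h
  obtain ⟨C, hC, hal⟩ := h 0 one_pos
  obtain ⟨e, he⟩ : ∃ e, k ≤ (C e).card := by
    unfold size at hC
    by_contra hc
    push Not at hc
    have := hc true
    have := hc false
    omega
  obtain ⟨H, hH, hk⟩ := Finset.exists_subset_card_eq he
  refine ⟨H, hH.trans (hal e).1, hk, fun p hp => ((hal e).2.2 p hp).mono ?_⟩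
  exact fun x hx => Or.inr ⟨hH hx.1, hx.2⟩

theorem not_breakerWins {k : ℕ} (hk : 1 ≤ k) {s : ℝ} (hs0 : 0 < s) (hs : s < 3) :
    ¬ BreakerWins s k := by
  obtain ⟨n, h⟩ := levels (2 * k) 1
  refine parallel hk hs0 hs (n := n) fun i => force_mono (fun M S => win_of_unif)
    (h _ (strip_isOpen i) ⟨((i : ℝ) + 1 / 2, 0), ?_, ?_⟩)
  · simp
  · simp only; linarith

end Pool.Agent.MP_09de6b_co.Low
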