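import Pool.Agent.MP_09de6b_co.Geo

namespace Pool.Agent.MP_09de6b_co

open Set Filter Topology

section
variable {f g : Pt →ₗ[ℝ] ℝ}

theorem tri_mem (hinj : ∀ v, f v = 0 → g v = 0 → v = 0) {K : Set Pt} (hK : Convex ℝ K)
    {u a q l : Pt} (hu : u ∈ K) (ha : a ∈ K) (hq : q ∈ K) {t : ℝ}
    (hFa : 0 < f (a - u)) (hFq : f (q - u) < 0)
    (hD : 2 * t * (f (a - u) - f (q - u)) ≤ f (a - u) * g (q - u) - f (q - u) * g (a - u))
    (hq' : t * |g (q - u)| ≤ -f (q - u)) (ha' : t * |g (a - u)| ≤ f (a - u))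
    (hl0 : 0 < g (l - u)) (hlt : g (l - u) ≤ t) (hl : |f (l - u)| ≤ t * g (l - u)) : l ∈ K := by
  set Fa := f (a - u) with hFa'
  set Fq := f (q - u) with hFq'
  set Ga := g (a - u) with hGa'
  set Gq := g (q - u) with hGq'
  set Fl := f (l - u) with hFl'
  set e := g (l - u) with he'
  have ht : 0 < t := hl0.trans_le hlt
  set D := Fa * Gq - Fq * Ga with hD'
  have hDpos : 0 < D := lt_of_lt_of_le (by nlinarith) hD
  have h1 : |Fl * Gq| ≤ e * (-Fq) := by
    rw [abs_mul]
    calc |Fl| * |Gq| ≤ (t * e) * |Gq| := by gcongr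
      _ = e * (t * |Gq|) := by ring
      _ ≤ e * (-Fq) := by gcongr
  have h2 : |Fl * Ga| ≤ e * Fa := by
    rw [abs_mul]
    calc |Fl| * |Ga| ≤ (t * e) * |Ga| := by gcongr
      _ = e * (t * |Ga|) := by ring
      _ ≤ e * Fa := by gcongr
  have h1' := abs_le.1 h1
  have h2' := abs_le.1 h2
  refine mem_hull_of_bary hK hu ha hq (l := (Fl * Gq - Fq * e) / D) (m := (Fa * e - Fl * Ga) / D)
    (div_nonneg (by nlinarith) hDpos.le) (div_nonneg (by nlinarith) hDpos.le) ?_ ?_
  · rw [← add_div, div_le_one hDpos]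
    have : e * (Fa - Fq) ≤ t * (Fa - Fq) := by
      apply mul_le_mul_of_nonneg_right hlt; linarith
    nlinarith
  · have := hinj (l - u - (((Fl * Gq - Fq * e) / D) • (a - u) + ((Fa * e - Fl * Ga) / D) • (q - u)))
      (by
        rw [map_sub, map_add, map_smul, map_smul]
        simp only [smul_eq_mul, ← hFa', ← hFq', ← hFl']
        field_simp
        rw [hD']; ring)
      (by
        rw [map_sub, map_add, map_smul, map_smul]
        simp only [smul_eq_mul, ← hGa', ← hGq', ← he']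
        field_simp
        rw [hD']; ring)
    rw [sub_eq_zero, sub_eq_iff_eq_add] at this
    rw [this]; abel

theorem center_mem (hinj : ∀ v, f v = 0 → g v = 0 → v = 0) {K : Set Pt} (hK : Convex ℝ K)
    {u a b q : Pt} (ha : a ∈ K) (hb : b ∈ K) (hq : q ∈ K)
    (hFa : 0 < f (a - u)) (hFb : 0 < f (b - u)) (hFq : f (q - u) < 0)
    (hE : f (a - u) * g (b - u) - f (b - u) * g (a - u) ≠ 0)
    (hDa : 0 ≤ f (a - u) * g (q - u) - f (q - u) * g (a - u))
    (hDb : f (b - u) * g (q - u) - f (q - u) * g (b - u) ≤ 0) : u ∈ K := by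
  set Fa := f (a - u) with hFa'
  set Fb := f (b - u) with hFb'
  set Fq := f (q - u) with hFq'
  set Ga := g (a - u) with hGa'
  set Gb := g (b - u) with hGb'
  set Gq := g (q - u) with hGq'
  set Da := Fa * Gq - Fq * Ga with hDa'
  set Db := Fb * Gq - Fq * Gb with hDb'
  set E := Fa * Gb - Fb * Ga with hE'
  have hid : E * Fq = Da * Fb - Db * Fa := by rw [hDa', hDb', hE']; ring
  have hE0 : E ≤ 0 := by
    by_contra h
    push Not at h
    nlinarith
  have hE1 : E < 0 := lt_of_le_of_ne hE0 hE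
  set W := -Db + Da - E with hW
  have hWpos : 0 < W := by linarith
  refine mem_hull_of_bary hK hq ha hb (l := -Db / W) (m := Da / W)
    (div_nonneg (by linarith) hWpos.le) (div_nonneg hDa hWpos.le) ?_ ?_
  · rw [← add_div, div_le_one hWpos]; linarith
  · have := hinj ((q - u) + (-Db / W) • ((a - u) - (q - u)) + (Da / W) • ((b - u) - (q - u)))
      (by
        rw [map_add, map_add, map_smul, map_smul, map_sub f (a - u), map_sub f (b - u)]
        simp only [smul_eq_mul, ← hFa', ← hFq', ← hFb']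
        field_simp
        rw [hW, hDa', hDb', hE']; ring)
      (by
        rw [map_add, map_add, map_smul, map_smul, map_sub g (a - u), map_sub g (b - u)]
        simp only [smul_eq_mul, ← hGa', ← hGq', ← hGb']
        field_simp
        rw [hW, hDa', hDb', hE']; ring)
    have h2 : u = u + ((q - u) + (-Db / W) • ((a - u) - (q - u))
        + (Da / W) • ((b - u) - (q - u))) := by rw [this, add_zero]
    rw [h2]
    simp only [sub_sub_sub_cancel_right]
    abel

/-- Both crossing points on the positive side: the positive blocker is caught. -/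
theorem pairB (hinj : ∀ v, f v = 0 → g v = 0 → v = 0) {K : Set Pt} (hK : Convex ℝ K)
    {u a b q l : Pt} (hu : u ∈ K) (ha : a ∈ K) (hb : b ∈ K) (hq : q ∈ K) {t c : ℝ}
    (hc : 0 < c) (hFa : 0 < f (a - u)) (hFb : 0 < f (b - u)) (hFq : f (q - u) ≤ -c)
    (hDa : 0 < f (a - u) * g (q - u) - f (q - u) * g (a - u))
    (hDb : 0 < f (b - u) * g (q - u) - f (q - u) * g (b - u))
    (hq' : t * |g (q - u)| ≤ -f (q - u)) (ha' : t * |g (a - u)| ≤ f (a - u))
    (hb' : t * |g (b - u)| ≤ f (b - u))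
    (h4 : 2 * t * (f (a - u) * c + f (b - u) * c + 2 * (f (a - u) * f (b - u)))
      ≤ |f (a - u) * g (b - u) - f (b - u) * g (a - u)| * c)
    (hl0 : 0 < g (l - u)) (hlt : g (l - u) ≤ t) (hl : |f (l - u)| ≤ t * g (l - u)) : l ∈ K := by
  have hFq0 : f (q - u) < 0 := by linarith
  by_cases h1 : 2 * t * (f (a - u) - f (q - u)) ≤ f (a - u) * g (q - u) - f (q - u) * g (a - u)
  · exact tri_mem hinj hK hu ha hq hFa hFq0 h1 hq' ha' hl0 hlt hl
  by_cases h2 : 2 * t * (f (b - u) - f (q - u)) ≤ f (b - u) * g (q - u) - f (q - u) * g (b - u)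
  · exact tri_mem hinj hK hu hb hq hFb hFq0 h2 hq' hb' hl0 hlt hl
  exfalso
  push Not at h1 h2
  have ht : 0 < t := hl0.trans_le hlt
  set Fa := f (a - u)
  set Fb := f (b - u)
  set Fq := f (q - u)
  set Ga := g (a - u)
  set Gb := g (b - u)
  set Gq := g (q - u)
  set Da := Fa * Gq - Fq * Ga with hDa'
  set Db := Fb * Gq - Fq * Gb with hDb'
  set E := Fa * Gb - Fb * Ga with hE'
  have hid : E * Fq = Da * Fb - Db * Fa := by rw [hDa', hDb', hE']; ring
  have h5 : |E| * (-Fq) < 2 * t * ((Fa - Fq) * Fb + (Fb - Fq) * Fa) := by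
    have h6 : |E| * (-Fq) = |Da * Fb - Db * Fa| := by
      rw [← hid, abs_mul, abs_of_neg hFq0]
    rw [h6]
    have h7 : Da * Fb < 2 * t * (Fa - Fq) * Fb := by gcongr
    have h8 : Db * Fa < 2 * t * (Fb - Fq) * Fa := by gcongr
    have h9 : 0 < Da * Fb := by positivity
    have h10 : 0 < Db * Fa := by positivity
    rw [abs_lt]
    constructor <;> nlinarith
  have h11 : 2 * t * (Fa * c + Fb * c + 2 * (Fa * Fb)) * (-Fq) ≤ |E| * c * (-Fq) := by
    apply mul_le_mul_of_nonneg_right h4; linarith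
  have h12 : |E| * (-Fq) * c < 2 * t * ((Fa - Fq) * Fb + (Fb - Fq) * Fa) * c := by gcongr
  have h13 : 0 < 2 * t * (2 * (Fa * Fb)) := by positivity
  have h14 : 2 * t * (2 * (Fa * Fb)) * c ≤ 2 * t * (2 * (Fa * Fb)) * (-Fq) := by
    apply mul_le_mul_of_nonneg_left _ h13.le; linarith
  nlinarith

theorem hinj_neg_left (hinj : ∀ v, f v = 0 → g v = 0 → v = 0) :
    ∀ v, (-f) v = 0 → g v = 0 → v = 0 := fun v h1 h2 => hinj v (by simpa using h1) h2

theorem hinj_neg_right (hinj : ∀ v, f v = 0 → g v = 0 → v = 0) :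
    ∀ v, f v = 0 → (-g) v = 0 → v = 0 := fun v h1 h2 => hinj v h1 (by simpa only [LinearMap.neg_apply, abs_neg, neg_pos, ne_eq, neg_eq_zero] using h2)

/-- The one-sided form of the shield lemma, with `a` on the positive side. -/
theorem shield_pos (hinj : ∀ v, f v = 0 → g v = 0 → v = 0) {K₁ K₂ : Set Pt}
    (hK₁ : Convex ℝ K₁) (hK₂ : Convex ℝ K₂) {u a b q l r : Pt}
    (ha₁ : a ∈ K₁) (hb₁ : b ∈ K₁) (hq₁ : q ∈ K₁) (hu₁ : u ∉ K₁)
    (hu : u ∈ K₂) (ha : a ∈ K₂) (hb : b ∈ K₂) (hq : q ∈ K₂) (hl₂ : l ∉ K₂) (hr₂ : r ∉ K₂)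
    {t c : ℝ} (hc : 0 < c) (hFa : 0 < f (a - u)) (hFb : f (b - u) ≠ 0) (hFq : c ≤ |f (q - u)|)
    (hE : f (a - u) * g (b - u) - f (b - u) * g (a - u) ≠ 0)
    (hq' : t * |g (q - u)| ≤ |f (q - u)|) (ha' : t * |g (a - u)| ≤ |f (a - u)|)
    (hb' : t * |g (b - u)| ≤ |f (b - u)|)
    (h4 : 2 * t * (|f (a - u)| * c + |f (b - u)| * c + 2 * (|f (a - u)| * |f (b - u)|))
      ≤ |f (a - u) * g (b - u) - f (b - u) * g (a - u)| * c)
    (hl0 : 0 < g (l - u)) (hlt : g (l - u) ≤ t) (hl : |f (l - u)| ≤ t * g (l - u))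
    (hr0 : 0 < -g (r - u)) (hrt : -g (r - u) ≤ t) (hr : |f (r - u)| ≤ t * -g (r - u)) :
    0 < f (q - u) := by
  have ht : 0 < t := hl0.trans_le hlt
  rw [abs_of_pos hFa] at ha' h4
  by_contra hq0
  push Not at hq0
  have hFq0 : f (q - u) < 0 := by
    rcases hq0.lt_or_eq with h | h
    · exact h
    · rw [h] at hFq; simp at hFq; linarith
  rw [abs_of_neg hFq0] at hFq hq'
  rcases hFb.lt_or_gt with hFb | hFb
  · rw [abs_of_neg hFb] at hb' h4
    have h5 : 2 * t * (f (a - u) - f (b - u)) ≤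
        |f (a - u) * g (b - u) - f (b - u) * g (a - u)| := by
      have h6 : 0 ≤ 2 * t * (2 * (f (a - u) * -f (b - u))) := by
        have : 0 < -f (b - u) := by linarith
        positivity
      have : 2 * t * (f (a - u) - f (b - u)) * c ≤
        |f (a - u) * g (b - u) - f (b - u) * g (a - u)| * c := by nlinarith
      exact le_of_mul_le_mul_right this hc
    rcases hE.lt_or_gt with hE | hE
    · rw [abs_of_neg hE] at h5
      refine hr₂ (tri_mem (hinj_neg_right hinj) hK₂ hu ha hb (t := t) hFa hFb ?_ ?_ ?_ ?_ ?_ ?_)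
      · simp only [LinearMap.neg_apply]; linarith
      · simpa only [LinearMap.neg_apply, abs_neg, neg_pos, ne_eq, neg_eq_zero] using hb'
      · simpa only [LinearMap.neg_apply, abs_neg, neg_pos, ne_eq, neg_eq_zero] using ha'
      · simpa only [LinearMap.neg_apply, abs_neg, neg_pos, ne_eq, neg_eq_zero] using hr0
      · simpa only [LinearMap.neg_apply, abs_neg, neg_pos, ne_eq, neg_eq_zero] using hrt
      · simpa only [LinearMap.neg_apply, abs_neg, neg_pos, ne_eq, neg_eq_zero] using hr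
    · rw [abs_of_pos hE] at h5
      exact hl₂ (tri_mem hinj hK₂ hu ha hb hFa hFb h5 hb' ha' hl0 hlt hl)
  · rw [abs_of_pos hFb] at hb' h4
    rcases lt_trichotomy 0 (f (a - u) * g (q - u) - f (q - u) * g (a - u)) with hDa | hDa | hDa
    · by_cases hDb : 0 < f (b - u) * g (q - u) - f (q - u) * g (b - u)
      · exact hl₂ (pairB hinj hK₂ hu ha hb hq hc hFa hFb (by linarith) hDa hDb hq' ha' hb' h4
          hl0 hlt hl)
      · exact hu₁ (center_mem hinj hK₁ ha₁ hb₁ hq₁ hFa hFb hFq0 hE hDa.le (not_lt.1 hDb))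
    · by_cases hDb : 0 < f (b - u) * g (q - u) - f (q - u) * g (b - u)
      · refine hu₁ (center_mem hinj hK₁ hb₁ ha₁ hq₁ hFb hFa hFq0 ?_ hDb.le hDa.ge)
        intro h; apply hE; linarith
      · exact hu₁ (center_mem hinj hK₁ ha₁ hb₁ hq₁ hFa hFb hFq0 hE hDa.le (not_lt.1 hDb))
    · by_cases hDb : f (b - u) * g (q - u) - f (q - u) * g (b - u) < 0
      · refine hr₂ (pairB (hinj_neg_right hinj) hK₂ hu ha hb hq (t := t) hc hFa hFb (by linarith)
          ?_ ?_ ?_ ?_ ?_ ?_ ?_ ?_ ?_)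
        · simp only [LinearMap.neg_apply]; linarith
        · simp only [LinearMap.neg_apply]; linarith
        · simpa only [LinearMap.neg_apply, abs_neg, neg_pos, ne_eq, neg_eq_zero] using hq'
        · simpa only [LinearMap.neg_apply, abs_neg, neg_pos, ne_eq, neg_eq_zero] using ha'
        · simpa only [LinearMap.neg_apply, abs_neg, neg_pos, ne_eq, neg_eq_zero] using hb'
        · simp only [LinearMap.neg_apply]
          rw [show f (a - u) * -g (b - u) - f (b - u) * -g (a - u)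
            = -(f (a - u) * g (b - u) - f (b - u) * g (a - u)) by ring, abs_neg]
          exact h4
        · simpa only [LinearMap.neg_apply, abs_neg, neg_pos, ne_eq, neg_eq_zero] using hr0
        · simpa only [LinearMap.neg_apply, abs_neg, neg_pos, ne_eq, neg_eq_zero] using hrt
        · simpa only [LinearMap.neg_apply, abs_neg, neg_pos, ne_eq, neg_eq_zero] using hr
      · refine hu₁ (center_mem hinj hK₁ hb₁ ha₁ hq₁ hFb hFa hFq0 ?_ (not_lt.1 hDb) hDa.le)
        intro h; apply hE; linarith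

/-- The property of a pair of blockers `l`, `r` of `u` with respect to a pair `a`, `b`. -/
def PairOK (f g : Pt →ₗ[ℝ] ℝ) (u : Pt) (c K : ℝ) (a b l r : Pt) : Prop :=
  ∀ (q : Pt) (K₁ K₂ : Set Pt), Convex ℝ K₁ → Convex ℝ K₂ → a ∈ K₁ → b ∈ K₁ → q ∈ K₁ → u ∉ K₁ →
    u ∈ K₂ → a ∈ K₂ → b ∈ K₂ → q ∈ K₂ → l ∉ K₂ → r ∉ K₂ → c ≤ |f (q - u)| →
    |g (q - u)| ≤ K * |f (q - u)| → 0 < f (a - u) * f (q - u)

/-- The allowed positions of a blocker. -/
def Near (f g : Pt →ₗ[ℝ] ℝ) (u : Pt) (t : ℝ) (l : Pt) : Prop :=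
  0 < g (l - u) ∧ g (l - u) < t ∧ |f (l - u)| < t * g (l - u)

theorem eventually_mul_le {x y : ℝ} (hy : 0 < y) : ∀ᶠ t in 𝓝[>] (0 : ℝ), t * x ≤ y := by
  have h : Tendsto (fun t : ℝ => t * x) (𝓝 0) (𝓝 (0 * x)) := tendsto_id.mul_const x
  rw [zero_mul] at h
  exact (h.eventually (eventually_le_nhds hy)).filter_mono nhdsWithin_le_nhds

theorem eventually_pairOK (hinj : ∀ v, f v = 0 → g v = 0 → v = 0) {u a b : Pt} {c K : ℝ}
    (hc : 0 < c) (hFa : f (a - u) ≠ 0) (hFb : f (b - u) ≠ 0)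
    (hE : f (a - u) * g (b - u) - f (b - u) * g (a - u) ≠ 0) :
    ∀ᶠ t in 𝓝[>] (0 : ℝ), ∀ l r, Near f g u t l → Near f (-g) u t r → PairOK f g u c K a b l r := by
  have e1 := eventually_mul_le (x := K) one_pos
  have e2 := eventually_mul_le (x := |g (a - u)|) (abs_pos.2 hFa)
  have e3 := eventually_mul_le (x := |g (b - u)|) (abs_pos.2 hFb)
  have e4 := eventually_mul_le
    (x := 2 * (|f (a - u)| * c + |f (b - u)| * c + 2 * (|f (a - u)| * |f (b - u)|)))
    (mul_pos (abs_pos.2 hE) hc)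
  filter_upwards [e1, e2, e3, e4] with t h1 h2 h3 h4
  intro l r hl hr q K₁ K₂ hK₁ hK₂ ha₁ hb₁ hq₁ hu₁ hu ha hb hq hl₂ hr₂ hFq hGq
  have ht : 0 < t := hl.1.trans hl.2.1
  have hq' : t * |g (q - u)| ≤ |f (q - u)| := by
    calc t * |g (q - u)| ≤ t * (K * |f (q - u)|) := by gcongr
      _ = (t * K) * |f (q - u)| := by ring
      _ ≤ 1 * |f (q - u)| := by gcongr
      _ = _ := one_mul _
  have h4' : 2 * t * (|f (a - u)| * c + |f (b - u)| * c + 2 * (|f (a - u)| * |f (b - u)|))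
      ≤ |f (a - u) * g (b - u) - f (b - u) * g (a - u)| * c := by linarith
  have hr0 : 0 < -g (r - u) := by simpa only [LinearMap.neg_apply, abs_neg, neg_pos, ne_eq, neg_eq_zero] using hr.1
  have hrt : -g (r - u) ≤ t := by simpa only [LinearMap.neg_apply, abs_neg, neg_pos, ne_eq, neg_eq_zero] using hr.2.1.le
  have hr' : |f (r - u)| ≤ t * -g (r - u) := by simpa only [LinearMap.neg_apply, abs_neg, neg_pos, ne_eq, neg_eq_zero] using hr.2.2.le
  rcases hFa.lt_or_gt with hFa' | hFa'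
  · have := shield_pos (hinj_neg_left hinj) hK₁ hK₂ ha₁ hb₁ hq₁ hu₁ hu ha hb hq hl₂ hr₂ (t := t) hc
      (by simpa only [LinearMap.neg_apply, abs_neg, neg_pos, ne_eq, neg_eq_zero] using hFa') (by simpa only [LinearMap.neg_apply, abs_neg, neg_pos, ne_eq, neg_eq_zero] using hFb) (by simpa only [LinearMap.neg_apply, abs_neg, neg_pos, ne_eq, neg_eq_zero] using hFq)
      (by simp only [LinearMap.neg_apply]; intro h; apply hE; linarith)
      (by simpa only [LinearMap.neg_apply, abs_neg, neg_pos, ne_eq, neg_eq_zero] using hq') (by simpa only [LinearMap.neg_apply, abs_neg, neg_pos, ne_eq, neg_eq_zero] using h2) (by simpa only [LinearMap.neg_apply, abs_neg, neg_pos, ne_eq, neg_eq_zero] using h3)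
      (by
        simp only [LinearMap.neg_apply, abs_neg]
        rw [show -f (a - u) * g (b - u) - -f (b - u) * g (a - u)
          = -(f (a - u) * g (b - u) - f (b - u) * g (a - u)) by ring, abs_neg]
        exact h4')
      hl.1 hl.2.1.le (by simpa only [LinearMap.neg_apply, abs_neg, neg_pos, ne_eq, neg_eq_zero] using hl.2.2.le) hr0 hrt (by simpa only [LinearMap.neg_apply, abs_neg, neg_pos, ne_eq, neg_eq_zero] using hr')
    simp only [LinearMap.neg_apply] at this
    nlinarith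
  · have := shield_pos hinj hK₁ hK₂ ha₁ hb₁ hq₁ hu₁ hu ha hb hq hl₂ hr₂ (t := t) hc
      hFa' hFb hFq hE hq' h2 h3 h4' hl.1 hl.2.1.le hl.2.2.le hr0 hrt hr'
    positivity

theorem isOpen_near (f g : Pt →ₗ[ℝ] ℝ) (u : Pt) (t : ℝ) : IsOpen {l | Near f g u t l} := by
  have hf : Continuous f := f.continuous_of_finiteDimensional
  have hg : Continuous g := g.continuous_of_finiteDimensional
  have h1 : IsOpen {l : Pt | 0 < g (l - u)} := isOpen_lt (by fun_prop) (by fun_prop)
  have h2 : IsOpen {l : Pt | g (l - u) < t} := isOpen_lt (by fun_prop) (by fun_prop)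
  have h3 : IsOpen {l : Pt | |f (l - u)| < t * g (l - u)} := isOpen_lt (by fun_prop) (by fun_prop)
  exact h1.inter (h2.inter h3)

theorem near_nonempty {u d : Pt} {t : ℝ} (ht : 0 < t) (hf : f d = 0) (hg : g d = 1) :
    {l | Near f g u t l}.Nonempty := by
  refine ⟨u + (t / 2) • d, ?_⟩
  simp only [mem_ofPred_eq, Near, add_sub_cancel_left, map_smul, hf, hg, smul_eq_mul, mul_one,
    mul_zero, abs_zero]
  refine ⟨by positivity, by linarith, by positivity⟩

/-- Existence of a shield in general position. -/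
theorem exists_shield (hinj : ∀ v, f v = 0 → g v = 0 → v = 0) {u d : Pt} (hf : f d = 0)
    (hg : g d = 1) {c : ℝ} (K : ℝ) (hc : 0 < c) (A S : Finset Pt) (hS : GenPos S)
    (hA : ∀ a ∈ A, f (a - u) ≠ 0)
    (hE : ∀ a ∈ A, ∀ b ∈ A, a ≠ b → f (a - u) * g (b - u) - f (b - u) * g (a - u) ≠ 0) :
    ∃ l r, l ∉ S ∧ r ∉ S ∧ l ≠ r ∧ GenPos (insert r (insert l S)) ∧
      ∀ a ∈ A, ∀ b ∈ A, a ≠ b → PairOK f g u c K a b l r := by
  have key : ∀ᶠ t in 𝓝[>] (0 : ℝ), ∀ a ∈ A, ∀ b ∈ A, a ≠ b →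
      ∀ l r, Near f g u t l → Near f (-g) u t r → PairOK f g u c K a b l r := by
    rw [eventually_all_finset]
    intro a ha
    rw [eventually_all_finset]
    intro b hb
    by_cases hab : a = b
    · exact Eventually.of_forall fun t h => absurd hab h
    · filter_upwards [eventually_pairOK (K := K) hinj hc (hA a ha) (hA b hb) (hE a ha b hb hab)]
        with t ht _ using ht
  obtain ⟨t, ht, ht0⟩ := (key.and self_mem_nhdsWithin).exists
  have ht0 : 0 < t := ht0
  obtain ⟨l, hl, hl'⟩ := exists_generic (isOpen_near f g u t) (near_nonempty ht0 hf hg) S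
  obtain ⟨r, hr, hr'⟩ := exists_generic (isOpen_near f (-g) u t)
    (near_nonempty (d := -d) ht0 (by simp [hf]) (by simp [hg])) (insert l S)
  have h1 := hr'.1
  rw [Finset.mem_insert, not_or] at h1
  exact ⟨l, r, hl'.1, h1.2, fun h => h1.1 h.symm, hr'.genPos (hl'.genPos hS),
    fun a ha b hb hab => ht a ha b hb hab l r hl hr⟩

end

end Pool.Agent.MP_09de6b_co
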