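import Pool.Agent.MP_09de6b_co.Shield

namespace Pool.Agent.MP_09de6b_co

open Set

theorem breakerWins_of_inv (s : ℝ) (k : ℕ) (Inv : List Pt → Finset Pt → Prop) (h0 : Inv [] ∅)
    (hstep : ∀ (L : List Pt) (B : Finset Pt) (p : Pt), Inv L B →
      B.card = ⌊s * (L.length : ℝ)⌋₊ → p ∉ L.toFinset ∪ B →
      GenPos (insert p (L.toFinset ∪ B)) →
      (¬ ∃ H, H ⊆ (p :: L).toFinset ∧ IsHole k ((p :: L).toFinset ∪ B) H) ∧
      ∃ N : Finset Pt, Disjoint N ((p :: L).toFinset ∪ B) ∧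
        (B ∪ N).card = ⌊s * ((p :: L).length : ℝ)⌋₊ ∧
        GenPos ((p :: L).toFinset ∪ (B ∪ N)) ∧ Inv (p :: L) (B ∪ N)) :
    BreakerWins s k := by
  classical
  have hex : ∀ (L : List Pt) (B : Finset Pt) (p : Pt), ∃ N : Finset Pt, (Inv L B →
      B.card = ⌊s * (L.length : ℝ)⌋₊ → p ∉ L.toFinset ∪ B →
      GenPos (insert p (L.toFinset ∪ B)) →
      Disjoint N ((p :: L).toFinset ∪ B) ∧
        (B ∪ N).card = ⌊s * ((p :: L).length : ℝ)⌋₊ ∧
        GenPos ((p :: L).toFinset ∪ (B ∪ N)) ∧ Inv (p :: L) (B ∪ N)) := by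
    intro L B p
    by_cases h : Inv L B ∧ B.card = ⌊s * (L.length : ℝ)⌋₊ ∧ p ∉ L.toFinset ∪ B ∧
      GenPos (insert p (L.toFinset ∪ B))
    · obtain ⟨N, hN⟩ := (hstep L B p h.1 h.2.1 h.2.2.1 h.2.2.2).2
      exact ⟨N, fun _ _ _ _ => hN⟩
    · exact ⟨∅, fun h1 h2 h3 h4 => absurd ⟨h1, h2, h3, h4⟩ h⟩
  choose nxt hnxt using hex
  let T : List Pt → Finset Pt := fun L => List.rec ∅ (fun p L B => B ∪ nxt L B p) L
  let σ : List Pt → Finset Pt := fun L => match L with
    | [] => ∅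
    | p :: L => nxt L (T L) p
  have hT : ∀ L, bpts σ L = T L := by
    intro L
    induction L with
    | nil => rfl
    | cons p L ih => simp only [bpts, ih]; rfl
  have hinv : ∀ L, Legal σ L → Inv L (T L) ∧ (T L).card = ⌊s * (L.length : ℝ)⌋₊ := by
    intro L
    induction L with
    | nil => intro _; exact ⟨h0, by simp [T]⟩
    | cons p L ih =>
      intro hL
      obtain ⟨h1, h2, h3⟩ := hL
      rw [hT] at h2 h3
      obtain ⟨i1, i2⟩ := ih h1
      obtain ⟨-, j2, -, j4⟩ := hnxt L (T L) p i1 i2 h2 h3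
      exact ⟨j4, j2⟩
  refine ⟨σ, fun p L hL => ?_⟩
  obtain ⟨h1, h2, h3⟩ := hL
  rw [hT] at h2 h3
  obtain ⟨i1, i2⟩ := hinv L h1
  obtain ⟨j1, j2, j3, -⟩ := hnxt L (T L) p i1 i2 h2 h3
  rw [hT, hT]
  exact ⟨(hstep L (T L) p i1 i2 h2 h3).1, j2, j1, j3⟩

theorem exists_pad (m : ℕ) (S : Finset Pt) (hS : GenPos S) :
    ∃ N : Finset Pt, N.card = m ∧ Disjoint N S ∧ GenPos (S ∪ N) := by
  induction m with
  | zero => exact ⟨∅, rfl, by simp, by simpa using hS⟩
  | succ m ih =>
    obtain ⟨N, h1, h2, h3⟩ := ih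
    obtain ⟨p, -, hp⟩ := exists_generic isOpen_univ univ_nonempty (S ∪ N)
    have hp1 := hp.1
    rw [Finset.mem_union, not_or] at hp1
    refine ⟨insert p N, by rw [Finset.card_insert_of_notMem hp1.2, h1], ?_, ?_⟩
    · rw [Finset.disjoint_insert_left]; exact ⟨hp1.1, h2⟩
    · rw [Finset.union_insert]; exact hp.genPos h3

/-- The class of a point: `1` in the lower half plane, `-1` in the upper one. -/
noncomputable def cls (q : Pt) : ℝ := if q.2 ≤ 0 then 1 else -1

theorem cls_mul (q : Pt) : cls q * q.2 ≤ 0 := by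
  unfold cls
  split_ifs with h
  · simpa using h
  · push Not at h; linarith

theorem cls_sq (q : Pt) : cls q * cls q = 1 := by
  unfold cls
  split_ifs <;> norm_num

theorem cls_cases (q : Pt) : cls q = 1 ∨ cls q = -1 := by
  unfold cls
  split_ifs <;> simp

/-- The coordinate of the line through the centre `(α e, e)` and `q`. -/
noncomputable def hh (α : ℝ → ℝ) (e : ℝ) (q : Pt) : ℝ := (q.1 - α e) / (1 - e * q.2)

/-- `u` is shielded by `B` with respect to `a`, `b`, outside the strip of half width `η`. -/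
def Sh (α : ℝ → ℝ) (B : Finset Pt) (u : Pt) (η : ℝ) (a b : Pt) : Prop :=
  ∃ σ : ℝ, ∀ q : Pt, cls q = cls u → η ≤ |hh α (cls u) q - hh α (cls u) u| →
    ∀ K₁ K₂ : Set Pt, Convex ℝ K₁ → Convex ℝ K₂ → a ∈ K₁ → b ∈ K₁ → q ∈ K₁ → u ∉ K₁ →
      u ∈ K₂ → a ∈ K₂ → b ∈ K₂ → q ∈ K₂ → (∀ x ∈ B, x ∉ K₂) →
      0 < σ * (hh α (cls u) q - hh α (cls u) u)

theorem Sh.mono {α : ℝ → ℝ} {B B' : Finset Pt} {u : Pt} {η : ℝ} {a b : Pt}
    (h : Sh α B u η a b) (hB : B ⊆ B') : Sh α B' u η a b := by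
  obtain ⟨σ, hσ⟩ := h
  exact ⟨σ, fun q h1 h2 K₁ K₂ c1 c2 a1 a2 a3 a4 a5 a6 a7 a8 a9 =>
    hσ q h1 h2 K₁ K₂ c1 c2 a1 a2 a3 a4 a5 a6 a7 a8 fun x hx => a9 x (hB hx)⟩

theorem one_le_s (q : Pt) : 1 ≤ 1 - cls q * q.2 := by linarith [cls_mul q]

theorem hh_ne {α : ℝ → ℝ} {S : Finset Pt} (hS : GenPos S) {u v : Pt} (hu : u ∈ S) (hv : v ∈ S)
    (hO : ((α (cls u), cls u) : Pt) ∈ S) (huv : u ≠ v) (huO : u ≠ (α (cls u), cls u))
    (hvO : v ≠ (α (cls u), cls u)) (hc : cls v = cls u) :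
    hh α (cls u) v ≠ hh α (cls u) u := by
  intro h
  apply hS.cross_ne hO hu hv huO.symm hvO.symm huv
  have h1 := one_le_s u
  have h2 := one_le_s v
  rw [hc] at h2
  have h3 := cls_sq u
  unfold hh at h
  rw [div_eq_div_iff (by linarith) (by linarith)] at h
  simp only [cross, Prod.fst_sub, Prod.snd_sub]
  have e1 : u.2 - cls u = -cls u * (1 - cls u * u.2) := by linear_combination (-u.2) * h3
  have e2 : v.2 - cls u = -cls u * (1 - cls u * v.2) := by linear_combination (-v.2) * h3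
  rw [e1, e2]
  linear_combination (cls u) * h

theorem shield_pt (α : ℝ → ℝ) {S : Finset Pt} (hS : GenPos S) {u : Pt} (hu : u ∈ S)
    (hO : ((α (cls u), cls u) : Pt) ∈ S) (A : Finset Pt) (hAS : A ⊆ S) (huA : u ∉ A)
    (hOA : ((α (cls u), cls u) : Pt) ∉ A) {η : ℝ} (hη : 0 < η) :
    ∃ l r, l ∉ S ∧ r ∉ S ∧ l ≠ r ∧ GenPos (insert r (insert l S)) ∧
      ∀ a ∈ A, ∀ b ∈ A, a ≠ b → Sh α {l, r} u η a b := by
  set e := cls u with he
  set O : Pt := (α e, e) with hOdef
  have h1 : 1 ≤ 1 - e * u.2 := one_le_s u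
  have h3 : e * e = 1 := cls_sq u
  set d : Pt := u - O with hd
  have hd2 : d.2 = -e * (1 - e * u.2) := by
    simp only [hd, hOdef, Prod.snd_sub]; linear_combination (-u.2) * h3
  have he0 : e ≠ 0 := by intro h; rw [h] at h3; simp at h3
  have hd0 : d.2 ≠ 0 := by rw [hd2]; exact mul_ne_zero (neg_ne_zero.2 he0) (by linarith)
  have huO : u ≠ O := by
    intro h; apply hd0; rw [hd, h]; simp
  let g : Pt →ₗ[ℝ] ℝ := (d.2)⁻¹ • LinearMap.snd ℝ ℝ ℝ
  let f : Pt →ₗ[ℝ] ℝ := LinearMap.fst ℝ ℝ ℝ - (d.1 / d.2) • LinearMap.snd ℝ ℝ ℝ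
  have hg : ∀ v : Pt, g v = v.2 / d.2 := by intro v; simp [g, div_eq_inv_mul]
  have hf : ∀ v : Pt, f v = v.1 - d.1 / d.2 * v.2 := by intro v; simp [f]
  have hinj : ∀ v, f v = 0 → g v = 0 → v = 0 := by
    intro v h1 h2
    rw [hg, div_eq_zero_iff] at h2
    have h2 := h2.resolve_right hd0
    rw [hf, h2] at h1
    ext
    · simpa using h1
    · simpa using h2
  obtain ⟨l, r, hl, hr, hlr, hgen, hP⟩ := exists_shield (f := f) (g := g) hinj (u := u) (d := d)
    (by rw [hf]; field_simp; ring) (by rw [hg]; field_simp) (c := η) (1 / η) hη A S hS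
    (by
      intro a ha h0
      have hau : a ≠ u := fun h => huA (h ▸ ha)
      have haO : a ≠ O := fun h => hOA (h ▸ ha)
      apply hS.cross_ne hu hO (hAS ha) huO hau.symm haO.symm
      rw [hf] at h0
      have : O - u = -d := by rw [hd]; abel
      rw [this]
      simp only [cross, Prod.fst_neg, Prod.snd_neg]
      field_simp at h0
      linarith)
    (by
      intro a ha b hb hab h0
      have hau : a ≠ u := fun h => huA (h ▸ ha)
      have hbu : b ≠ u := fun h => huA (h ▸ hb)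
      apply hS.cross_ne hu (hAS ha) (hAS hb) hau.symm hbu.symm hab
      rw [hf, hf, hg, hg] at h0
      simp only [cross]
      have h5 : ((a - u).1 * (b - u).2 - (a - u).2 * (b - u).1) / d.2 = 0 := by
        rw [← h0]; field_simp; ring
      rw [div_eq_zero_iff] at h5
      have h6 := h5.resolve_right hd0
      linarith)
  refine ⟨l, r, hl, hr, hlr, hgen, fun a ha b hb hab => ⟨f (a - u), ?_⟩⟩
  intro q hq hηq K₁ K₂ c1 c2 a1 a2 a3 a4 a5 a6 a7 a8 a9
  have h2 : 1 ≤ 1 - e * q.2 := by have := one_le_s q; rwa [hq] at this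
  have hd1 : d.1 = u.1 - α e := by simp [hd, hOdef]
  have hfq : f (q - u) = (1 - e * q.2) * (hh α e q - hh α e u) := by
    rw [hf, hd1, hd2]
    unfold hh
    simp only [Prod.fst_sub, Prod.snd_sub]
    have : (1 - e * u.2) ≠ 0 := by linarith
    have : (1 - e * q.2) ≠ 0 := by linarith
    field_simp
    linear_combination (-(u.1 - α e) * (q.2 - u.2)) * h3
  have hgq : g (q - u) = ((1 - e * q.2) - (1 - e * u.2)) / (1 - e * u.2) := by
    rw [hg, hd2]
    simp only [Prod.snd_sub]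
    have h7 : (1 - e * u.2) ≠ 0 := by linarith
    rw [div_eq_div_iff (mul_ne_zero (neg_ne_zero.2 he0) h7) h7]
    linear_combination (-(q.2 - u.2) * (1 - e * u.2)) * h3
  have habs : |f (q - u)| = (1 - e * q.2) * |hh α e q - hh α e u| := by
    rw [hfq, abs_mul, abs_of_pos (by linarith)]
  have k1 : η ≤ |f (q - u)| := by rw [habs]; nlinarith
  have k2 : |g (q - u)| ≤ 1 / η * |f (q - u)| := by
    have : |g (q - u)| ≤ 1 - e * q.2 := by
      rw [hgq, abs_div, abs_of_pos (by linarith : 0 < 1 - e * u.2), div_le_iff₀ (by linarith),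
        abs_le]
      constructor <;> nlinarith
    refine this.trans ?_
    rw [habs, one_div, ← div_eq_inv_mul, le_div_iff₀ hη]
    gcongr
  have := hP a ha b hb hab q K₁ K₂ c1 c2 a1 a2 a3 a4 a5 a6 a7 a8 (a9 l (by simp)) (a9 r (by simp))
    k1 k2
  rw [hfq] at this
  by_contra hcon
  push Not at hcon
  nlinarith

/-- The shield invariant for the Maker points `M`, without general position. -/
structure Good (α : ℝ → ℝ) (τ : Pt → ℕ) (η : Pt → ℝ) (M B : Finset Pt) : Prop where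
  pos : ∀ u ∈ M, 0 < η u
  sep : ∀ u ∈ M, ∀ v ∈ M, u ≠ v → cls v = cls u → η u + η v < |hh α (cls u) v - hh α (cls u) u|
  sh : ∀ u ∈ M, ∀ a ∈ M, ∀ b ∈ M, τ a < τ u → τ b < τ u → a ≠ b → Sh α B u (η u) a b

theorem exists_middle {V : Finset Pt} (hV : 3 ≤ V.card) (h : Pt → ℝ)
    (hinj : ∀ u ∈ V, ∀ v ∈ V, u ≠ v → h u ≠ h v) :
    ∃ u ∈ V, ∃ q₁ ∈ V, ∃ q₂ ∈ V, h q₁ < h u ∧ h u < h q₂ := by
  have hne : V.Nonempty := Finset.card_pos.1 (by omega)
  obtain ⟨q₁, h1, h1'⟩ := V.exists_min_image h hne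
  obtain ⟨q₂, h2, h2'⟩ := V.exists_max_image h hne
  have : ((V.erase q₁).erase q₂).Nonempty := by
    rw [← Finset.card_pos]
    have := Finset.pred_card_le_card_erase (s := V) (a := q₁)
    have := Finset.pred_card_le_card_erase (s := V.erase q₁) (a := q₂)
    omega
  obtain ⟨u, hu⟩ := this
  simp only [Finset.mem_erase] at hu
  exact ⟨u, hu.2.2, q₁, h1, q₂, h2,
    lt_of_le_of_ne (h1' u hu.2.2) (hinj q₁ h1 u hu.2.2 (Ne.symm hu.2.1)),
    lt_of_le_of_ne (h2' u hu.2.2) (hinj u hu.2.2 q₂ h2 hu.1)⟩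

theorem Good.no_hole {α : ℝ → ℝ} {τ : Pt → ℕ} {η : Pt → ℝ} {M B : Finset Pt}
    (hG : Good α τ η M B) (hτ : ∀ u ∈ M, ∀ v ∈ M, τ u = τ v → u = v) {p : Pt}
    (hd : Disjoint (insert p M) B) {k : ℕ} (hk : 8 ≤ k) {H : Finset Pt}
    (hH : H ⊆ insert p M) (hh' : IsHole k (insert p M ∪ B) H) : False := by
  obtain ⟨-, hcard, hconv, hemp⟩ := hh'
  set H' := H.erase p with hH'
  have hH'M : H' ⊆ M := by
    intro x hx
    rw [hH', Finset.mem_erase] at hx
    exact (Finset.mem_insert.1 (hH hx.2)).resolve_left hx.1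
  have c1 : 7 ≤ H'.card := by
    have := Finset.pred_card_le_card_erase (s := H) (a := p)
    rw [← hH'] at this
    omega
  obtain ⟨a, ha, ha'⟩ := H'.exists_min_image τ (Finset.card_pos.1 (by omega))
  have c2 : 6 ≤ (H'.erase a).card := by rw [Finset.card_erase_of_mem ha]; omega
  obtain ⟨b, hb, hb'⟩ := (H'.erase a).exists_min_image τ (Finset.card_pos.1 (by omega))
  set V := (H'.erase a).erase b with hV
  have c3 : 5 ≤ V.card := by rw [hV, Finset.card_erase_of_mem hb]; omega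
  have hVH : ∀ x ∈ V, x ≠ b ∧ x ≠ a ∧ x ∈ H' := by
    intro x hx
    simpa only [hV, Finset.mem_erase] using hx
  have hbH : b ≠ a ∧ b ∈ H' := by simpa only [Finset.mem_erase] using hb
  have hex : ∃ e : ℝ, 3 ≤ (V.filter fun x => cls x = e).card := by
    by_contra hcon
    push Not at hcon
    have h1 := hcon 1
    have h2 := hcon (-1)
    have : V ⊆ (V.filter fun x => cls x = 1) ∪ (V.filter fun x => cls x = -1) := by
      intro x hx
      rcases cls_cases x with h | h <;> simp [hx, h]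
    have := (Finset.card_le_card this).trans (Finset.card_union_le _ _)
    omega
  obtain ⟨e, he⟩ := hex
  have hsep : ∀ u ∈ V.filter (fun x => cls x = e), ∀ v ∈ V.filter (fun x => cls x = e), u ≠ v →
      η u + η v < |hh α e v - hh α e u| := by
    intro u hu v hv huv
    rw [Finset.mem_filter] at hu hv
    have := hG.sep u (hH'M (hVH u hu.1).2.2) v (hH'M (hVH v hv.1).2.2) huv (by rw [hu.2, hv.2])
    rwa [hu.2] at this
  have hpos : ∀ u ∈ V.filter (fun x => cls x = e), 0 < η u := by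
    intro u hu
    rw [Finset.mem_filter] at hu
    exact hG.pos u (hH'M (hVH u hu.1).2.2)
  obtain ⟨u, hu, q₁, hq₁, q₂, hq₂, l1, l2⟩ := exists_middle he (hh α e) (by
    intro u hu v hv huv h0
    have := hsep u hu v hv huv
    rw [h0, sub_self, abs_zero] at this
    linarith [hpos u hu, hpos v hv])
  have hu' := Finset.mem_filter.1 hu
  obtain ⟨ub, ua, uH⟩ := hVH u hu'.1
  have hHH : H' ⊆ H := Finset.erase_subset _ _
  have ta : τ a < τ u := lt_of_le_of_ne (ha' u uH) fun h => ua (hτ a (hH'M ha) u (hH'M uH) h).symm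
  have tb : τ b < τ u := lt_of_le_of_ne (hb' u (Finset.mem_erase.2 ⟨ua, uH⟩))
    fun h => ub (hτ b (hH'M hbH.2) u (hH'M uH) h).symm
  obtain ⟨σ, hσ⟩ := hG.sh u (hH'M uH) a (hH'M ha) b (hH'M hbH.2) ta tb hbH.1.symm
  have key : ∀ q ∈ V.filter (fun x => cls x = e), q ≠ u → 0 < σ * (hh α e q - hh α e u) := by
    intro q hq hqu
    have hq' := Finset.mem_filter.1 hq
    have qH := hHH (hVH q hq'.1).2.2
    have m1 : ∀ x ∈ H, x ≠ u → x ∈ convexHull ℝ ((H : Set Pt) \ {u}) :=
      fun x hx hxu => subset_convexHull ℝ _ ⟨hx, hxu⟩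
    have m2 : ∀ x ∈ H, x ∈ convexHull ℝ (H : Set Pt) := fun x hx => subset_convexHull ℝ _ hx
    have := hσ q (by rw [hq'.2, hu'.2])
      (by rw [hu'.2]; linarith [hsep u hu q hq hqu.symm, hpos q hq])
      (convexHull ℝ ((H : Set Pt) \ {u})) (convexHull ℝ (H : Set Pt))
      (convex_convexHull _ _) (convex_convexHull _ _) (m1 a (hHH ha) ua.symm)
      (m1 b (hHH hbH.2) ub.symm) (m1 q qH hqu) (hconv u (hHH uH)) (m2 u (hHH uH)) (m2 a (hHH ha))
      (m2 b (hHH hbH.2)) (m2 q qH) (by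
        intro x hx hxK
        have : x ∈ (H : Set Pt) := by
          rw [← hemp]
          exact ⟨hxK, by simp [hx]⟩
        exact Finset.disjoint_left.1 hd (hH this) hx)
    rwa [hu'.2] at this
  have k1 := key q₁ hq₁ (by rintro rfl; exact lt_irrefl _ l1)
  have k2 := key q₂ hq₂ (by rintro rfl; exact lt_irrefl _ l2)
  rcases lt_trichotomy σ 0 with h | h | h
  · nlinarith
  · rw [h] at k1; simp at k1
  · nlinarith

theorem refresh {α : ℝ → ℝ} {τ : Pt → ℕ} {η : Pt → ℝ} {M B : Finset Pt}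
    (hG : Good α τ η M B) (hO : ∀ u : Pt, ((α (cls u), cls u) : Pt) ∈ B) (hd : Disjoint M B)
    {p : Pt} (hp : p ∉ M ∪ B) (hgen : GenPos (insert p (M ∪ B))) :
    ∃ (η' : Pt → ℝ) (N : Finset Pt), N.card ≤ 2 ∧ Disjoint N (insert p (M ∪ B)) ∧
      GenPos (insert p (M ∪ B) ∪ N) ∧ Good α τ η' M (B ∪ N) ∧
      ∀ u ∈ M, cls u = cls p → η' u < |hh α (cls p) p - hh α (cls p) u| := by
  classical
  by_cases hex : ∃ u ∈ M, cls u = cls p ∧ |hh α (cls p) p - hh α (cls p) u| ≤ η u
  · obtain ⟨u, hu, hc, hle⟩ := hex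
    rw [← hc] at hle
    have hpM : p ∉ M := fun h => hp (Finset.mem_union_left _ h)
    have hpB : p ∉ B := fun h => hp (Finset.mem_union_right _ h)
    have huS : u ∈ insert p (M ∪ B) := by simp [hu]
    have hOS : ((α (cls u), cls u) : Pt) ∈ insert p (M ∪ B) := by simp [hO u]
    have hne : hh α (cls u) p ≠ hh α (cls u) u :=
      hh_ne hgen huS (by simp) hOS (fun h => hpM (h ▸ hu))
        (fun h => Finset.disjoint_left.1 hd hu (h ▸ hO u)) (fun h => hpB (h ▸ hO u)) hc.symm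
    have hpos : 0 < |hh α (cls u) p - hh α (cls u) u| := abs_pos.2 (sub_ne_zero.2 hne)
    set δ := |hh α (cls u) p - hh α (cls u) u| / 2 with hδ
    have hδ0 : 0 < δ := by rw [hδ]; linarith
    have hδ1 : δ < η u := by rw [hδ]; linarith
    obtain ⟨l, r, hl, hr, hlr, hg, hs⟩ := shield_pt α hgen huS hOS (M.filter fun a => τ a < τ u)
      (by intro a ha; simp [(Finset.mem_filter.1 ha).1]) (by simp)
      (fun h => Finset.disjoint_left.1 hd (Finset.mem_filter.1 h).1 (hO u)) hδ0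
    have hle' : ∀ v, Function.update η u δ v ≤ η v := by
      intro v
      by_cases hv : v = u
      · rw [hv, Function.update_self]; exact hδ1.le
      · rw [Function.update_of_ne hv]
    refine ⟨Function.update η u δ, {l, r}, Finset.card_le_two, ?_, ?_, ⟨?_, ?_, ?_⟩, ?_⟩
    · rw [Finset.disjoint_insert_left, Finset.disjoint_singleton_left]; exact ⟨hl, hr⟩
    · refine hg.mono ?_
      intro x hx
      simp only [Finset.mem_union, Finset.mem_insert, Finset.mem_singleton] at hx ⊢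
      tauto
    · intro v hv
      by_cases hvu : v = u
      · rw [hvu, Function.update_self]; exact hδ0
      · rw [Function.update_of_ne hvu]; exact hG.pos v hv
    · intro v hv w hw hvw hcw
      linarith [hG.sep v hv w hw hvw hcw, hle' v, hle' w]
    · intro v hv a ha b hb ta tb hab
      by_cases hvu : v = u
      · subst hvu
        rw [Function.update_self]
        exact (hs a (Finset.mem_filter.2 ⟨ha, ta⟩) b (Finset.mem_filter.2 ⟨hb, tb⟩) hab).mono
          Finset.subset_union_right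
      · rw [Function.update_of_ne hvu]
        exact (hG.sh v hv a ha b hb ta tb hab).mono Finset.subset_union_left
    · intro v hv hcv
      rw [← hc]
      by_cases hvu : v = u
      · rw [hvu, Function.update_self, hδ]; linarith
      · rw [Function.update_of_ne hvu]
        have h1 := hG.sep u hu v hv (Ne.symm hvu) (hcv.trans hc.symm)
        have h2 := abs_sub_le (hh α (cls u) v) (hh α (cls u) p) (hh α (cls u) u)
        rw [abs_sub_comm (hh α (cls u) v) (hh α (cls u) p)] at h2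
        linarith
  · push Not at hex
    exact ⟨η, ∅, by simp, by simp, by simpa using hgen, by simpa using hG, hex⟩

theorem exists_small {M : Finset Pt} {F : Pt → ℝ} (hF : ∀ u ∈ M, 0 < F u) :
    ∃ δ : ℝ, 0 < δ ∧ ∀ u ∈ M, δ < F u := by
  have : ∀ᶠ t in nhdsWithin (0 : ℝ) (Ioi 0), ∀ u ∈ M, t < F u := by
    rw [Filter.eventually_all_finset]
    intro u hu
    exact (eventually_lt_nhds (hF u hu)).filter_mono nhdsWithin_le_nhds
  obtain ⟨t, h1, h2⟩ := (this.and self_mem_nhdsWithin).exists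
  exact ⟨t, h2, h1⟩

theorem add_pt {α : ℝ → ℝ} {τ : Pt → ℕ} {η : Pt → ℝ} {M B : Finset Pt}
    (hG : Good α τ η M B) (hO : ∀ u : Pt, ((α (cls u), cls u) : Pt) ∈ B) (hd : Disjoint M B)
    {p : Pt} (hp : p ∉ M ∪ B) (hgen : GenPos (insert p (M ∪ B))) {n : ℕ} (hn : ∀ u ∈ M, τ u < n)
    (hm : ∀ u ∈ M, cls u = cls p → η u < |hh α (cls p) p - hh α (cls p) u|) :
    ∃ (η' : Pt → ℝ) (N : Finset Pt), N.card ≤ 2 ∧ Disjoint N (insert p (M ∪ B)) ∧
      GenPos (insert p (M ∪ B) ∪ N) ∧
      Good α (Function.update τ p n) η' (insert p M) (B ∪ N) := by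
  classical
  have hpM : p ∉ M := fun h => hp (Finset.mem_union_left _ h)
  obtain ⟨δ, hδ0, hδ⟩ := exists_small (M := M.filter fun u => cls u = cls p)
    (F := fun u => |hh α (cls p) p - hh α (cls p) u| - η u) (by
      intro u hu
      rw [Finset.mem_filter] at hu
      linarith [hm u hu.1 hu.2])
  obtain ⟨l, r, hl, hr, hlr, hg, hs⟩ := shield_pt α hgen (u := p) (by simp) (by simp [hO p]) M
    (by intro a ha; simp [ha]) hpM (fun h => Finset.disjoint_left.1 hd h (hO p)) hδ0
  have hne : ∀ u ∈ M, u ≠ p := fun u hu h => hpM (h ▸ hu)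
  have hτ : ∀ u ∈ M, Function.update τ p n u = τ u := fun u hu => Function.update_of_ne (hne u hu) _ _
  have hη : ∀ u ∈ M, Function.update η p δ u = η u := fun u hu => Function.update_of_ne (hne u hu) _ _
  have hsep : ∀ u ∈ M, cls u = cls p → η u + δ < |hh α (cls p) p - hh α (cls p) u| := by
    intro u hu hc
    have := hδ u (Finset.mem_filter.2 ⟨hu, hc⟩)
    linarith
  refine ⟨Function.update η p δ, {l, r}, Finset.card_le_two, ?_, ?_, ⟨?_, ?_, ?_⟩⟩
  · rw [Finset.disjoint_insert_left, Finset.disjoint_singleton_left]; exact ⟨hl, hr⟩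
  · refine hg.mono ?_
    intro x hx
    simp only [Finset.mem_union, Finset.mem_insert, Finset.mem_singleton] at hx ⊢
    tauto
  · intro v hv
    rcases Finset.mem_insert.1 hv with rfl | hv
    · rw [Function.update_self]; exact hδ0
    · rw [hη v hv]; exact hG.pos v hv
  · intro v hv w hw hvw hcw
    rcases Finset.mem_insert.1 hv with rfl | hv
    · have hw := (Finset.mem_insert.1 hw).resolve_left hvw.symm
      rw [Function.update_self, hη w hw, abs_sub_comm]
      linarith [hsep w hw hcw]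
    · rcases Finset.mem_insert.1 hw with hw | hw
      · rw [hw] at hcw ⊢
        rw [Function.update_self, hη v hv, ← hcw]
        exact hsep v hv hcw.symm
      · rw [hη v hv, hη w hw]; exact hG.sep v hv w hw hvw hcw
  · intro v hv a ha b hb ta tb hab
    have hold : ∀ a ∈ insert p M, Function.update τ p n a < Function.update τ p n v → a ∈ M := by
      intro a ha ta
      rcases Finset.mem_insert.1 ha with rfl | ha
      · rw [Function.update_self] at ta
        rcases Finset.mem_insert.1 hv with rfl | hv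
        · simp at ta
        · rw [hτ v hv] at ta; linarith [hn v hv]
      · exact ha
    have ha' := hold a ha ta
    have hb' := hold b hb tb
    rcases Finset.mem_insert.1 hv with rfl | hv
    · rw [Function.update_self]
      exact (hs a ha' b hb' hab).mono Finset.subset_union_right
    · rw [hτ v hv, hτ a ha'] at ta
      rw [hτ v hv, hτ b hb'] at tb
      rw [hη v hv]
      exact (hG.sh v hv a ha' b hb' ta tb hab).mono Finset.subset_union_left

theorem Good.mono {α : ℝ → ℝ} {τ : Pt → ℕ} {η : Pt → ℝ} {M B B' : Finset Pt}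
    (hG : Good α τ η M B) (hB : B ⊆ B') : Good α τ η M B' :=
  ⟨hG.pos, hG.sep, fun u hu a ha b hb ta tb hab => (hG.sh u hu a ha b hb ta tb hab).mono hB⟩

/-- The invariant of Breaker's strategy. -/
def Inv4 (L : List Pt) (B : Finset Pt) : Prop :=
  (L = [] ∧ B = ∅) ∨ ∃ (α : ℝ → ℝ) (τ : Pt → ℕ) (η : Pt → ℝ),
    (∀ u : Pt, ((α (cls u), cls u) : Pt) ∈ B) ∧ Disjoint L.toFinset B ∧
    (∀ u ∈ L.toFinset, τ u < L.length) ∧
    (∀ u ∈ L.toFinset, ∀ v ∈ L.toFinset, τ u = τ v → u = v) ∧ Good α τ η L.toFinset B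

theorem first_half {L : List Pt} {B : Finset Pt} (hI : Inv4 L B) {p : Pt}
    (hp : p ∉ L.toFinset ∪ B) (hgen : GenPos (insert p (L.toFinset ∪ B))) :
    ∃ (α : ℝ → ℝ) (τ : Pt → ℕ) (η : Pt → ℝ) (N : Finset Pt), N.card ≤ 2 ∧
      Disjoint N (insert p (L.toFinset ∪ B)) ∧ GenPos (insert p (L.toFinset ∪ B) ∪ N) ∧
      (∀ u : Pt, ((α (cls u), cls u) : Pt) ∈ B ∪ N) ∧ Disjoint L.toFinset B ∧
      (∀ u ∈ L.toFinset, τ u < L.length) ∧
      (∀ u ∈ L.toFinset, ∀ v ∈ L.toFinset, τ u = τ v → u = v) ∧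
      Good α τ η L.toFinset (B ∪ N) ∧
      ∀ u ∈ L.toFinset, cls u = cls p → η u < |hh α (cls p) p - hh α (cls p) u| := by
  rcases hI with ⟨rfl, rfl⟩ | ⟨α, τ, η, hO, hd, h1, h2, hG⟩
  · refine ⟨fun _ => p.1 + 1, fun _ => 0, fun _ => 0, {(p.1 + 1, 1), (p.1 + 1, -1)},
      Finset.card_le_two, ?_, ?_, ?_, by simp, by simp, by simp, ⟨by simp, by simp, by simp⟩,
      by simp⟩
    · simp [Prod.ext_iff]
    · intro a ha b hb c hc hab hac hbc
      rw [collinear_iff_cross]
      simp only [List.toFinset_nil, Finset.union_empty, insert_empty_eq, Finset.mem_union,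
        Finset.mem_singleton, Finset.mem_insert] at ha hb hc
      rcases ha with rfl | rfl | rfl <;> rcases hb with hb | hb | hb <;>
        rcases hc with hc | hc | hc <;>
        first
          | exact absurd hb.symm hab
          | exact absurd hc.symm hac
          | exact absurd (hb.trans hc.symm) hbc
          | (rw [hb, hc]; simp only [cross, Prod.fst_sub, Prod.snd_sub]; intro h; linarith)
    · intro u
      rcases cls_cases u with h | h <;> simp [h]
  · obtain ⟨η', N, k1, k2, k3, k4, k5⟩ := refresh hG hO hd hp hgen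
    exact ⟨α, τ, η', N, k1, k2, k3, fun u => Finset.mem_union_left _ (hO u), hd, h1, h2, k4, k5⟩

theorem floor_step {s : ℝ} (hs : 4 ≤ s) (n : ℕ) :
    ⌊s * (n : ℝ)⌋₊ + 4 ≤ ⌊s * ((n + 1 : ℕ) : ℝ)⌋₊ := by
  apply Nat.le_floor
  have := Nat.floor_le (a := s * (n : ℝ)) (by positivity)
  push_cast
  linarith

theorem breaker_wins (s : ℝ) (hs : 4 ≤ s) (k : ℕ) (hk : 8 ≤ k) : BreakerWins s k := by
  classical
  refine breakerWins_of_inv s k Inv4 (Or.inl ⟨rfl, rfl⟩) ?_
  intro L B p hI hcard hp hgen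
  have hpM : p ∉ L.toFinset := fun h => hp (Finset.mem_union_left _ h)
  have hpB : p ∉ B := fun h => hp (Finset.mem_union_right _ h)
  constructor
  · rintro ⟨H, hH, hhole⟩
    rw [List.toFinset_cons] at hH hhole
    rcases hI with ⟨rfl, rfl⟩ | ⟨α, τ, η, hO, hd, h1, h2, hG⟩
    · have := Finset.card_le_card hH
      rw [hhole.2.1] at this
      simp at this
      omega
    · exact hG.no_hole h2 (by rw [Finset.disjoint_insert_left]; exact ⟨hpB, hd⟩) hk hH hhole
  obtain ⟨α, τ, η, N₁, c1, d1, g1, hO, hd, h1, h2, hG, hm⟩ := first_half hI hp hgen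
  have hup : ∀ u ∈ L.toFinset, Function.update τ p L.length u = τ u :=
    fun u hu => Function.update_of_ne (fun h : u = p => hpM (h ▸ hu)) _ _
  have e1 : insert p (L.toFinset ∪ (B ∪ N₁)) = insert p (L.toFinset ∪ B) ∪ N₁ := by
    simp [Finset.union_assoc]
  have hpN : p ∉ N₁ := fun h => Finset.disjoint_left.1 d1 h (by simp)
  have hd' : Disjoint L.toFinset (B ∪ N₁) := by
    rw [Finset.disjoint_union_right]
    exact ⟨hd, Finset.disjoint_left.2 fun x hx hx' => Finset.disjoint_left.1 d1 hx' (by simp [hx])⟩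
  obtain ⟨η', N₂, c2, d2, g2, hG'⟩ := add_pt hG hO hd' (p := p) (by simp [hpM, hpB, hpN])
    (by rw [e1]; exact g1) h1 hm
  have hfl := floor_step hs L.length
  have c3 : (N₁ ∪ N₂).card ≤ 4 := (Finset.card_union_le _ _).trans (by omega)
  obtain ⟨N₃, c4, d3, g3⟩ := exists_pad
    (⌊s * ((L.length + 1 : ℕ) : ℝ)⌋₊ - ⌊s * (L.length : ℝ)⌋₊ - (N₁ ∪ N₂).card) _ g2
  have hdisj : Disjoint (N₁ ∪ N₂ ∪ N₃) ((p :: L).toFinset ∪ B) := by
    rw [Finset.disjoint_left] at d1 d2 d3 ⊢
    intro x hx hx'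
    simp only [List.toFinset_cons, Finset.mem_union, Finset.mem_insert] at hx hx' d1 d2 d3
    have := @d1 x
    have := @d2 x
    have := @d3 x
    tauto
  refine ⟨N₁ ∪ N₂ ∪ N₃, hdisj, ?_, ?_, Or.inr ⟨α, Function.update τ p L.length, η', ?_, ?_, ?_,
    ?_, ?_⟩⟩
  · have a1 : Disjoint B (N₁ ∪ N₂ ∪ N₃) := (hdisj.mono_right Finset.subset_union_right).symm
    have a2 : Disjoint (N₁ ∪ N₂) N₃ := by
      refine (d3.mono_right ?_).symm
      intro x hx
      simp only [Finset.mem_union, Finset.mem_insert] at hx ⊢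
      tauto
    rw [Finset.card_union_of_disjoint a1, Finset.card_union_of_disjoint a2, c4, hcard,
      List.length_cons]
    omega
  · refine g3.mono ?_
    intro x hx
    simp only [List.toFinset_cons, Finset.mem_union, Finset.mem_insert] at hx ⊢
    tauto
  · intro u
    have := hO u
    simp only [Finset.mem_union] at this ⊢
    tauto
  · rw [Finset.disjoint_union_right]
    refine ⟨?_, (hdisj.mono_right Finset.subset_union_left).symm⟩
    rw [List.toFinset_cons, Finset.disjoint_insert_left]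
    exact ⟨hpB, hd⟩
  · intro u hu
    rw [List.toFinset_cons] at hu
    rcases Finset.mem_insert.1 hu with rfl | hu
    · simp
    · rw [hup u hu, List.length_cons]
      linarith [h1 u hu]
  · intro u hu v hv huv
    rw [List.toFinset_cons] at hu hv
    rcases Finset.mem_insert.1 hu with hu | hu <;> rcases Finset.mem_insert.1 hv with hv | hv
    · rw [hu, hv]
    · rw [hup v hv, hu, Function.update_self] at huv
      linarith [h1 v hv]
    · rw [hup u hu, hv, Function.update_self] at huv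
      linarith [h1 u hu]
    · rw [hup u hu, hup v hv] at huv
      exact h2 u hu v hv huv
  · rw [List.toFinset_cons]
    refine hG'.mono ?_
    intro x hx
    simp only [Finset.mem_union] at hx ⊢
    tauto

end Pool.Agent.MP_09de6b_co
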